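import Pool.Agent.T9h53.AH.Mel3
import Pool.Agent.T9h53.EQ.Core

/-! # The series of the reciprocal of the zeta function -/

set_option autoImplicit false

open Complex Filter Topology Set MeasureTheory

namespace Pool.Agent.T9h53.AH

open Pool.Agent.T9h53.SZ Pool.Agent.T9h53.EQ
open Pool.Agent.TH823.MRS (mob)

/-- the coefficients on the critical line -/
noncomputable def mc (n : ℕ) : ℂ := (mob n : ℂ) * ((Real.exp (-(Real.log n / 2)) : ℝ) : ℂ)

lemma mc_zero : mc 0 = 0 := by
  unfold mc mob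
  simp

lemma mob_norm (n : ℕ) : ‖(mob n : ℂ)‖ ≤ 1 := by
  rw [Complex.norm_intCast]
  have := Pool.Agent.TH823.MRS.mob_bdd n
  exact_mod_cast this

lemma exp_log_rpow {n : ℕ} (hn : 1 ≤ n) (c : ℝ) : Real.exp (c * Real.log n) = (n : ℝ) ^ c := by
  have hn0 : (0 : ℝ) < n := by exact_mod_cast hn
  rw [Real.rpow_def_of_pos hn0, mul_comm]

lemma mc_le {n : ℕ} (hn : 1 ≤ n) (c : ℝ) :
    ‖mc n‖ * Real.exp (c * Real.log n) ≤ (n : ℝ) ^ (c - 1 / 2) := by
  rw [← exp_log_rpow hn]
  unfold mc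
  rw [norm_mul, Complex.norm_real, Real.norm_of_nonneg (Real.exp_pos _).le, mul_assoc,
    ← Real.exp_add]
  have h1 : -(Real.log n / 2) + c * Real.log n = (c - 1 / 2) * Real.log n := by ring
  rw [h1]
  exact mul_le_of_le_one_left (Real.exp_pos _).le (mob_norm n)

lemma mc_series {z : ℂ} (hz : 1 / 2 < z.re) :
    HasSum (fun n : ℕ => mc n * cexp (-((Real.log n : ℝ) : ℂ) * z)) (riemannZeta (1 / 2 + z))⁻¹ := by
  have hs : 1 < (1 / 2 + z).re := by
    simp only [add_re, div_ofNat_re, one_re]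
    linarith
  have h1 := LSeries_one_mul_Lseries_moebius hs
  rw [LSeries_one_eq_riemannZeta hs] at h1
  have h2 : (riemannZeta (1 / 2 + z))⁻¹ =
      LSeries (fun n => ((ArithmeticFunction.moebius n : ℤ) : ℂ)) (1 / 2 + z) :=
    inv_eq_of_mul_eq_one_right h1
  have h3 : HasSum (LSeries.term (fun n => ((ArithmeticFunction.moebius n : ℤ) : ℂ)) (1 / 2 + z))
      (LSeries (fun n => ((ArithmeticFunction.moebius n : ℤ) : ℂ)) (1 / 2 + z)) :=
    (ArithmeticFunction.LSeriesSummable_moebius_iff.mpr hs).hasSum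
  rw [← h2] at h3
  have h4 : (fun n : ℕ => mc n * cexp (-((Real.log n : ℝ) : ℂ) * z)) =
      LSeries.term (fun n => ((ArithmeticFunction.moebius n : ℤ) : ℂ)) (1 / 2 + z) := by
    funext n
    rcases Nat.eq_zero_or_pos n with rfl | hn
    · rw [mc_zero, zero_mul, LSeries.term_zero]
    · have hn0 : (n : ℂ) ≠ 0 := by exact_mod_cast hn.ne'
      rw [LSeries.term_of_ne_zero hn.ne', Complex.cpow_def_of_ne_zero hn0, div_eq_mul_inv,
        ← Complex.exp_neg, ← Complex.natCast_log]
      unfold mc mob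
      rw [mul_assoc, Complex.ofReal_exp, ← Complex.exp_add]
      congr 2
      push_cast
      ring
  rw [h4]
  exact h3

lemma mc_summable : Summable fun n : ℕ => ‖mc n‖ * Real.exp (-Real.log n) := by
  have h1 : Summable fun n : ℕ => (n : ℝ) ^ (-(3 / 2) : ℝ) := by
    rw [Real.summable_nat_rpow]
    norm_num
  refine Summable.of_nonneg_of_le (fun n => by positivity) (fun n => ?_) h1
  rcases Nat.eq_zero_or_pos n with rfl | hn
  · rw [mc_zero, norm_zero, zero_mul]
    positivity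
  · have := mc_le hn (-1)
    rw [neg_one_mul] at this
    refine this.trans (le_of_eq ?_)
    norm_num

/-- the total mass of the coefficients -/
noncomputable def S0 : ℝ := ∑' n : ℕ, ‖mc n‖ * Real.exp (-Real.log n)

lemma S0_nonneg : 0 ≤ S0 := tsum_nonneg fun n => by positivity

lemma inv_zeta_le {z : ℂ} (hz : 1 ≤ z.re) : ‖(riemannZeta (1 / 2 + z))⁻¹‖ ≤ S0 := by
  have h := mc_series (z := z) (by linarith)
  rw [← h.tsum_eq]
  refine tsum_of_norm_bounded (mc_summable.hasSum) fun n => ?_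
  rw [norm_mul, Complex.norm_exp, neg_mul, neg_re, re_ofReal_mul]
  rcases Nat.eq_zero_or_pos n with rfl | hn
  · rw [mc_zero, norm_zero, zero_mul, zero_mul]
  · have hn1 : (1 : ℝ) ≤ n := by exact_mod_cast hn
    have h1 := Real.log_nonneg hn1
    apply mul_le_mul_of_nonneg_left _ (norm_nonneg _)
    apply Real.exp_le_exp.mpr
    nlinarith

lemma inv_zeta_conj {z : ℂ} (hz : z.re = -1) :
    HasSum (fun n : ℕ => mc n * cexp (((Real.log n : ℝ) : ℂ) * z))
      ((starRingEnd ℂ) (riemannZeta (1 / 2 - (starRingEnd ℂ) z))⁻¹) := by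
  have h := mc_series (z := -(starRingEnd ℂ) z) (by simp [hz]; norm_num)
  rw [← sub_eq_add_neg] at h
  have h2 := (Complex.hasSum_conj'.mpr h)
  have h3 : (fun n : ℕ => (starRingEnd ℂ) (mc n * cexp (-((Real.log n : ℝ) : ℂ) *
      -(starRingEnd ℂ) z))) = fun n : ℕ => mc n * cexp (((Real.log n : ℝ) : ℂ) * z) := by
    funext n
    rw [map_mul, ← Complex.exp_conj]
    have e1 : (starRingEnd ℂ) (mc n) = mc n := by
      unfold mc
      rw [map_mul, Complex.conj_ofReal, map_intCast]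
    rw [e1]
    congr 2
    simp only [map_mul, map_neg, conj_conj, conj_ofReal]
    ring
  rw [← h3]
  exact h2

/-- the tail of the series -/
lemma mc_tail : ∃ C : ℝ, 0 < C ∧ ∀ N : ℕ, 1 ≤ N → ∀ z : ℂ, z.re = -1 →
    ‖(starRingEnd ℂ) (riemannZeta (1 / 2 - (starRingEnd ℂ) z))⁻¹ -
      PP (Finset.Icc 1 N) (fun n => (mob n : ℂ)) z‖ ≤ C * (N : ℝ) ^ (-(1 / 4) : ℝ) := by
  have h1 : Summable fun n : ℕ => (n : ℝ) ^ (-(5 / 4) : ℝ) := by
    rw [Real.summable_nat_rpow]
    norm_num
  have hpos : 0 ≤ ∑' n : ℕ, (n : ℝ) ^ (-(5 / 4) : ℝ) := tsum_nonneg fun n => by positivity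
  refine ⟨∑' n : ℕ, (n : ℝ) ^ (-(5 / 4) : ℝ) + 1, by linarith, fun N hN z hz => ?_⟩
  have hN0 : (0 : ℝ) < N := by exact_mod_cast hN
  have h2 := inv_zeta_conj hz
  set f : ℕ → ℂ := fun n => mc n * cexp (((Real.log n : ℝ) : ℂ) * z) with hf
  have h3 : HasSum (fun n => if n ∈ Finset.Icc 1 N then f n else 0) (∑ n ∈ Finset.Icc 1 N, f n) := by
    have : HasSum (fun n => if n ∈ Finset.Icc 1 N then f n else 0)
        (∑ n ∈ Finset.Icc 1 N, (if n ∈ Finset.Icc 1 N then f n else 0)) :=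
      hasSum_sum_of_ne_finset_zero (fun p hp => if_neg hp)
    have e1 : ∑ n ∈ Finset.Icc 1 N, (if n ∈ Finset.Icc 1 N then f n else 0) =
        ∑ n ∈ Finset.Icc 1 N, f n := Finset.sum_congr rfl fun p hp => if_pos hp
    rwa [e1] at this
  have e1 : ∑ n ∈ Finset.Icc 1 N, f n = PP (Finset.Icc 1 N) (fun n => (mob n : ℂ)) z := by
    unfold PP
    apply Finset.sum_congr rfl
    intro n _
    rw [hf]
    simp only
    unfold mc
    ring
  rw [e1] at h3
  have h4 := h2.sub h3
  have h5 : HasSum (fun n : ℕ => (N : ℝ) ^ (-(1 / 4) : ℝ) * (n : ℝ) ^ (-(5 / 4) : ℝ))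
      ((N : ℝ) ^ (-(1 / 4) : ℝ) * ∑' n : ℕ, (n : ℝ) ^ (-(5 / 4) : ℝ)) := h1.hasSum.mul_left _
  have h6 : ∀ n, ‖f n - (if n ∈ Finset.Icc 1 N then f n else 0)‖ ≤
      (N : ℝ) ^ (-(1 / 4) : ℝ) * (n : ℝ) ^ (-(5 / 4) : ℝ) := by
    intro n
    by_cases hp : n ∈ Finset.Icc 1 N
    · rw [if_pos hp, sub_self, norm_zero]
      positivity
    · rw [if_neg hp, sub_zero]
      rcases Nat.eq_zero_or_pos n with rfl | hn
      · rw [hf]
        simp only
        rw [mc_zero, zero_mul, norm_zero]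
        positivity
      · have hnN : N < n := by
          rw [Finset.mem_Icc, not_and_or] at hp
          omega
        have hn0 : (0 : ℝ) < n := by exact_mod_cast hn
        have hnN' : (N : ℝ) ≤ n := by exact_mod_cast hnN.le
        rw [hf]
        simp only
        rw [norm_mul, Complex.norm_exp, re_ofReal_mul, hz, mul_comm (Real.log n)]
        have k1 := mc_le hn (-1)
        have k2 : (n : ℝ) ^ (-1 - 1 / 2 : ℝ) =
            (n : ℝ) ^ (-(1 / 4) : ℝ) * (n : ℝ) ^ (-(5 / 4) : ℝ) := by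
          rw [← Real.rpow_add hn0]
          norm_num
        rw [k2] at k1
        refine k1.trans (mul_le_mul_of_nonneg_right ?_ (by positivity))
        exact Real.rpow_le_rpow_of_nonpos hN0 hnN' (by norm_num)
  have h7 := HasSum.norm_le_of_bounded h4 h5 h6
  refine h7.trans ?_
  have : 0 ≤ (N : ℝ) ^ (-(1 / 4) : ℝ) := by positivity
  nlinarith

lemma mc_one : mc 1 = 1 := by
  unfold mc mob
  simp

/-- **the main term on the right** -/
theorem right_mu {b Y t : ℝ} (hb : 1 ≤ b) (hY : b ≤ Y) :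
    (2 * b * Real.exp (-2) - 2 * ed b Y) - S0 * ta b Y (Real.log 2) ≤
      ‖VW (fun z => (riemannZeta (1 / 2 + z))⁻¹) b⁻¹ Y t 1‖ := by
  have h := right_eq (ι := ℕ) (c := mc) (ν := fun n => Real.log n) (lam := 0) (t := t)
    (κ := Real.log 2) {1} mc_summable (le_refl S0) hb hY (Real.log_nonneg (by norm_num))
    (by
      intro p hp
      rw [Finset.mem_singleton] at hp
      rw [hp, Nat.cast_one, Real.log_one])
    (by
      intro p hp hc
      rw [Finset.mem_singleton] at hp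
      rcases Nat.eq_zero_or_pos p with rfl | hp0
      · exact absurd mc_zero hc
      · have h2 : (2 : ℝ) ≤ p := by
          have : 2 ≤ p := by omega
          exact_mod_cast this
        rw [zero_sub, abs_neg]
        exact (Real.log_le_log (by norm_num) h2).trans (le_abs_self _))
    (fun z => (riemannZeta (1 / 2 + z))⁻¹)
    (by
      intro v _ _
      have h1 := mc_series (z := ⟨1, t + v⟩) (by norm_num)
      rw [← h1.tsum_eq]
      apply tsum_congr
      intro n
      congr 2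
      push_cast
      ring)
  rw [Finset.sum_singleton, mc_one, norm_one, one_mul, Real.exp_zero, one_mul] at h
  exact h

end Pool.Agent.T9h53.AH
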