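import Pool.Agent.T9h53.AH.Quo
import Pool.Agent.T9h53.AH.Mu
import Pool.Agent.T9h53.AP.BoxU

/-! # The quotient is not too large in the window -/

set_option autoImplicit false

open Complex Filter Topology Set Metric

namespace Pool.Agent.T9h53.AH

open Pool.Agent.T9h53.SZ Pool.Agent.T9h53.EQ Pool.Agent.T9h53.SG

lemma MM_sub_sum {zs : Finset ℝ} {lam : ℝ → ℝ} {η : ℝ} (h : ∀ y ∈ zs, |lam y - y| ≤ η) {z : ℂ}
    (hre : z.re ≠ 0) :
    ‖MM zs lam z - 1‖ ≤ Real.exp (∑ y ∈ zs, η / ‖z - (⟨0, lam y⟩ : ℂ)‖) - 1 := by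
  have e1 : MM zs lam z = ∏ y ∈ zs, (1 + (((⟨0, lam y⟩ : ℂ) - ⟨0, y⟩) / (z - (⟨0, lam y⟩ : ℂ)))) := by
    unfold MM
    apply Finset.prod_congr rfl
    intro y _
    have h1 : z - (⟨0, lam y⟩ : ℂ) ≠ 0 := by
      rw [sub_ne_zero]
      intro h3
      apply hre
      rw [h3]
    field_simp
    ring
  rw [e1]
  refine (Finset.norm_prod_one_add_sub_one_le _ _).trans ?_
  have h2 : ∑ y ∈ zs, ‖((⟨0, lam y⟩ : ℂ) - ⟨0, y⟩) / (z - (⟨0, lam y⟩ : ℂ))‖ ≤
      ∑ y ∈ zs, η / ‖z - (⟨0, lam y⟩ : ℂ)‖ := by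
    apply Finset.sum_le_sum
    intro y hy
    rw [norm_div]
    have h3 : ‖(⟨0, lam y⟩ : ℂ) - ⟨0, y⟩‖ ≤ η := by
      have : (⟨0, lam y⟩ : ℂ) - ⟨0, y⟩ = ((lam y - y : ℝ) : ℂ) * I := by
        apply Complex.ext <;> simp
      rw [this, norm_mul, norm_I, mul_one, Complex.norm_real]
      exact h y hy
    exact div_le_div_of_nonneg_right h3 (norm_nonneg _)
  have := Real.exp_le_exp.mpr h2
  linarith

lemma MM_sub_one {zs : Finset ℝ} {lam : ℝ → ℝ} {η : ℝ} (h : ∀ y ∈ zs, |lam y - y| ≤ η) {z : ℂ}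
    (hre : z.re ≠ 0) :
    ‖MM zs lam z - 1‖ ≤ Real.exp (zs.card * (η / |z.re|)) - 1 := by
  have hpos : 0 < |z.re| := abs_pos.mpr hre
  refine (MM_sub_sum h hre).trans ?_
  have h2 : ∑ y ∈ zs, η / ‖z - (⟨0, lam y⟩ : ℂ)‖ ≤ zs.card • (η / |z.re|) := by
    refine Finset.sum_le_card_nsmul _ _ _ fun y hy => ?_
    have h4 : |z.re| ≤ ‖z - (⟨0, lam y⟩ : ℂ)‖ := by
      have := Complex.abs_re_le_norm (z - (⟨0, lam y⟩ : ℂ))
      simpa using this
    have hη : 0 ≤ η := (abs_nonneg _).trans (h y hy)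
    exact div_le_div_of_nonneg_left hη hpos h4
  rw [nsmul_eq_mul] at h2
  have := Real.exp_le_exp.mpr h2
  linarith

theorem box_L (β : ℝ) : ∃ T₀ : ℝ, 3 ≤ T₀ ∧ ∀ T : ℝ, T₀ ≤ T → ∀ (W η t : ℝ) (zs : Finset ℝ)
    (lam : ℝ → ℝ) (u : ℂ), LatD β W η t zs lam u → η ≤ 1 → 0 ≤ W → T ≤ t - W → t + W ≤ 3 * T →
    (zs.card : ℝ) * Real.log (2 * W + 10) ≤ Real.log T ^ 2 → ∀ D : ℂ → ℂ,
    (∀ z : ℂ, |z.im - t| < W → AnalyticAt ℂ D z) →
    (∀ z : ℂ, |z.im - t| < W → (1 - u * Xi β z) * (∏ y ∈ zs, (z - (⟨0, y⟩ : ℂ))) =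
        D z * (riemannZeta (1 / 2 + z) * ∏ y ∈ zs, (z - (⟨0, lam y⟩ : ℂ)))) →
    ∀ x τ : ℝ, 0 ≤ x → x ≤ 1 → |τ - t| + 2 ≤ W → ‖D ⟨x, τ⟩‖ ≤ Real.exp (Real.log T ^ 4) := by
  obtain ⟨C1, A1, y1, hC1, hA1, hy1, hg1⟩ :=
    growth_left zHU.hR (fun _ : Unit => 0) zHU.he zHU.hw zHU.fe zHU.gr 1 (by norm_num)
  obtain ⟨C3, hC3, hXi⟩ := Xi_size β
  have hS0 := S0_nonneg
  set K : ℝ := |Real.log ((C1 + 1) * (S0 + 1))| + A1 * (Real.log 3 + 1) + 1 with hK
  have hl3 : 0 < Real.log 3 := Real.log_pos (by norm_num)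
  have hK0 : 0 < K := by positivity
  have hsm := QQ_small 9 (1 + 4 * C3 + 8 * Real.log 3 + Real.log (S0 + 1)) K hK0
  have hsq : Tendsto (fun T : ℝ => Real.log T ^ 2) atTop atTop :=
    (tendsto_pow_atTop (two_ne_zero)).comp Real.tendsto_log_atTop
  obtain ⟨T1, hT1⟩ := eventually_atTop.mp (hsq.eventually hsm)
  refine ⟨max T1 (10 + y1), le_trans (by linarith) (le_max_right _ _), ?_⟩
  intro T hT W η t zs lam u hL hη hW ht1 ht2 hcard D hD hDe x τ hx0 hx1 hτ
  have hT10 : 10 + y1 ≤ T := (le_max_right _ _).trans hT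
  have hfin := hT1 T ((le_max_left _ _).trans hT)
  have hT0 : 0 < T := by linarith
  have hlogT : 1 ≤ Real.log T := by
    rw [Real.le_log_iff_exp_le hT0]
    have := Real.exp_one_lt_three
    linarith
  obtain ⟨hτ1, hτ2⟩ := abs_le.mp (show |τ - t| ≤ W - 2 by linarith)
  set ctr : ℂ := ⟨3 / 2, τ⟩ with hctr
  set R₀ : ℝ := 2 * W + 10 with hR₀
  have hR₀1 : 1 ≤ R₀ := by linarith
  set P := zs.card with hP
  set f : ℂ → ℂ := fun w => riemannZeta (1 / 2 + w) * ∏ y ∈ zs, (w - (⟨0, lam y⟩ : ℂ)) with hf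
  have hball : ∀ w ∈ closedBall ctr 1.9, |w.re - 3 / 2| ≤ 1.9 ∧ |w.im - τ| ≤ 1.9 := by
    intro w hw
    rw [mem_closedBall, dist_eq_norm] at hw
    have h1 := abs_re_le_norm (w - ctr)
    have h2 := abs_im_le_norm (w - ctr)
    rw [sub_re] at h1
    rw [sub_im] at h2
    exact ⟨h1.trans hw, h2.trans hw⟩
  have hballU : ∀ w ∈ closedBall ctr 1.9, |w.im - t| < W ∧ T ≤ w.im ∧ w.im ≤ 3 * T ∧
      |w.re| ≤ 4 := by
    intro w hw
    obtain ⟨h1, h2⟩ := hball w hw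
    obtain ⟨h3, h4⟩ := abs_le.mp h1
    obtain ⟨h5, h6⟩ := abs_le.mp h2
    norm_num at h3 h4 h5 h6
    refine ⟨abs_lt.mpr ⟨by linarith, by linarith⟩, by linarith, by linarith, ?_⟩
    exact abs_le.mpr ⟨by linarith, by linarith⟩
  have hfan : AnalyticOnNhd ℂ f (closedBall ctr 1.9) := by
    intro w hw
    obtain ⟨h1, h2, h3, h4⟩ := hballU w hw
    exact (zeta_an (by linarith)).mul (prod_an zs lam w)
  -- the norms of the products
  have hprod : ∀ g : ℝ → ℝ, (∀ y ∈ zs, |g y - y| ≤ 1) → ∀ w ∈ closedBall ctr 1.9,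
      ‖∏ y ∈ zs, (w - (⟨0, g y⟩ : ℂ))‖ ≤ R₀ ^ P := by
    intro g hg w hw
    obtain ⟨h1, h2, h3, h4⟩ := hballU w hw
    rw [norm_prod, hP, ← Finset.prod_const]
    apply Finset.prod_le_prod (fun _ _ => norm_nonneg _)
    intro y hy
    refine (Complex.norm_le_abs_re_add_abs_im _).trans ?_
    have h5 : (w - (⟨0, g y⟩ : ℂ)).re = w.re := by simp
    have h6 : (w - (⟨0, g y⟩ : ℂ)).im = (w.im - t) - (y - t) - (g y - y) := by
      simp
    rw [h5, h6, hR₀]
    have h7 := hL.win y hy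
    have h8 := hg y hy
    have h9 : |(w.im - t) - (y - t) - (g y - y)| ≤ |w.im - t| + |y - t| + |g y - y| :=
      (abs_sub _ _).trans (add_le_add (abs_sub _ _) le_rfl)
    linarith
  have hnear1 : ∀ y ∈ zs, |lam y - y| ≤ 1 := fun y hy => (hL.near y hy).trans hη
  set M : ℝ := (C1 + 1) * (3 * T) ^ A1 * R₀ ^ P with hM
  have hpow1 : 1 ≤ (3 * T) ^ A1 := Real.one_le_rpow (by linarith) hA1.le
  have hpow2 : 1 ≤ R₀ ^ P := one_le_pow₀ hR₀1
  have hM1 : 1 ≤ M := by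
    rw [hM]
    calc (1 : ℝ) = 1 * 1 * 1 := by norm_num
      _ ≤ (C1 + 1) * (3 * T) ^ A1 * R₀ ^ P := by
        gcongr
        linarith
  have hb : ∀ w ∈ closedBall ctr 1.9, ‖f w‖ ≤ M := by
    intro w hw
    obtain ⟨h1, h2, h3, h4⟩ := hballU w hw
    have h5 := (abs_le.mp (hball w hw).1).1
    norm_num at h5
    have h7 := hg1 (1 / 2 + w) (by simp; linarith) (by simp; linarith)
    have him : (1 / 2 + w).im = w.im := by simp
    rw [him] at h7
    have h8 : w.im ^ A1 ≤ (3 * T) ^ A1 := Real.rpow_le_rpow (by linarith) h3 hA1.le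
    have h80 : 0 ≤ w.im ^ A1 := Real.rpow_nonneg (by linarith) _
    rw [hf]
    simp only
    rw [norm_mul]
    calc ‖riemannZeta (1 / 2 + w)‖ * ‖∏ y ∈ zs, (w - (⟨0, lam y⟩ : ℂ))‖ ≤
        (C1 * w.im ^ A1) * R₀ ^ P := mul_le_mul h7 (hprod lam hnear1 w hw) (norm_nonneg _)
          ((norm_nonneg _).trans h7)
      _ ≤ (C1 + 1) * (3 * T) ^ A1 * R₀ ^ P := by
        apply mul_le_mul_of_nonneg_right _ (by positivity)
        exact mul_le_mul (by linarith) h8 h80 (by linarith)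
  have hctrmem : ctr ∈ closedBall ctr 1.9 := mem_closedBall_self (by norm_num)
  have hcl : (S0 + 1)⁻¹ ≤ ‖f ctr‖ := by
    have h1 := inv_zeta_le (z := ctr) (by rw [hctr]; norm_num)
    rw [norm_inv] at h1
    have h2 : (S0 + 1)⁻¹ ≤ ‖riemannZeta (1 / 2 + ctr)‖ := by
      have h3 : riemannZeta (1 / 2 + ctr) ≠ 0 := by
        apply riemannZeta_ne_zero_of_one_lt_re
        rw [hctr]
        norm_num
      have h4 : 0 < ‖riemannZeta (1 / 2 + ctr)‖ := norm_pos_iff.mpr h3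
      rw [inv_le_comm₀ (by linarith) h4]
      linarith
    have h3 : 1 ≤ ‖∏ y ∈ zs, (ctr - (⟨0, lam y⟩ : ℂ))‖ := by
      rw [norm_prod]
      have h4 : ∏ _y ∈ zs, (1 : ℝ) = 1 := Finset.prod_const_one
      rw [← h4]
      apply Finset.prod_le_prod (fun _ _ => zero_le_one)
      intro y _
      have := Complex.abs_re_le_norm (ctr - (⟨0, lam y⟩ : ℂ))
      have e1 : (ctr - (⟨0, lam y⟩ : ℂ)).re = 3 / 2 := by
        rw [hctr]
        simp
      rw [e1, abs_of_pos (by norm_num)] at this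
      linarith
    rw [hf]
    simp only
    rw [norm_mul]
    calc (S0 + 1)⁻¹ = (S0 + 1)⁻¹ * 1 := (mul_one _).symm
      _ ≤ _ := mul_le_mul h2 h3 zero_le_one (norm_nonneg _)
  have hS1 : 0 < (S0 + 1)⁻¹ := inv_pos.mpr (by linarith)
  have hfc0 : 0 < ‖f ctr‖ := lt_of_lt_of_le hS1 hcl
  obtain ⟨r, hr1, hr2, hr⟩ := circle_lower (f := f) (c := ctr) hM1 hfan
    (norm_pos_iff.mp hfc0) (hb _ hctrmem) hb
  have hlogR : Real.log (R₀ ^ P) ≤ Real.log T ^ 2 := by
    rw [Real.log_pow]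
    exact hcard
  have hsq1 : Real.log T ≤ Real.log T ^ 2 := by nlinarith
  have hsq0 : 1 ≤ Real.log T ^ 2 := by nlinarith
  have hLle : Real.log (M / ‖f ctr‖) ≤ K * Real.log T ^ 2 := by
    have h1 : Real.log (M / ‖f ctr‖) ≤ Real.log (((C1 + 1) * (S0 + 1)) * (3 * T) ^ A1 * R₀ ^ P) := by
      apply Real.log_le_log (by positivity)
      calc M / ‖f ctr‖ ≤ M / (S0 + 1)⁻¹ := by gcongr
        _ = _ := by
          rw [hM, div_inv_eq_mul]
          ring
    rw [Real.log_mul (by positivity) (by positivity), Real.log_mul (by positivity)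
      (by positivity), Real.log_rpow (by positivity), Real.log_mul (by norm_num) hT0.ne'] at h1
    have h2 := le_abs_self (Real.log ((C1 + 1) * (S0 + 1)))
    have h3 := abs_nonneg (Real.log ((C1 + 1) * (S0 + 1)))
    have h4 : A1 * (Real.log 3 + Real.log T) ≤ A1 * (Real.log 3 + 1) * Real.log T ^ 2 := by
      rw [mul_assoc]
      apply mul_le_mul_of_nonneg_left _ hA1.le
      nlinarith
    rw [hK]
    nlinarith
  have hL0 : 0 ≤ Real.log (M / ‖f ctr‖) := by
    apply Real.log_nonneg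
    rw [le_div_iff₀ hfc0, one_mul]
    exact hb _ hctrmem
  have hr0 : 0 < r := by linarith
  set BB : ℝ := Real.exp (9 * Real.log T ^ 2 + (1 + 4 * C3 + 8 * Real.log 3 + Real.log (S0 + 1)) +
    QQ (K * Real.log T ^ 2)) with hBB
  have hsph : ∀ w ∈ sphere ctr r, ‖D w‖ ≤ BB := by
    intro w hw
    have hwball : w ∈ closedBall ctr 1.9 := by
      rw [mem_closedBall]
      rw [mem_sphere] at hw
      rw [hw]
      exact hr2.trans (by norm_num)
    obtain ⟨hu1, hu2, hu3, hu4⟩ := hballU w hwball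
    have h1 := hr w hw
    have h2 := hDe w hu1
    have h5 : QQ (Real.log (M / ‖f ctr‖)) ≤ QQ (K * Real.log T ^ 2) := QQ_mono hL0 hLle
    have h6 : (S0 + 1)⁻¹ * Real.exp (-QQ (K * Real.log T ^ 2)) ≤ ‖f w‖ := by
      refine le_trans ?_ h1
      apply mul_le_mul hcl _ (Real.exp_pos _).le (norm_nonneg _)
      apply Real.exp_le_exp.mpr
      linarith
    have hXn : ‖Xi β w‖ ≤ Real.exp (4 * C3 + 8 * (Real.log 3 + Real.log T)) := by
      have k1 := (abs_le.mp (hXi w.re w.im (by linarith) (by linarith))).2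
      have hpos : 0 < ‖Xi β w‖ := norm_pos_iff.mpr (Xi_ne _ _)
      rw [← Real.exp_log hpos]
      apply Real.exp_le_exp.mpr
      have e1 : (⟨w.re, w.im⟩ : ℂ) = w := rfl
      rw [e1] at k1
      have k2 : Real.log w.im ≤ Real.log 3 + Real.log T := by
        rw [← Real.log_mul (by norm_num) hT0.ne']
        exact Real.log_le_log (by linarith) hu3
      have k3 : 0 ≤ Real.log w.im := Real.log_nonneg (by linarith)
      have k4 : -(2 * w.re * Real.log w.im) ≤ 8 * Real.log w.im := by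
        have := (abs_le.mp hu4).1
        nlinarith
      have k5 : C3 * |w.re| ≤ 4 * C3 := by nlinarith
      linarith
    have h7 : ‖(1 - u * Xi β w) * ∏ y ∈ zs, (w - (⟨0, y⟩ : ℂ))‖ ≤
        Real.exp (1 + 4 * C3 + 8 * (Real.log 3 + Real.log T)) * R₀ ^ P := by
      rw [norm_mul]
      apply mul_le_mul _ (hprod id (by simp) w hwball) (norm_nonneg _) (Real.exp_pos _).le
      calc ‖1 - u * Xi β w‖ ≤ ‖(1 : ℂ)‖ + ‖u * Xi β w‖ := norm_sub_le _ _
        _ = 1 + ‖Xi β w‖ := by rw [norm_one, norm_mul, hL.hu, one_mul]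
        _ ≤ 1 + Real.exp (4 * C3 + 8 * (Real.log 3 + Real.log T)) := by linarith
        _ ≤ Real.exp (4 * C3 + 8 * (Real.log 3 + Real.log T)) +
            Real.exp (4 * C3 + 8 * (Real.log 3 + Real.log T)) := by
          have : 1 ≤ Real.exp (4 * C3 + 8 * (Real.log 3 + Real.log T)) :=
            Real.one_le_exp (by positivity)
          linarith
        _ = 2 * Real.exp (4 * C3 + 8 * (Real.log 3 + Real.log T)) := by ring
        _ ≤ Real.exp 1 * Real.exp (4 * C3 + 8 * (Real.log 3 + Real.log T)) := by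
          have := Real.add_one_le_exp (1 : ℝ)
          gcongr
          linarith
        _ = _ := by
          rw [← Real.exp_add]
          congr 1
          ring
    have h8 : ‖D w‖ * ((S0 + 1)⁻¹ * Real.exp (-QQ (K * Real.log T ^ 2))) ≤
        Real.exp (1 + 4 * C3 + 8 * (Real.log 3 + Real.log T)) * R₀ ^ P := by
      refine (mul_le_mul_of_nonneg_left h6 (norm_nonneg _)).trans ?_
      rw [← norm_mul, hf]
      simp only
      rw [← h2]
      exact h7
    have hRe : R₀ ^ P ≤ Real.exp (Real.log T ^ 2) := by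
      rw [← Real.exp_log (show 0 < R₀ ^ P by positivity)]
      exact Real.exp_le_exp.mpr hlogR
    rw [Real.exp_neg] at h8
    have h9 := Real.exp_pos (QQ (K * Real.log T ^ 2))
    have h10 : ‖D w‖ = ‖D w‖ * ((S0 + 1)⁻¹ * (Real.exp (QQ (K * Real.log T ^ 2)))⁻¹) *
        (Real.exp (QQ (K * Real.log T ^ 2)) * (S0 + 1)) := by
      have : S0 + 1 ≠ 0 := by linarith
      field_simp
    rw [h10]
    calc _ ≤ (Real.exp (1 + 4 * C3 + 8 * (Real.log 3 + Real.log T)) * R₀ ^ P) *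
          (Real.exp (QQ (K * Real.log T ^ 2)) * (S0 + 1)) := by gcongr
      _ ≤ (Real.exp (1 + 4 * C3 + 8 * (Real.log 3 + Real.log T)) * Real.exp (Real.log T ^ 2)) *
          (Real.exp (QQ (K * Real.log T ^ 2)) * Real.exp (Real.log (S0 + 1))) := by
        rw [Real.exp_log (by linarith)]
        gcongr
      _ ≤ BB := by
        rw [hBB, ← Real.exp_add, ← Real.exp_add, ← Real.exp_add]
        apply Real.exp_le_exp.mpr
        linarith
  have hz : ‖D ⟨x, τ⟩‖ ≤ BB := by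
    refine Complex.norm_le_of_forall_mem_frontier_norm_le (U := ball ctr r) isBounded_ball ?_ ?_ ?_
    · apply DifferentiableOn.diffContOnCl
      rw [closure_ball ctr hr0.ne']
      intro w hw
      have hw2 : w ∈ closedBall ctr 1.9 :=
        closedBall_subset_closedBall (hr2.trans (by norm_num)) hw
      exact (hD w (hballU w hw2).1).differentiableAt.differentiableWithinAt
    · intro w hw
      rw [frontier_ball ctr hr0.ne'] at hw
      exact hsph w hw
    · rw [closure_ball ctr hr0.ne', mem_closedBall, dist_eq_norm]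
      have e1 : (⟨x, τ⟩ : ℂ) - ctr = ((x - 3 / 2 : ℝ) : ℂ) := by
        rw [hctr]
        apply Complex.ext <;> simp
      rw [e1, Complex.norm_real, Real.norm_eq_abs]
      refine le_trans ?_ hr1
      rw [abs_le]
      norm_num
      constructor <;> linarith
  refine hz.trans ?_
  rw [hBB]
  apply Real.exp_le_exp.mpr
  refine hfin.trans (le_of_eq ?_)
  ring

end Pool.Agent.T9h53.AH
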