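import Pool.Agent.T9h53.EQ.Term

/-! # Parameters of the window -/

set_option autoImplicit false

open Complex Filter Topology Set

namespace Pool.Agent.T9h53.AH

open Pool.Agent.T9h53.SZ Pool.Agent.T9h53.EQ

lemma cosh_log {x : ℝ} (hx : 0 < x) : x ^ 5 / 2 ≤ Real.cosh (5 * Real.log x) := by
  rw [Real.cosh_eq]
  have h1 : Real.exp (5 * Real.log x) = x ^ 5 := by
    rw [show (5 : ℝ) * Real.log x = ((5 : ℕ) : ℝ) * Real.log x by norm_num, Real.exp_nat_mul,
      Real.exp_log hx]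
  rw [h1]
  have := Real.exp_pos (-(5 * Real.log x))
  linarith

lemma ed_small {b x : ℝ} (hb : 0 < b) (hx : 0 < x) :
    ed b (5 * b * Real.log x) ≤ Real.exp (-(x ^ 5 / 4)) := by
  unfold ed
  apply Real.exp_le_exp.mpr
  have h1 : b⁻¹ * (5 * b * Real.log x) = 5 * Real.log x := by
    field_simp
  rw [h1]
  have := cosh_log hx
  linarith

lemma poly_ev (c : ℝ) : ∀ᶠ x : ℝ in atTop, (x + 1) ^ 4 + 3 * x + c ≤ x ^ 5 / 4 := by
  filter_upwards [eventually_ge_atTop (100 + |c|)] with x hx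
  have hc := le_abs_self c
  have hc0 := abs_nonneg c
  have h1 : (x + 1) ^ 4 ≤ 16 * x ^ 4 := by
    have : x + 1 ≤ 2 * x := by linarith
    calc (x + 1) ^ 4 ≤ (2 * x) ^ 4 := pow_le_pow_left₀ (by linarith) this 4
      _ = _ := by ring
  have h2 : x ≤ x ^ 4 := by
    have h3 : (1 : ℝ) ≤ x ^ 3 := one_le_pow₀ (by linarith)
    calc x = x * 1 := (mul_one x).symm
      _ ≤ x * x ^ 3 := mul_le_mul_of_nonneg_left h3 (by linarith)
      _ = x ^ 4 := by ring
  have h4 : 100 * x ^ 4 ≤ x ^ 5 := by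
    calc 100 * x ^ 4 ≤ x * x ^ 4 := mul_le_mul_of_nonneg_right (by linarith) (by positivity)
      _ = x ^ 5 := by ring
  have h5 : c ≤ x ^ 4 := by linarith
  linarith

lemma ev_ed {b : ℝ} (hb : 0 < b) (c : ℝ) (hc : 0 < c) :
    ∀ᶠ T : ℝ in atTop, c * T ^ 3 * Real.exp (Real.log (2 * T) ^ 4) *
      ed b (5 * b * Real.log (Real.log T)) ≤ 1 := by
  have h1 := Real.tendsto_log_atTop.eventually (poly_ev (Real.log c))
  filter_upwards [h1, Real.tendsto_log_atTop.eventually_ge_atTop 1, eventually_gt_atTop 0]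
    with T hT hT1 hT0
  have hl2 : Real.log (2 * T) = Real.log 2 + Real.log T := Real.log_mul (by norm_num) hT0.ne'
  have hlog2 := Real.log_two_lt_d9
  have hlog20 : 0 < Real.log 2 := Real.log_pos (by norm_num)
  have e1 := ed_small hb (x := Real.log T) (by linarith)
  have e2 : c * T ^ 3 = Real.exp (Real.log c + 3 * Real.log T) := by
    rw [Real.exp_add, Real.exp_log hc, show (3 : ℝ) * Real.log T = ((3 : ℕ) : ℝ) * Real.log T by
      norm_num, Real.exp_nat_mul, Real.exp_log hT0]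
  rw [e2, ← Real.exp_add]
  calc _ ≤ Real.exp (Real.log c + 3 * Real.log T + Real.log (2 * T) ^ 4) *
        Real.exp (-(Real.log T ^ 5 / 4)) := mul_le_mul_of_nonneg_left e1 (Real.exp_pos _).le
    _ = Real.exp (Real.log c + 3 * Real.log T + Real.log (2 * T) ^ 4 - Real.log T ^ 5 / 4) := by
      rw [← Real.exp_add]
      congr 1
    _ ≤ 1 := by
      rw [Real.exp_le_one_iff]
      have h3 : Real.log (2 * T) ^ 4 ≤ (Real.log T + 1) ^ 4 := by
        apply pow_le_pow_left₀ (by rw [hl2]; linarith)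
        rw [hl2]
        linarith
      linarith

theorem ev_params {b R CG CX Ct CH S y₀ : ℝ} (hb : 1 ≤ b) (hR : 1 ≤ R) (hCG : 0 < CG)
    (hCX : 0 < CX) (hCt : 0 < Ct) (hCH : 0 < CH) (hS : 0 ≤ S) :
    ∃ T₀ : ℝ, 10 ≤ T₀ ∧ ∀ T : ℝ, T₀ ≤ T → 4 ≤ Real.log T ∧ b ≤ 5 * b * Real.log (Real.log T) ∧
      5 * b * Real.log (Real.log T) + 3 ≤ T / 4 ∧ y₀ ≤ T / 2 ∧
      CH * (3 * T * (T ^ 3)⁻¹) ≤ 1 ∧ 6 * S * (4 / √(Real.log T) + CX / T ^ 2) ≤ 1 / 100 ∧
      36 * CG * (CX * S + Ct) / T ≤ 1 / 100 ∧ 60 * CH * √(6 * R) / √T ≤ 1 / 100 ∧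
      ((2 + 4 * b * S) + 4 * ((1 + 3 * CG * T) * Real.exp (Real.log (2 * T) ^ 4)) +
        36 * CG * T * √(6 * R * T)) * ed b (5 * b * Real.log (Real.log T)) ≤ 1 / 100 := by
  have hb0 : 0 < b := by linarith
  have hR0 : 0 < R := by linarith
  have hll : Tendsto (fun t : ℝ => Real.log (Real.log t)) atTop atTop :=
    Real.tendsto_log_atTop.comp Real.tendsto_log_atTop
  have ev2 : ∀ᶠ t : ℝ in atTop, 5 * b * Real.log (Real.log t) + 3 ≤ t / 4 := by
    have h1 : ∀ᶠ t : ℝ in atTop, Real.log t ≤ t / (5 * b) / 8 := by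
      have := (Real.isLittleO_log_id_atTop).bound
        (show (0 : ℝ) < 1 / (5 * b) / 8 by positivity)
      filter_upwards [this, eventually_ge_atTop 1] with t h1 h2
      rw [Real.norm_eq_abs, Real.norm_eq_abs, id_eq, abs_of_nonneg (Real.log_nonneg h2),
        abs_of_pos (by linarith : (0 : ℝ) < t)] at h1
      calc Real.log t ≤ 1 / (5 * b) / 8 * t := h1
        _ = _ := by ring
    filter_upwards [h1, eventually_ge_atTop 24, Real.tendsto_log_atTop.eventually_ge_atTop 1]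
      with t h2 h3 h5
    have h6 : Real.log (Real.log t) ≤ Real.log t := by
      have := Real.log_le_sub_one_of_pos (show 0 < Real.log t by linarith)
      linarith
    have h7 : (5 * b) * Real.log t ≤ t / 8 := by
      calc (5 * b) * Real.log t ≤ (5 * b) * (t / (5 * b) / 8) := by gcongr
        _ = t / 8 := by field_simp
    nlinarith
  have tinv : Tendsto (fun T : ℝ => T⁻¹) atTop (𝓝 0) := tendsto_inv_atTop_zero
  have tinv2 : Tendsto (fun T : ℝ => (√(Real.log T))⁻¹) atTop (𝓝 0) :=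
    tendsto_inv_atTop_zero.comp (Real.tendsto_sqrt_atTop.comp Real.tendsto_log_atTop)
  have tinvs : Tendsto (fun T : ℝ => (√T)⁻¹) atTop (𝓝 0) :=
    tendsto_inv_atTop_zero.comp Real.tendsto_sqrt_atTop
  have ev3 : ∀ᶠ T : ℝ in atTop, CH * (3 * T * (T ^ 3)⁻¹) ≤ 1 := by
    have h1 : Tendsto (fun T : ℝ => 3 * CH * (T⁻¹ * T⁻¹)) atTop (𝓝 (3 * CH * (0 * 0))) :=
      (tinv.mul tinv).const_mul _
    rw [mul_zero, mul_zero] at h1
    filter_upwards [h1.eventually_le_const (show (0 : ℝ) < 1 by norm_num), eventually_gt_atTop 0]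
      with T hT hT0
    refine le_trans (le_of_eq ?_) hT
    field_simp
  have ev4 : ∀ᶠ T : ℝ in atTop, 6 * S * (4 / √(Real.log T) + CX / T ^ 2) ≤ 1 / 100 := by
    have h1 : Tendsto (fun T : ℝ => 6 * S * (4 * (√(Real.log T))⁻¹ + CX * (T⁻¹ * T⁻¹))) atTop
        (𝓝 (6 * S * (4 * 0 + CX * (0 * 0)))) :=
      ((tinv2.const_mul 4).add ((tinv.mul tinv).const_mul CX)).const_mul _
    simp only [mul_zero, add_zero] at h1
    filter_upwards [h1.eventually_le_const (show (0 : ℝ) < 1 / 100 by norm_num)] with T hT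
    refine le_trans (le_of_eq ?_) hT
    rw [div_eq_mul_inv, div_eq_mul_inv, sq, mul_inv]
  have ev5 : ∀ᶠ T : ℝ in atTop, 36 * CG * (CX * S + Ct) / T ≤ 1 / 100 := by
    have h1 : Tendsto (fun T : ℝ => 36 * CG * (CX * S + Ct) * T⁻¹) atTop
        (𝓝 (36 * CG * (CX * S + Ct) * 0)) := tinv.const_mul _
    rw [mul_zero] at h1
    filter_upwards [h1.eventually_le_const (show (0 : ℝ) < 1 / 100 by norm_num)] with T hT
    rwa [div_eq_mul_inv]
  have ev6 : ∀ᶠ T : ℝ in atTop, 60 * CH * √(6 * R) / √T ≤ 1 / 100 := by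
    have h1 : Tendsto (fun T : ℝ => 60 * CH * √(6 * R) * (√T)⁻¹) atTop
        (𝓝 (60 * CH * √(6 * R) * 0)) := tinvs.const_mul _
    rw [mul_zero] at h1
    filter_upwards [h1.eventually_le_const (show (0 : ℝ) < 1 / 100 by norm_num)] with T hT
    rwa [div_eq_mul_inv]
  set c : ℝ := 100 * (2 + 4 * b * S + 4 * (1 + 3 * CG) + 36 * CG * (6 * R)) with hc
  have hc0 : 0 < c := by positivity
  have ev7 := ev_ed hb0 c hc0
  obtain ⟨T₀, hT₀⟩ := eventually_atTop.mp
    ((Real.tendsto_log_atTop.eventually_ge_atTop 4).and ((hll.eventually_ge_atTop 1).and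
      (ev2.and ((eventually_ge_atTop (2 * y₀)).and (ev3.and (ev4.and (ev5.and (ev6.and
        (ev7.and (eventually_ge_atTop 10))))))))))
  refine ⟨max T₀ 10, le_max_right _ _, fun T hT => ?_⟩
  obtain ⟨k1, k2, k3, k4, k5, k6, k7, k8, k9, k10⟩ := hT₀ T ((le_max_left _ _).trans hT)
  refine ⟨k1, by nlinarith, k3, by linarith, k5, k6, k7, k8, ?_⟩
  have hE : 1 ≤ Real.exp (Real.log (2 * T) ^ 4) := Real.one_le_exp (by positivity)
  have hed := ed_pos b (5 * b * Real.log (Real.log T))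
  have hT1 : 1 ≤ T := by linarith
  have hT3 : 1 ≤ T ^ 3 := one_le_pow₀ hT1
  have hT13 : T ≤ T ^ 3 := by
    calc T = T ^ 1 := (pow_one T).symm
      _ ≤ T ^ 3 := pow_le_pow_right₀ hT1 (by norm_num)
  have hTE : T ^ 3 ≤ T ^ 3 * Real.exp (Real.log (2 * T) ^ 4) := le_mul_of_one_le_right (by positivity) hE
  have hs : √(6 * R * T) ≤ 6 * R * T := by
    have h1 : 1 ≤ 6 * R * T := by nlinarith
    calc √(6 * R * T) ≤ √((6 * R * T) ^ 2) := by
          apply Real.sqrt_le_sqrt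
          nlinarith
      _ = 6 * R * T := Real.sqrt_sq (by positivity)
  have hT23 : T * T ≤ T ^ 3 := by
    calc T * T = T ^ 2 := by ring
      _ ≤ T ^ 3 := pow_le_pow_right₀ hT1 (by norm_num)
  have hbig : (2 + 4 * b * S) + 4 * ((1 + 3 * CG * T) * Real.exp (Real.log (2 * T) ^ 4)) +
        36 * CG * T * √(6 * R * T) ≤ c / 100 * (T ^ 3 * Real.exp (Real.log (2 * T) ^ 4)) := by
    set EE := Real.exp (Real.log (2 * T) ^ 4) with hEE
    have h1 : 2 + 4 * b * S ≤ (2 + 4 * b * S) * (T ^ 3 * EE) :=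
      le_mul_of_one_le_right (by positivity) (hT3.trans hTE)
    have h2 : 4 * ((1 + 3 * CG * T) * EE) ≤ 4 * (1 + 3 * CG) * (T ^ 3 * EE) := by
      have h3 : 1 + 3 * CG * T ≤ (1 + 3 * CG) * T ^ 3 := by nlinarith
      calc 4 * ((1 + 3 * CG * T) * EE) ≤ 4 * (((1 + 3 * CG) * T ^ 3) * EE) := by gcongr
        _ = _ := by ring
    have h4 : 36 * CG * T * √(6 * R * T) ≤ 36 * CG * (6 * R) * (T ^ 3 * EE) := by
      calc 36 * CG * T * √(6 * R * T) ≤ 36 * CG * T * (6 * R * T) := by gcongr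
        _ = 36 * CG * (6 * R) * (T * T) := by ring
        _ ≤ 36 * CG * (6 * R) * (T ^ 3 * EE) := by
          apply mul_le_mul_of_nonneg_left (hT23.trans hTE) (by positivity)
    have h5 : c / 100 * (T ^ 3 * EE) = (2 + 4 * b * S) * (T ^ 3 * EE) +
        4 * (1 + 3 * CG) * (T ^ 3 * EE) + 36 * CG * (6 * R) * (T ^ 3 * EE) := by
      rw [hc]
      ring
    rw [h5]
    linarith
  calc _ ≤ (c / 100 * (T ^ 3 * Real.exp (Real.log (2 * T) ^ 4))) *
        ed b (5 * b * Real.log (Real.log T)) := mul_le_mul_of_nonneg_right hbig hed.le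
    _ = 1 / 100 * (c * T ^ 3 * Real.exp (Real.log (2 * T) ^ 4) *
        ed b (5 * b * Real.log (Real.log T))) := by ring
    _ ≤ 1 / 100 * 1 := by gcongr
    _ = _ := mul_one _

end Pool.Agent.T9h53.AH
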