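import Pool.Agent.T9h53.AH.WinM

/-! # The window inequality -/

set_option autoImplicit false

open Complex Filter Topology Set MeasureTheory

namespace Pool.Agent.T9h53.AH

open Pool.Agent.T9h53.SZ Pool.Agent.T9h53.EQ
open Pool.Agent.TH823.MRS (mob)

lemma exp_two_lt : Real.exp 2 ≤ 7.4 := by
  have h := Real.exp_one_lt_d9
  have h2 : Real.exp 2 = Real.exp 1 ^ 2 := by
    rw [← Real.exp_nat_mul]
    norm_num
  rw [h2]
  have h3 := Real.exp_pos 1
  nlinarith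

lemma exp_neg_two : (0.135 : ℝ) ≤ Real.exp (-2) := by
  rw [Real.exp_neg]
  have h := exp_two_lt
  have h2 := Real.exp_pos 2
  rw [le_inv_comm₀ (by norm_num) h2]
  norm_num at h ⊢
  linarith

lemma exp_sub_one_le {x : ℝ} (h0 : 0 ≤ x) (h1 : x ≤ 1) : Real.exp x - 1 ≤ 2 * x := by
  have h := Real.abs_exp_sub_one_le (x := x) (by rwa [abs_of_nonneg h0])
  rw [abs_of_nonneg h0] at h
  exact (le_abs_self _).trans h

/-- **the window inequality** -/
theorem win_L (β : ℝ) : ∃ K : ℝ, 1 ≤ K ∧ ∀ b : ℝ, 1 ≤ b →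
    S0 * (6 * Real.exp (-((b - 1) * Real.log 2))) ≤ 1 / 20 → ∀ R : ℝ, 1 ≤ R →
    ∃ T₀ : ℝ, 10 ≤ T₀ ∧ ∀ T : ℝ, T₀ ≤ T → ∀ X : ℕ, T ≤ X → (X : ℝ) ≤ 2 * R * T → ∀ ψ : ℕ → ℝ,
    (∀ n, 0 ≤ ψ n ∧ ψ n ≤ 1) → (∀ n, 3 * X < n → ψ n = 0) →
    ∀ t : ℝ, T ≤ t → t ≤ 2 * T → ∀ (η : ℝ) (zs : Finset ℝ) (lam : ℝ → ℝ) (u : ℂ),
    LatD β (5 * b * Real.log (Real.log T) + 3) η t zs lam u → 0 ≤ η → η ≤ 1 →
    zs.card * η ≤ 1 / √(Real.log T) → ∀ E : ℝ, 0 ≤ E → E ≤ 1 →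
    (∀ z : ℂ, z.re ≤ -(1 / Real.log T) → |z.im - t| ≤ 5 * b * Real.log (Real.log T) →
      ∑ y ∈ zs, η / ‖z - (⟨0, lam y⟩ : ℂ)‖ ≤ E) →
    zs.card * Real.log (2 * (5 * b * Real.log (Real.log T) + 3) + 10) ≤ Real.log T ^ 2 / 4 →
    b / 10 ≤ K * T * (∫ v in (-(5 * b * Real.log (Real.log T)))..(5 * b * Real.log (Real.log T)),
        ‖PP (Finset.Icc 1 (X ^ 8)) (fun n => ((1 - ψ n : ℝ) : ℂ) * (mob n : ℂ)) ⟨-1, t + v⟩‖ *
          kk b v) +
      K * E *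
        (∫ v in (-(5 * b * Real.log (Real.log T)))..(5 * b * Real.log (Real.log T)),
        ‖PP (Finset.Icc 1 (3 * X)) (fun n => ((ψ n : ℝ) : ℂ) * (mob n : ℂ))
          ⟨-(1 / Real.log T), t + v⟩‖ * kk b v) +
      K * ‖VW (fun z => HH β (T ^ 3)⁻¹ z.im *
        PP (Finset.Icc 1 (3 * X)) (fun n => ((ψ n : ℝ) : ℂ) * (mob n : ℂ)) z) b⁻¹
          (5 * b * Real.log (Real.log T)) t 0‖ := by
  obtain ⟨CG, yG, hCG, hyG, hGA⟩ := GA_size β
  obtain ⟨CX', hCX', hX⟩ := Xi_one β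
  obtain ⟨Ct, hCt, htail⟩ := mc_tail
  obtain ⟨CH, hCH, hGH⟩ := GA_HH β
  obtain ⟨T1, hT1, hBox⟩ := box_L β
  have hS0 := S0_nonneg
  have hgg := norm_nonneg (gg β)
  set CX : ℝ := 4 * CX' with hCX
  have hCX0 : 0 < CX := by positivity
  refine ⟨16 * CG + ‖gg β‖ + 1, by linarith, fun b hb hb2 R hR => ?_⟩
  obtain ⟨T2, hT2, hev⟩ := ev_params (S := S0) (y₀ := yG + 50) hb hR hCG hCX0 hCt
    (show 0 < CH by linarith) hS0
  have hb0 : 0 < b := by linarith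
  refine ⟨max T2 (2 * T1 + 2 * CX), hT2.trans (le_max_left _ _), ?_⟩
  intro T hT X hX1 hX2 ψ hψ hψ0 t ht1 ht2 η zs lam u hL hη0 hη1 hcη E hE0 hE hsum hcard
  obtain ⟨hℓ4, hbY, hYT, hyT, hδ, ev1, ev2, ev3, ev4⟩ := hev T ((le_max_left _ _).trans hT)
  set ℓ := Real.log T with hℓ
  set Y := 5 * b * Real.log ℓ with hY
  have hTT1 : 2 * T1 + 2 * CX ≤ T := (le_max_right _ _).trans hT
  have hT0 : 0 < T := by linarith
  have hT10 : 10 ≤ T := hT2.trans ((le_max_left _ _).trans hT)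
  have hY0 : 0 ≤ Y := by linarith
  have hℓ0 : 0 < ℓ := by linarith
  have hWt : Y + 3 < t := by linarith
  have hnc : (0 : ℝ) ≤ zs.card := Nat.cast_nonneg _
  have hℓ3 : 3 ≤ ℓ := by linarith
  have hsℓ2 : 2 ≤ √ℓ := by
    rw [Real.le_sqrt (by norm_num) (by linarith)]
    linarith
  have hed := ed_pos b Y
  -- heights
  have hyr : ∀ y : ℝ, |y - t| ≤ Y → T / 2 ≤ y ∧ y ≤ 3 * T := by
    intro y hy
    obtain ⟨h1, h2⟩ := abs_le.mp hy
    constructor <;> linarith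
  have hGAb : ∀ c y : ℝ, -1 ≤ c → c ≤ 1 → |y - t| ≤ Y → ‖GA β ⟨c, y⟩‖ ≤ 3 * CG * T := by
    intro c y hc1 hc2 hy
    obtain ⟨h1, h2⟩ := hyr y hy
    have h3 := hGA y (by linarith) c (abs_le.mpr ⟨by linarith, by linarith⟩)
    refine h3.trans ?_
    have h4 : y ^ (-c) ≤ y := by
      calc y ^ (-c) ≤ y ^ (1 : ℝ) := Real.rpow_le_rpow_of_exponent_le (by linarith) (by linarith)
        _ = y := Real.rpow_one y
    calc CG * y ^ (-c) ≤ CG * (3 * T) := by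
          apply mul_le_mul_of_nonneg_left _ hCG.le
          linarith
      _ = _ := by ring
  have hGk : ∀ y : ℝ, |y - t| ≤ Y → ‖GA β ⟨-(1 / ℓ), y⟩‖ ≤ 8 * CG := by
    intro y hy
    obtain ⟨h1, h2⟩ := hyr y hy
    have hk1 : 1 / ℓ ≤ 1 := by
      rw [div_le_one hℓ0]
      linarith
    have hk0 : 0 < 1 / ℓ := by positivity
    have h3 := hGA y (by linarith) (-(1 / ℓ)) (by rw [abs_neg, abs_of_pos hk0]; linarith)
    refine h3.trans ?_
    rw [neg_neg]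
    have hy0 : 0 < y := by linarith
    have h4 : y ^ (1 / ℓ) ≤ 8 := by
      rw [Real.rpow_def_of_pos hy0]
      refine le_trans ?_ (exp_two_lt.trans (by norm_num))
      apply Real.exp_le_exp.mpr
      have h5 : Real.log y ≤ Real.log 3 + ℓ := by
        rw [hℓ, ← Real.log_mul (by norm_num) hT0.ne']
        exact Real.log_le_log hy0 h2
      have h6 : Real.log 3 ≤ 2 := by
        have := Real.log_le_sub_one_of_pos (show (0 : ℝ) < 3 by norm_num)
        linarith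
      rw [mul_one_div, div_le_iff₀ hℓ0]
      linarith
    rw [mul_comm 8]
    exact mul_le_mul_of_nonneg_left h4 hCG.le
  have hGHb : ∀ y : ℝ, |y - t| ≤ Y → ‖GA β ⟨0, y⟩ - gg β * HH β (T ^ 3)⁻¹ y‖ ≤ CH * (5 / T) := by
    intro y hy
    obtain ⟨h1, h2⟩ := hyr y hy
    have hT30 : 0 < (T ^ 3)⁻¹ := by positivity
    have h3 : y * (T ^ 3)⁻¹ ≤ 3 * T * (T ^ 3)⁻¹ := mul_le_mul_of_nonneg_right h2 hT30.le
    have h4 := hGH (T ^ 3)⁻¹ y hT30 (by linarith) (by nlinarith)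
    refine h4.trans ?_
    apply mul_le_mul_of_nonneg_left _ (by linarith)
    have h5 : 1 / y ≤ 2 / T := by
      rw [div_le_div_iff₀ (by linarith) hT0]
      linarith
    have h6 : 3 * T * (T ^ 3)⁻¹ ≤ 3 / T := by
      have e1 : 3 * T * (T ^ 3)⁻¹ = 3 / T * (1 / T) := by
        field_simp
      rw [e1]
      apply mul_le_of_le_one_right (by positivity)
      rw [div_le_one hT0]
      linarith
    calc 1 / y + y * (T ^ 3)⁻¹ ≤ 2 / T + 3 / T := add_le_add h5 (h3.trans h6)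
      _ = 5 / T := by ring
  have hX1b : ∀ v : ℝ, |v| ≤ Y → ‖Xi β ⟨1, t + v⟩‖ ≤ CX / T ^ 2 := by
    intro v hv
    obtain ⟨h1, h2⟩ := hyr (t + v) (by rwa [add_sub_cancel_left])
    refine (hX (t + v) (by linarith)).trans ?_
    rw [hCX]
    have h3 : (T / 2) ^ 2 ≤ (t + v) ^ 2 := pow_le_pow_left₀ (by linarith) h1 2
    calc CX' / (t + v) ^ 2 ≤ CX' / (T / 2) ^ 2 := by gcongr
      _ = 4 * CX' / T ^ 2 := by
        field_simp
        norm_num
  have hX2b : CX / T ^ 2 ≤ 1 := by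
    rw [div_le_one (by positivity)]
    nlinarith
  have hcη0 : 0 ≤ zs.card * η := by positivity
  have hinvℓ : 1 / √ℓ ≤ 1 / 2 := one_div_le_one_div_of_le (by norm_num) hsℓ2
  have hinvℓ3 : 1 / ℓ ≤ 1 / 3 := one_div_le_one_div_of_le (by norm_num) hℓ3
  have hM1 : Real.exp (zs.card * η) - 1 ≤ 2 / √ℓ := by
    refine (exp_sub_one_le hcη0 (by linarith)).trans ?_
    calc 2 * (zs.card * η) ≤ 2 * (1 / √ℓ) := by linarith
      _ = 2 / √ℓ := by ring
  have hMMb : ∀ v : ℝ, |v| ≤ Y → ‖MM zs lam ⟨-1, t + v⟩‖ ≤ 2 := by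
    intro v hv
    have h1 := MM_sub_one hL.near (z := ⟨-1, t + v⟩) (by norm_num)
    simp only [abs_neg, abs_one, div_one] at h1
    have h2 : ‖MM zs lam ⟨-1, t + v⟩ - 1‖ ≤ 1 := by
      refine h1.trans (hM1.trans ?_)
      rw [div_le_one (by linarith)]
      linarith
    calc ‖MM zs lam ⟨-1, t + v⟩‖ = ‖(MM zs lam ⟨-1, t + v⟩ - 1) + 1‖ := by rw [sub_add_cancel]
      _ ≤ ‖MM zs lam ⟨-1, t + v⟩ - 1‖ + ‖(1 : ℂ)‖ := norm_add_le _ _
      _ ≤ 1 + 1 := by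
        rw [norm_one]
        linarith
      _ = 2 := by norm_num
  have hMM1 : ∀ z : ℂ, z.re ≤ -(1 / ℓ) → |z.im - t| ≤ Y → ‖MM zs lam z - 1‖ ≤ 2 * E := by
    intro z hz hzt
    have hk0 : 0 < 1 / ℓ := by positivity
    have h1 := MM_sub_sum hL.near (z := z) (by linarith)
    refine h1.trans ?_
    have h4 := Real.exp_le_exp.mpr (hsum z hz hzt)
    have h5 := exp_sub_one_le hE0 hE
    linarith
  -- the polynomial
  set a₁ : ℕ → ℂ := fun n => ((ψ n : ℝ) : ℂ) * (mob n : ℂ) with ha₁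
  set a₂ : ℕ → ℂ := fun n => ((1 - ψ n : ℝ) : ℂ) * (mob n : ℂ) with ha₂
  have ha1n : ∀ n, ‖a₁ n‖ ≤ 1 := by
    intro n
    rw [ha₁]
    simp only
    rw [norm_mul, Complex.norm_real, Real.norm_of_nonneg (hψ n).1]
    calc ψ n * ‖(mob n : ℂ)‖ ≤ 1 * 1 := mul_le_mul (hψ n).2 (mob_norm n) (norm_nonneg _) zero_le_one
      _ = 1 := one_mul 1
  have hX2' : 2 ≤ X := by
    have : (2 : ℝ) ≤ X := by linarith
    exact_mod_cast this
  have h3X8 : 3 * X ≤ X ^ 8 := by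
    have h1 : X * 2 ^ 7 ≤ X * X ^ 7 := Nat.mul_le_mul_left _ (Nat.pow_le_pow_left hX2' 7)
    calc 3 * X ≤ X * 2 ^ 7 := by omega
      _ ≤ X * X ^ 7 := h1
      _ = X ^ 8 := by ring
  have hsplit : ∀ z : ℂ, PP (Finset.Icc 1 (X ^ 8)) (fun n => (mob n : ℂ)) z =
      PP (Finset.Icc 1 (3 * X)) a₁ z + PP (Finset.Icc 1 (X ^ 8)) a₂ z := by
    intro z
    have h1 : PP (Finset.Icc 1 (3 * X)) a₁ z = PP (Finset.Icc 1 (X ^ 8)) a₁ z := by
      unfold PP
      apply Finset.sum_subset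
      · intro n hn
        rw [Finset.mem_Icc] at hn ⊢
        exact ⟨hn.1, hn.2.trans h3X8⟩
      · intro n hn hn2
        rw [Finset.mem_Icc] at hn hn2
        have : 3 * X < n := by
          by_contra hc
          exact hn2 ⟨hn.1, by omega⟩
        rw [ha₁]
        simp only
        rw [hψ0 n this, Complex.ofReal_zero, zero_mul, zero_mul]
    rw [h1]
    unfold PP
    rw [← Finset.sum_add_distrib]
    apply Finset.sum_congr rfl
    intro n _
    rw [ha₁, ha₂]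
    push_cast
    ring
  set Q : ℝ := 2 * √(6 * R * T) with hQ
  have hQ0 : 0 ≤ Q := by positivity
  have hP1 : ∀ c y : ℝ, c ≤ 0 → ‖PP (Finset.Icc 1 (3 * X)) a₁ ⟨c, y⟩‖ ≤ Q := by
    intro c y hc
    refine (PP_le ha1n hc y).trans ?_
    rw [hQ]
    apply mul_le_mul_of_nonneg_left _ (by norm_num)
    apply Real.sqrt_le_sqrt
    push_cast
    linarith
  have htl : ∀ z : ℂ, z.re = -1 → ‖(starRingEnd ℂ) (riemannZeta (1 / 2 - (starRingEnd ℂ) z))⁻¹ -
      PP (Finset.Icc 1 (X ^ 8)) (fun n => (mob n : ℂ)) z‖ ≤ Ct / T ^ 2 := by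
    intro z hz
    refine (htail (X ^ 8) (Nat.one_le_pow _ _ (by omega)) z hz).trans ?_
    have hXr : (0 : ℝ) < X := by linarith
    have h1 : (((X ^ 8 : ℕ) : ℝ)) ^ (-(1 / 4) : ℝ) = ((X : ℝ) ^ 2)⁻¹ := by
      push_cast
      rw [← Real.rpow_natCast, ← Real.rpow_mul hXr.le, ← Real.rpow_natCast,
        ← Real.rpow_neg hXr.le]
      norm_num
    rw [h1, div_eq_mul_inv]
    apply mul_le_mul_of_nonneg_left _ hCt.le
    apply inv_anti₀ (by positivity)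
    exact pow_le_pow_left₀ hT0.le hX1 2
  -- the quotient
  obtain ⟨D, hD, hDe⟩ := exists_DL hL hWt
  have hbox : ∀ x τ : ℝ, 0 ≤ x → x ≤ 1 → |τ - t| ≤ Y → ‖D ⟨x, τ⟩‖ ≤
      Real.exp (Real.log (2 * T) ^ 4) := by
    intro x τ hx0 hx1 hτ
    have hlt : Real.log (t / 2) = Real.log t - Real.log 2 := Real.log_div (by linarith) (by norm_num)
    have hlog2 := Real.log_two_lt_d9
    have hℓt : ℓ ≤ Real.log t := Real.log_le_log hT0 ht1
    have h1 := hBox (t / 2) (by linarith) (Y + 3) η t zs lam u hL hη1 (by linarith) (by linarith)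
      (by linarith) (by
        refine hcard.trans ?_
        have h2 : ℓ / 2 ≤ Real.log (t / 2) := by
          rw [hlt]
          linarith
        have h3 : (ℓ / 2) ^ 2 ≤ Real.log (t / 2) ^ 2 := pow_le_pow_left₀ (by linarith) h2 2
        refine le_trans (le_of_eq ?_) h3
        ring) D hD hDe x τ hx0 hx1 (by linarith)
    refine h1.trans (Real.exp_le_exp.mpr ?_)
    apply pow_le_pow_left₀
    · rw [hlt]
      linarith
    · apply Real.log_le_log (by linarith)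
      linarith
  set B : ℝ := Real.exp (Real.log (2 * T) ^ 4) with hB
  have hB0 : 0 ≤ B := (Real.exp_pos _).le
  have r1 := right_side hL hD hDe hb hbY hWt (show 0 < √ℓ by linarith) hCX0 hT0 hX1b hX2b hM1
  have r2 := shift_D hL hD hDe hb hbY hWt hCG hT0 hB0 hGAb hbox
  have r3 := left_one (N := X ^ 8) (tl := Ct / T ^ 2) hL hD hDe hb hbY hWt hCG hCX0 hT0
    (by positivity) hGAb hX1b hMMb htl
  have r4 := left_two (N := X ^ 8) (X := 3 * X) (a₁ := a₁) (a₂ := a₂) (κ := 1 / ℓ) (E := E)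
    (Q := Q) (δ := (T ^ 3)⁻¹) hL hb hbY hWt hCG (show 0 < CH by linarith) hT0 (by positivity)
    (by linarith) hE0 hE hQ0 hGAb hGk hGHb hP1 hMMb hMM1 hsplit
  set J2 := ∫ v in (-Y)..Y, ‖PP (Finset.Icc 1 (X ^ 8)) a₂ ⟨-1, t + v⟩‖ * kk b v with hJ2
  set J3 := ∫ v in (-Y)..Y, ‖PP (Finset.Icc 1 (3 * X)) a₁ ⟨-(1 / ℓ), t + v⟩‖ * kk b v with hJ3
  set J1 := ‖VW (fun z => HH β (T ^ 3)⁻¹ z.im * PP (Finset.Icc 1 (3 * X)) a₁ z) b⁻¹ Y t 0‖ with hJ1
  have hJ20 : 0 ≤ J2 := by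
    rw [hJ2]
    apply intervalIntegral.integral_nonneg (by linarith)
    intro v _
    exact mul_nonneg (norm_nonneg _) (kk_nonneg _ _)
  have hJ30 : 0 ≤ J3 := by
    rw [hJ3]
    apply intervalIntegral.integral_nonneg (by linarith)
    intro v _
    exact mul_nonneg (norm_nonneg _) (kk_nonneg _ _)
  have hJ10 : 0 ≤ J1 := norm_nonneg _
  have hexp2 := exp_neg_two
  have hta : S0 * ta b Y (Real.log 2) ≤ b / 20 + 4 * b * S0 * ed b Y := by
    unfold ta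
    have : S0 * (6 * b * Real.exp (-((b - 1) * Real.log 2))) ≤ b / 20 := by
      calc S0 * (6 * b * Real.exp (-((b - 1) * Real.log 2))) =
          b * (S0 * (6 * Real.exp (-((b - 1) * Real.log 2)))) := by ring
        _ ≤ b * (1 / 20) := mul_le_mul_of_nonneg_left hb2 hb0.le
        _ = b / 20 := by ring
    rw [mul_add]
    linarith
  have er1 : S0 * (4 / √ℓ + CX / T ^ 2) * (6 * b) ≤ b / 100 := by
    calc S0 * (4 / √ℓ + CX / T ^ 2) * (6 * b) = b * (6 * S0 * (4 / √ℓ + CX / T ^ 2)) := by ring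
      _ ≤ b * (1 / 100) := mul_le_mul_of_nonneg_left ev1 hb0.le
      _ = b / 100 := by ring
  have er2 : (3 * CG * T) * (2 * (CX / T ^ 2 * S0 + Ct / T ^ 2)) * (6 * b) ≤ b / 100 := by
    calc (3 * CG * T) * (2 * (CX / T ^ 2 * S0 + Ct / T ^ 2)) * (6 * b) =
        b * (36 * CG * (CX * S0 + Ct) / T) := by
          field_simp
          ring
      _ ≤ b * (1 / 100) := mul_le_mul_of_nonneg_left ev2 hb0.le
      _ = b / 100 := by ring
  have er3 : (CH * (5 / T)) * Q * (6 * b) ≤ b / 100 := by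
    have hsT : 0 < √T := Real.sqrt_pos.mpr hT0
    have e1 : √(6 * R * T) = √(6 * R) * √T := Real.sqrt_mul (by positivity) T
    have e2 : √T * √T = T := Real.mul_self_sqrt hT0.le
    calc (CH * (5 / T)) * Q * (6 * b) = b * (60 * CH * √(6 * R) * √T / T) := by
          rw [hQ, e1]
          ring
      _ = b * (60 * CH * √(6 * R) / √T) := by
          congr 1
          rw [div_eq_div_iff hT0.ne' hsT.ne', mul_assoc, e2]
      _ ≤ b * (1 / 100) := mul_le_mul_of_nonneg_left ev3 hb0.le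
      _ = b / 100 := by ring
  have er4 : (2 + 4 * b * S0) * ed b Y + 4 * ((1 + 3 * CG * T) * B) * ed b Y +
      18 * CG * T * Q * ed b Y ≤ b / 100 := by
    calc _ = ((2 + 4 * b * S0) + 4 * ((1 + 3 * CG * T) * B) + 36 * CG * T * √(6 * R * T)) *
          ed b Y := by
          rw [hQ]
          ring
      _ ≤ 1 / 100 := ev4
      _ ≤ b / 100 := by linarith
  have k1 : (3 * CG * T) * 2 * J2 ≤ (16 * CG + ‖gg β‖ + 1) * T * J2 := by
    apply mul_le_mul_of_nonneg_right _ hJ20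
    nlinarith
  have k2 : (8 * CG) * (2 * E) * J3 ≤ (16 * CG + ‖gg β‖ + 1) * E * J3 := by
    apply mul_le_mul_of_nonneg_right _ hJ30
    nlinarith
  have k3 : ‖gg β‖ * J1 ≤ (16 * CG + ‖gg β‖ + 1) * J1 := by
    apply mul_le_mul_of_nonneg_right _ hJ10
    linarith
  have hmain : 0.27 * b ≤ 2 * b * Real.exp (-2) := by nlinarith
  linarith

end Pool.Agent.T9h53.AH
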