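import Pool.Agent.T9h53.AH.MeasA
import Pool.Agent.T9h53.AH.WinN

/-! # The measure of the heights at which the zeros are close to a lattice -/

set_option autoImplicit false

open Complex Filter Topology Set MeasureTheory

namespace Pool.Agent.T9h53.AH

open Pool.Agent.T9h53.SZ Pool.Agent.T9h53.EQ
open Pool.Agent.TH823.MRS (mob)

lemma exists_b : ∃ b₁ : ℝ, ∀ b : ℝ, b₁ ≤ b → S0 * (6 * Real.exp (-((b - 1) * Real.log 2))) ≤ 1 / 20 := by
  have hlog2 : 0 < Real.log 2 := Real.log_pos (by norm_num)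
  have h1 : Tendsto (fun b : ℝ => (b - 1) * Real.log 2) atTop atTop :=
    (tendsto_atTop_add_const_right _ (-1) tendsto_id).atTop_mul_const hlog2
  have h2 : Tendsto (fun b : ℝ => S0 * (6 * Real.exp (-((b - 1) * Real.log 2)))) atTop
      (𝓝 (S0 * (6 * 0))) :=
    ((Real.tendsto_exp_neg_atTop_nhds_zero.comp h1).const_mul 6).const_mul S0
  rw [mul_zero, mul_zero] at h2
  obtain ⟨b₁, hb₁⟩ := eventually_atTop.mp
    (h2.eventually_le_const (show (0 : ℝ) < 1 / 20 by norm_num))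
  exact ⟨b₁, hb₁⟩

theorem meas_L (β ε : ℝ) (hε : 0 < ε) : ∃ b c T₀ : ℝ, 1 ≤ b ∧ 0 < c ∧ 10 ≤ T₀ ∧ ∀ T : ℝ, T₀ ≤ T →
    ∀ ω : ℝ, 0 ≤ ω → ω ≤ 1 → ω ^ 2 * Real.log T ≤ c → ∀ Bad : Set ℝ, Bad ⊆ Ioc T (2 * T) →
    (∀ t ∈ Bad, ∃ (η : ℝ) (zs : Finset ℝ) (lam : ℝ → ℝ) (u : ℂ),
      LatD β (5 * b * Real.log (Real.log T) + 3) η t zs lam u ∧ 0 ≤ η ∧ η ≤ 1 ∧
      zs.card * η ≤ 1 / √(Real.log T) ∧
      (∀ z : ℂ, z.re ≤ -(1 / Real.log T) → |z.im - t| ≤ 5 * b * Real.log (Real.log T) →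
        ∑ y ∈ zs, η / ‖z - (⟨0, lam y⟩ : ℂ)‖ ≤ ω) ∧
      zs.card * Real.log (2 * (5 * b * Real.log (Real.log T) + 3) + 10) ≤ Real.log T ^ 2 / 4) →
    volume.real Bad ≤ ε * T := by
  obtain ⟨K, hK, hwin⟩ := win_L β
  have hK0 : 0 < K := by linarith
  set R : ℝ := 1 + 3 * 6480000 * K ^ 2 / ε with hR
  have hR1 : 1 ≤ R := by
    rw [hR]
    have : 0 ≤ 3 * 6480000 * K ^ 2 / ε := by positivity
    linarith
  have hR0 : 0 < R := by linarith
  have hl6R : 0 ≤ Real.log (6 * R) := Real.log_nonneg (by linarith)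
  set ε₁ : ℝ := ε / (6 * 1814400 * K ^ 2 * R) with hε₁
  have hε₁0 : 0 < ε₁ := by positivity
  obtain ⟨b₀, X₀, hb₀, hmel⟩ := mel_window β ε₁ hε₁0
  obtain ⟨b₁, hb₁⟩ := exists_b
  set b : ℝ := max b₀ b₁ with hb
  have hb3 : 3 ≤ b := hb₀.trans (le_max_left _ _)
  have hb1 : 1 ≤ b := by linarith
  have hb0 : 0 < b := by linarith
  obtain ⟨T1, hT1, hwin⟩ := hwin b hb1 (hb₁ b (le_max_right _ _)) R hR1
  have hθ := th0_pos β
  have hpi := Real.pi_pos
  set c : ℝ := ε / (3 * 3240000 * K ^ 2 * (2 + Real.log (6 * R) + 6 * R)) with hc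
  have hc0 : 0 < c := by positivity
  set CT : ℝ := 900 * K ^ 2 * (7 * (2 * (144 * (1296 * R ^ 4) + 32 * (144 * R ^ 2)))) with hCT
  have hCT0 : 0 < CT := by positivity
  have hev := ev_ed hb0 1 one_pos
  obtain ⟨T2, hT2⟩ := eventually_atTop.mp hev
  set KK : ℝ := 4 * ((b - 1) / (2 * Real.pi) / th0 β) with hKK
  have hKK0 : 0 < KK := by
    have : 0 < b - 1 := by linarith
    positivity
  refine ⟨b, c, max (max T1 T2) (10 + X₀ + KK + 6 * CT / ε), hb1, hc0, ?_, ?_⟩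
  · refine le_trans ?_ (le_max_right _ _)
    have : 0 ≤ 6 * CT / ε := by positivity
    have : (0 : ℝ) ≤ X₀ := Nat.cast_nonneg _
    linarith
  intro T hT ω hω0 hω1 hωc Bad hBad hdata
  have hTT1 : T1 ≤ T := (le_max_left _ _).trans ((le_max_left _ _).trans hT)
  have hTT2 : T2 ≤ T := (le_max_right _ _).trans ((le_max_left _ _).trans hT)
  have hTT3 : 10 + X₀ + KK + 6 * CT / ε ≤ T := (le_max_right _ _).trans hT
  have hX00 : (0 : ℝ) ≤ X₀ := Nat.cast_nonneg _
  have hCTε : 0 ≤ 6 * CT / ε := by positivity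
  have hT10 : 10 ≤ T := by linarith
  have hT0 : 0 < T := by linarith
  have hT1' : 1 ≤ T := by linarith
  have hℓ1 : 1 ≤ Real.log T := by
    rw [Real.le_log_iff_exp_le hT0]
    have := Real.exp_one_lt_three
    linarith
  set ℓ := Real.log T with hℓ
  set Y := 5 * b * Real.log ℓ with hY
  have hY0 : 0 ≤ Y := by
    have : 0 ≤ Real.log ℓ := Real.log_nonneg hℓ1
    positivity
  set X : ℕ := ⌈R * T⌉₊ with hX
  have hXl : R * T ≤ X := Nat.le_ceil _
  have hXT : T ≤ X := by nlinarith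
  have hXu : (X : ℝ) ≤ 2 * R * T := by
    have h1 := Nat.ceil_lt_add_one (show 0 ≤ R * T by positivity)
    rw [← hX] at h1
    nlinarith
  have hXr : (0 : ℝ) < X := by linarith
  have hX1 : 1 ≤ X := by
    have : (1 : ℝ) ≤ X := by linarith
    exact_mod_cast this
  set ψ := psi1 X with hψ
  set a₁ : ℕ → ℂ := fun n => ((ψ n : ℝ) : ℂ) * (mob n : ℂ) with ha₁
  set a₂ : ℕ → ℂ := fun n => ((1 - ψ n : ℝ) : ℂ) * (mob n : ℂ) with ha₂
  have ha1n : ∀ n, ‖a₁ n‖ ≤ 1 := by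
    intro n
    rw [ha₁]
    simp only
    rw [norm_mul, Complex.norm_real, Real.norm_of_nonneg (psi1_range X n).1]
    calc ψ n * ‖(mob n : ℂ)‖ ≤ 1 * 1 :=
          mul_le_mul (psi1_range X n).2 (mob_norm n) (norm_nonneg _) zero_le_one
      _ = 1 := one_mul 1
  have ha2n : ∀ n, ‖a₂ n‖ ≤ 1 := by
    intro n
    rw [ha₂]
    simp only
    have h1 := psi1_range X n
    rw [norm_mul, Complex.norm_real, Real.norm_of_nonneg (by linarith)]
    calc (1 - ψ n) * ‖(mob n : ℂ)‖ ≤ 1 * 1 :=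
          mul_le_mul (by linarith) (mob_norm n) (norm_nonneg _) zero_le_one
      _ = 1 := one_mul 1
  have ha20 : ∀ n, n ≤ X → a₂ n = 0 := by
    intro n hn
    rw [ha₂]
    simp only
    rw [hψ, psi1_one hX1 hn, sub_self, Complex.ofReal_zero, zero_mul]
  have hIoc : Ioc T (2 * T) = Ioc T (T + T) := by rw [two_mul]
  -- the three sets
  set I2 : ℝ → ℝ := fun t => ∫ v in (-Y)..Y, ‖PP (Finset.Icc 1 (X ^ 8)) a₂ ⟨-1, t + v⟩‖ * kk b v
    with hI2
  set I3 : ℝ → ℝ := fun t => ∫ v in (-Y)..Y, ‖PP (Finset.Icc 1 (3 * X)) a₁ ⟨-(1 / ℓ), t + v⟩‖ *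
    kk b v with hI3
  set I1 : ℝ → ℂ := fun t => VW (fun z => HH β (T ^ 3)⁻¹ z.im *
    PP (Finset.Icc 1 (3 * X)) a₁ z) b⁻¹ Y t 0 with hI1
  set B2 : Set ℝ := {t ∈ Ioc T (T + T) | b / (30 * K * T) ≤ I2 t} with hB2
  set B3 : Set ℝ := {t ∈ Ioc T (T + T) | b / 30 ≤ K * ω * I3 t} with hB3
  set B1 : Set ℝ := {t | b / (30 * K) ≤ ‖I1 t‖} with hB1
  have hI30 : ∀ t, 0 ≤ I3 t := by
    intro t
    rw [hI3]
    apply intervalIntegral.integral_nonneg (by linarith)
    intro v _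
    exact mul_nonneg (norm_nonneg _) (kk_nonneg _ _)
  have hsub : Bad ⊆ (B2 ∪ B3) ∪ (B1 ∩ Ioc T (T + T)) := by
    intro t ht
    have htI := hBad ht
    rw [hIoc] at htI
    obtain ⟨η, zs, lam, u, hL, hη0, hη1, hcη, hE, hcard⟩ := hdata t ht
    have h3 : b / 10 ≤ K * T * I2 t + K * ω * I3 t + K * ‖I1 t‖ :=
      hwin T hTT1 X hXT hXu ψ (psi1_range X) (fun n hn => psi1_zero hX1 hn) t htI.1.le
      (by linarith [htI.2]) η zs lam u hL hη0 hη1 hcη ω hω0 hω1 hE hcard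
    by_cases h4 : b / 30 ≤ K * T * I2 t
    · left; left
      refine ⟨htI, ?_⟩
      rw [div_le_iff₀ (by positivity)]
      linarith
    · by_cases h5 : b / 30 ≤ K * ω * I3 t
      · left; right
        exact ⟨htI, h5⟩
      · right
        refine ⟨?_, htI⟩
        show b / (30 * K) ≤ ‖I1 t‖
        push Not at h4 h5
        rw [div_le_iff₀ (by positivity)]
        linarith
  -- the second set
  have v2 : volume.real B2 ≤ ε / 3 * T := by
    have h1 := markov_win (f := fun x => ‖PP (Finset.Icc 1 (X ^ 8)) a₂ ⟨-1, x⟩‖) (w := kk b)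
      (K := 6 * b) (M := 200 / X) (a := b / (30 * K * T)) (T := T) (B := T)
      (PP_cont _ _ _) (fun _ => norm_nonneg _) (kk_cont b) (kk_nonneg b) hY0 (by positivity)
      (kk_mass hb0 hY0) (by positivity) (by
        intro v _
        refine (PP_mv (Finset.Icc 1 (X ^ 8)) (fun m hm => (Finset.mem_Icc.mp hm).1) a₂ (-1) T v
          hT10).trans ?_
        have h2 := sum_J2 (N := X ^ 8) hX1 hXT ha2n ha20
        calc 100 * _ ≤ 100 * (2 / (X : ℝ)) := mul_le_mul_of_nonneg_left h2 (by norm_num)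
          _ = 200 / X := by ring) (by positivity) hT0.le B2 (fun t ht => ht.1) (fun t ht => ht.2)
    refine h1.trans ?_
    have e1 : (6 * b) ^ 2 * (200 / X) / (b / (30 * K * T)) ^ 2 = 6480000 * K ^ 2 * T ^ 2 / X := by
      field_simp
      ring
    rw [e1, div_le_iff₀ hXr]
    have h2 : 3 * 6480000 * K ^ 2 / ε * T ≤ X := by
      refine le_trans ?_ hXl
      apply mul_le_mul_of_nonneg_right _ hT0.le
      rw [hR]
      linarith
    calc 6480000 * K ^ 2 * T ^ 2 = ε / 3 * T * (3 * 6480000 * K ^ 2 / ε * T) := by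
          field_simp
      _ ≤ ε / 3 * T * X := mul_le_mul_of_nonneg_left h2 (by positivity)
  -- the third set
  have v3 : volume.real B3 ≤ ε / 3 * T := by
    rcases eq_or_lt_of_le hω0 with h0 | h0
    · have : B3 = ∅ := by
        rw [hB3]
        ext t
        simp only [mem_setOf_eq, mem_empty_iff_false, iff_false, not_and, not_le]
        intro _
        rw [← h0, mul_zero, zero_mul]
        positivity
      rw [this, measureReal_empty]
      positivity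
    have h1 := markov_win (f := fun x => ‖PP (Finset.Icc 1 (3 * X)) a₁ ⟨-(1 / ℓ), x⟩‖) (w := kk b)
      (K := 6 * b) (M := 100 * (T * ((2 + Real.log (6 * R) + 6 * R) * ℓ))) (a := b / (30 * K * ω))
      (T := T) (B := T)
      (PP_cont _ _ _) (fun _ => norm_nonneg _) (kk_cont b) (kk_nonneg b) hY0 (by positivity)
      (kk_mass hb0 hY0) (by positivity) (by
        intro v _
        refine (PP_mv (Finset.Icc 1 (3 * X)) (fun m hm => (Finset.mem_Icc.mp hm).1) a₁ (-(1 / ℓ)) T v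
          hT10).trans ?_
        have h2 := sum_J3 (N := 3 * X) (κ := 1 / ℓ) hT0.le (by positivity) ha1n
        apply mul_le_mul_of_nonneg_left _ (by norm_num)
        refine h2.trans ?_
        have h3X : ((3 * X : ℕ) : ℝ) ≤ 6 * R * T := by
          push_cast
          linarith
        have h3X0 : (0 : ℝ) < ((3 * X : ℕ) : ℝ) := by
          push_cast
          linarith
        have hl : Real.log ((3 * X : ℕ) : ℝ) ≤ Real.log (6 * R) + ℓ := by
          rw [hℓ, ← Real.log_mul (by positivity) hT0.ne']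
          exact Real.log_le_log h3X0 h3X
        calc T * (1 + Real.log ((3 * X : ℕ) : ℝ)) + ((3 * X : ℕ) : ℝ) ≤
            T * (1 + (Real.log (6 * R) + ℓ)) + 6 * R * T := by gcongr
          _ = T * (1 + Real.log (6 * R) + ℓ + 6 * R) := by ring
          _ ≤ T * ((2 + Real.log (6 * R) + 6 * R) * ℓ) := by
            apply mul_le_mul_of_nonneg_left _ hT0.le
            nlinarith) (by positivity) hT0.le B3 (fun t ht => ht.1) (fun t ht => by
        have := ht.2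
        rw [div_le_iff₀ (by positivity)]
        have e1 : I3 t * (30 * K * ω) = 30 * (K * ω * I3 t) := by ring
        show b ≤ I3 t * (30 * K * ω)
        rw [e1]
        linarith)
    refine h1.trans ?_
    have e1 : (6 * b) ^ 2 * (100 * (T * ((2 + Real.log (6 * R) + 6 * R) * ℓ))) /
        (b / (30 * K * ω)) ^ 2 = 3240000 * K ^ 2 * (2 + Real.log (6 * R) + 6 * R) *
        (ω ^ 2 * ℓ) * T := by
      field_simp
      ring
    rw [e1]
    calc 3240000 * K ^ 2 * (2 + Real.log (6 * R) + 6 * R) * (ω ^ 2 * ℓ) * T ≤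
        3240000 * K ^ 2 * (2 + Real.log (6 * R) + 6 * R) * c * T := by gcongr
      _ = ε / 3 * T := by
        rw [hc]
        field_simp
  -- the first set
  have v1 : volume.real (B1 ∩ Ioc T (T + T)) ≤ ε / 3 * T := by
    have h1 := hmel X (by
      have : (X₀ : ℝ) ≤ X := by linarith
      exact_mod_cast this) b (le_max_left _ _) (by
      rw [← hKK]
      linarith) ψ (psi1_range X) (by
      intro n m
      refine (psi1_lip hX1 n m).trans ?_
      rw [← hKK]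
      apply div_le_div_of_nonneg_left (abs_nonneg _) hKK0
      linarith) (fun n hn => psi1_zero hX1 hn) (T ^ 3)⁻¹ Y (by positivity) hY0
    set V : ℝ := 2 * Real.pi * (144 * b ^ 2 * (ε₁ * X) + 2 * (144 * b ^ 2 *
        ((3 * X : ℕ) : ℝ) ^ 4 * (T ^ 3)⁻¹ ^ 2 + 32 * b ^ 2 * ed b Y ^ 2 * ((3 * X : ℕ) : ℝ) ^ 2 *
        (1 + 1 / (T ^ 3)⁻¹) ^ 2)) with hV
    have hV0 : 0 ≤ V := by positivity
    have h2 := markov_lint (g := I1) (VW_HH_cont β _ b Y _ a₁) (a := b / (30 * K))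
      (by positivity) hV0 h1
    have h3 : volume.real (B1 ∩ Ioc T (T + T)) ≤ V / (b / (30 * K)) ^ 2 := by
      apply ENNReal.toReal_le_of_le_ofReal (by positivity)
      exact (measure_mono inter_subset_left).trans h2
    refine h3.trans ?_
    have e1 : V / (b / (30 * K)) ^ 2 = 900 * K ^ 2 * (2 * Real.pi) * (144 * (ε₁ * X)) +
        900 * K ^ 2 * (2 * Real.pi * (2 * (144 * (((3 * X : ℕ) : ℝ) ^ 4 * (T ^ 3)⁻¹ ^ 2) + 32 *
        (ed b Y ^ 2 * ((3 * X : ℕ) : ℝ) ^ 2 * (1 + 1 / (T ^ 3)⁻¹) ^ 2)))) := by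
      rw [hV]
      field_simp
      ring
    rw [e1]
    have hpi7 : 2 * Real.pi ≤ 7 := by
      have := Real.pi_lt_d2
      linarith
    have p1 : 900 * K ^ 2 * (2 * Real.pi) * (144 * (ε₁ * X)) ≤ ε / 6 * T := by
      calc 900 * K ^ 2 * (2 * Real.pi) * (144 * (ε₁ * X)) ≤
          900 * K ^ 2 * 7 * (144 * (ε₁ * (2 * R * T))) := by gcongr
        _ = 1814400 * K ^ 2 * R * ε₁ * T := by ring
        _ = ε / 6 * T := by
          rw [hε₁]
          field_simp
    have h3X : ((3 * X : ℕ) : ℝ) ≤ 6 * R * T := by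
      push_cast
      linarith
    have p2 : ((3 * X : ℕ) : ℝ) ^ 4 * (T ^ 3)⁻¹ ^ 2 ≤ 1296 * R ^ 4 := by
      calc ((3 * X : ℕ) : ℝ) ^ 4 * (T ^ 3)⁻¹ ^ 2 ≤ (6 * R * T) ^ 4 * (T ^ 3)⁻¹ ^ 2 := by gcongr
        _ = 1296 * R ^ 4 * (1 / T ^ 2) := by
          field_simp
          norm_num
        _ ≤ 1296 * R ^ 4 * 1 := by
          apply mul_le_mul_of_nonneg_left _ (by positivity)
          rw [div_le_one (by positivity)]
          nlinarith
        _ = _ := mul_one _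
    have hed := ed_pos b Y
    have hE := hT2 T hTT2
    rw [one_mul, ← hℓ, ← hY] at hE
    have hlog2T : Real.log (2 * T) ≤ Real.log (2 * T) ^ 4 := by
      have h4 : 1 ≤ Real.log (2 * T) := by
        refine hℓ1.trans ?_
        rw [hℓ]
        exact Real.log_le_log hT0 (by linarith)
      calc Real.log (2 * T) = Real.log (2 * T) ^ 1 := (pow_one _).symm
        _ ≤ Real.log (2 * T) ^ 4 := pow_le_pow_right₀ h4 (by norm_num)
    have hexp2T : T ≤ Real.exp (Real.log (2 * T) ^ 4) := by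
      calc T ≤ 2 * T := by linarith
        _ = Real.exp (Real.log (2 * T)) := (Real.exp_log (by linarith)).symm
        _ ≤ _ := Real.exp_le_exp.mpr hlog2T
    have p3 : T ^ 4 * ed b Y ≤ 1 := by
      refine le_trans ?_ hE
      apply mul_le_mul_of_nonneg_right _ hed.le
      calc T ^ 4 = T ^ 3 * T := by ring
        _ ≤ _ := by gcongr
    have p4 : ed b Y ^ 2 * ((3 * X : ℕ) : ℝ) ^ 2 * (1 + 1 / (T ^ 3)⁻¹) ^ 2 ≤ 144 * R ^ 2 := by
      have h5 : 1 + 1 / (T ^ 3)⁻¹ ≤ 2 * T ^ 3 := by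
        rw [one_div, inv_inv]
        have : (1 : ℝ) ≤ T ^ 3 := one_le_pow₀ hT1'
        linarith
      have h50 : 0 ≤ 1 + 1 / (T ^ 3)⁻¹ := by positivity
      calc ed b Y ^ 2 * ((3 * X : ℕ) : ℝ) ^ 2 * (1 + 1 / (T ^ 3)⁻¹) ^ 2 ≤
          ed b Y ^ 2 * (6 * R * T) ^ 2 * (2 * T ^ 3) ^ 2 := by gcongr
        _ = 144 * R ^ 2 * (T ^ 4 * ed b Y) ^ 2 := by ring
        _ ≤ 144 * R ^ 2 * 1 ^ 2 := by gcongr
        _ = _ := by ring
    have p5 : 900 * K ^ 2 * (2 * Real.pi * (2 * (144 * (((3 * X : ℕ) : ℝ) ^ 4 * (T ^ 3)⁻¹ ^ 2) + 32 *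
        (ed b Y ^ 2 * ((3 * X : ℕ) : ℝ) ^ 2 * (1 + 1 / (T ^ 3)⁻¹) ^ 2)))) ≤ CT := by
      rw [hCT]
      gcongr
    have p6 : CT ≤ ε / 6 * T := by
      have h6 : 6 * CT / ε ≤ T := by linarith
      rw [div_le_iff₀ hε] at h6
      linarith
    linarith
  -- conclusion
  have hfin : volume ((B2 ∪ B3) ∪ (B1 ∩ Ioc T (T + T))) ≠ ⊤ := by
    apply ((measure_mono (?_ : (B2 ∪ B3) ∪ (B1 ∩ Ioc T (T + T)) ⊆ Ioc T (T + T))).trans_lt
      measure_Ioc_lt_top).ne
    rintro t ((ht | ht) | ht)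
    · exact ht.1
    · exact ht.1
    · exact ht.2
  calc volume.real Bad ≤ volume.real ((B2 ∪ B3) ∪ (B1 ∩ Ioc T (T + T))) := measureReal_mono hsub hfin
    _ ≤ volume.real (B2 ∪ B3) + volume.real (B1 ∩ Ioc T (T + T)) := measureReal_union_le _ _
    _ ≤ volume.real B2 + volume.real B3 + volume.real (B1 ∩ Ioc T (T + T)) := by
      have := measureReal_union_le (μ := volume) B2 B3
      linarith
    _ ≤ ε / 3 * T + ε / 3 * T + ε / 3 * T := by linarith
    _ = ε * T := by ring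

end Pool.Agent.T9h53.AH
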