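import Pool.Agent.T9h53.AH.Zer
import Pool.Agent.T9h53.AH.MeasB

/-! # The final theorems -/

set_option autoImplicit false

open Complex Filter Topology Set MeasureTheory

namespace Pool.Agent.T9h53.AH

open Pool.Agent.T9h53.SZ Pool.Agent.T9h53.EQ

lemma NearH_mono {β W W' δ δ' t : ℝ} (hW : W ≤ W') (hδ : δ' ≤ δ) (h : NearH β W' δ' t) :
    NearH β W δ t := by
  intro j h1 h2 h3
  obtain ⟨k, hk1, hk2⟩ := h j h1 (by linarith) (by linarith)
  exact ⟨k, hk1, lt_of_lt_of_le hk2 hδ⟩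

/-- the threshold -/
noncomputable def thr (c T : ℝ) : ℝ := c / (Real.log T ^ (3 / 2 : ℝ) * Real.log (Real.log T) ^ 2)

lemma x_ev (b : ℝ) (hb : 1 ≤ b) : ∀ᶠ x : ℝ in atTop, 3 ≤ Real.log x ∧
    2 * (6 * b * Real.log x) + 10 ≤ x ∧ 8 * (6 * b * Real.log x) * x + 1 ≤ x ^ 2 ∧
    216 * b * Real.log x ^ 2 ≤ x := by
  have hb0 : 0 < b := by linarith
  have h1 := (Real.isLittleO_log_id_atTop).bound (show (0 : ℝ) < 1 / (100 * b) by positivity)
  have h2 := (isLittleO_log_rpow_atTop (show (0 : ℝ) < 1 / 2 by norm_num)).bound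
    (show (0 : ℝ) < 1 / (216 * b) by positivity)
  filter_upwards [h1, h2, Real.tendsto_log_atTop.eventually_ge_atTop 3, eventually_ge_atTop 100]
    with x h3 h4 h5 h6
  have hx0 : 0 < x := by linarith
  rw [Real.norm_eq_abs, Real.norm_eq_abs, id_eq, abs_of_nonneg (by linarith),
    abs_of_pos hx0] at h3
  rw [Real.norm_eq_abs, Real.norm_eq_abs, abs_of_nonneg (by linarith),
    abs_of_pos (by positivity)] at h4
  have h7 : b * Real.log x ≤ x / 100 := by
    calc b * Real.log x ≤ b * (1 / (100 * b) * x) := mul_le_mul_of_nonneg_left h3 hb0.le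
      _ = x / 100 := by field_simp
  refine ⟨h5, by linarith, ?_, ?_⟩
  · have h8 : 8 * (6 * b * Real.log x) * x ≤ x / 2 * x := by
      apply mul_le_mul_of_nonneg_right _ hx0.le
      linarith
    nlinarith
  · have h9 : Real.log x ^ 2 ≤ (1 / (216 * b) * x ^ (1 / 2 : ℝ)) ^ 2 :=
      pow_le_pow_left₀ (by linarith) h4 2
    have h10 : (x ^ (1 / 2 : ℝ)) ^ 2 = x := by
      rw [← Real.rpow_natCast, ← Real.rpow_mul hx0.le]
      norm_num
    rw [mul_pow, h10] at h9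
    calc 216 * b * Real.log x ^ 2 ≤ 216 * b * ((1 / (216 * b)) ^ 2 * x) := by gcongr
      _ = x / (216 * b) := by field_simp
      _ ≤ x := div_le_self hx0.le (by linarith)

theorem near_meas (β ε : ℝ) (hε : 0 < ε) : ∃ C c T₀ : ℝ, 0 < C ∧ 0 < c ∧ 10 ≤ T₀ ∧
    ∀ T : ℝ, T₀ ≤ T → volume.real {t ∈ Ioc T (2 * T) |
      NearH β (C * Real.log (Real.log T)) (thr c T) t} ≤ ε * T := by
  obtain ⟨b, c₁, T₁, hb, hc₁, hT₁, hmeas⟩ := meas_L β ε hε
  obtain ⟨T₂, hT₂, hlat⟩ := exists_LatD β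
  have hb0 : 0 < b := by linarith
  set c : ℝ := min (1 / (33696 * b ^ 2)) (√c₁ / (29952 * b)) with hc
  have hsc₁ : 0 < √c₁ := Real.sqrt_pos.mpr hc₁
  have hc0 : 0 < c := lt_min (by positivity) (by positivity)
  have hcb1 : 33696 * b ^ 2 * c ≤ 1 := by
    have h1 : c ≤ 1 / (33696 * b ^ 2) := min_le_left _ _
    rw [le_div_iff₀ (by positivity)] at h1
    linarith
  have hcb2 : 29952 * b * c ≤ √c₁ := by
    have h1 : c ≤ √c₁ / (29952 * b) := min_le_right _ _
    rw [le_div_iff₀ (by positivity)] at h1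
    linarith
  have hcb3 : 29952 * b * c ≤ 1 := by
    have h1 : b ≤ b ^ 2 := by nlinarith
    have h2 : 29952 * b * c ≤ 33696 * b ^ 2 * c := by
      apply mul_le_mul_of_nonneg_right _ hc0.le
      nlinarith
    linarith
  obtain ⟨T₃, hT₃⟩ := eventually_atTop.mp (Real.tendsto_log_atTop.eventually (x_ev b hb))
  obtain ⟨T₄, hT₄⟩ := eventually_atTop.mp
    ((Real.isLittleO_log_id_atTop).bound (show (0 : ℝ) < 1 / (24 * b) by positivity))
  refine ⟨6 * b, c, max (max T₁ T₂) (max T₃ (max T₄ 10)), by positivity, hc0,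
    hT₁.trans ((le_max_left _ _).trans (le_max_left _ _)), ?_⟩
  intro T hT
  have hTT1 : T₁ ≤ T := (le_max_left _ _).trans ((le_max_left _ _).trans hT)
  have hTT2 : T₂ ≤ T := (le_max_right _ _).trans ((le_max_left _ _).trans hT)
  have hTT3 : T₃ ≤ T := (le_max_left _ _).trans ((le_max_right _ _).trans hT)
  have hTT4 : T₄ ≤ T :=
    (le_max_left _ _).trans ((le_max_right _ _).trans ((le_max_right _ _).trans hT))
  have hT10 : 10 ≤ T :=
    (le_max_right _ _).trans ((le_max_right _ _).trans ((le_max_right _ _).trans hT))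
  have hT0 : 0 < T := by linarith
  obtain ⟨x1, x2, x3, x4⟩ := hT₃ T hTT3
  have x5 := hT₄ T hTT4
  set ℓ := Real.log T with hℓ
  have hbm : 0 ≤ b * Real.log ℓ := mul_nonneg hb0.le (by linarith)
  have hℓ10 : 10 ≤ ℓ := by linarith
  have hℓ0 : 0 < ℓ := by linarith
  rw [Real.norm_eq_abs, Real.norm_eq_abs, id_eq, abs_of_nonneg hℓ0.le, abs_of_pos hT0] at x5
  set m := Real.log ℓ with hm
  have hmℓ : m ≤ ℓ := by
    have := Real.log_le_sub_one_of_pos hℓ0
    linarith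
  set W : ℝ := 5 * b * m + 3 with hW
  have hW6 : W ≤ 6 * b * m := by
    rw [hW]
    nlinarith
  have hW1 : 1 ≤ W := by
    have : 0 ≤ 5 * b * m := by positivity
    linarith
  have hWT : W ≤ T / 4 := by
    have h1 : 6 * b * m ≤ 6 * b * (1 / (24 * b) * T) := by
      apply mul_le_mul_of_nonneg_left (hmℓ.trans x5) (by positivity)
    have h2 : 6 * b * (1 / (24 * b) * T) = T / 4 := by
      field_simp
      norm_num
    linarith
  have hsℓ : 0 < √ℓ := Real.sqrt_pos.mpr hℓ0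
  have hsℓ1 : 1 ≤ √ℓ := by
    rw [Real.le_sqrt (by norm_num) hℓ0.le]
    linarith
  have hsq : √ℓ * √ℓ = ℓ := Real.mul_self_sqrt hℓ0.le
  have h32 : ℓ ^ (3 / 2 : ℝ) = ℓ * √ℓ := by
    rw [Real.sqrt_eq_rpow, ← Real.rpow_one_add' hℓ0.le (by norm_num)]
    norm_num
  set δ := thr c T with hδ
  have hδe : δ = c / (ℓ * √ℓ * m ^ 2) := by
    rw [hδ]
    unfold thr
    rw [← hℓ, ← hm, h32]
  have hm0 : 0 < m := by linarith
  have hδ0 : 0 < δ := by
    rw [hδe]
    positivity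
  have hδm : δ * m ^ 2 ≤ c := by
    rw [hδe]
    have h1 : 1 ≤ ℓ * √ℓ := by nlinarith
    have e1 : c / (ℓ * √ℓ * m ^ 2) * m ^ 2 = c / (ℓ * √ℓ) := by
      field_simp
    rw [e1]
    exact div_le_self hc0.le h1
  have hδ104 : 104 * W * δ ≤ 1 := by
    have h1 : 104 * W * δ ≤ 104 * (6 * b * m) * δ := by gcongr
    have h2 : 104 * (6 * b * m) * δ ≤ 624 * b * (δ * m ^ 2) := by
      have : m ≤ m ^ 2 := by nlinarith
      calc 104 * (6 * b * m) * δ = 624 * b * (δ * m) := by ring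
        _ ≤ 624 * b * (δ * m ^ 2) := by gcongr
    have h3 : 624 * b * (δ * m ^ 2) ≤ 624 * b * c := by gcongr
    nlinarith
  have hδ4 : δ ≤ 1 / 4 := by
    have h1 : 104 * 1 * δ ≤ 104 * W * δ := by gcongr
    linarith
  set η : ℝ := 104 * W * δ with hη
  have hη0 : 0 ≤ η := by positivity
  set ω : ℝ := 29952 * b * c / √ℓ with hω
  have hω0 : 0 ≤ ω := by positivity
  have hω1 : ω ≤ 1 := by
    rw [hω, div_le_one hsℓ]
    linarith
  have hω2 : ω ^ 2 * ℓ ≤ c₁ := by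
    have e1 : ω ^ 2 * ℓ = (29952 * b * c) ^ 2 := by
      rw [hω, div_pow, sq √ℓ, hsq]
      field_simp
    rw [e1]
    calc (29952 * b * c) ^ 2 ≤ √c₁ ^ 2 := pow_le_pow_left₀ (by positivity) hcb2 2
      _ = c₁ := Real.sq_sqrt hc₁.le
  apply hmeas T hTT1 ω hω0 hω1 hω2 _ (fun t ht => ht.1)
  rintro t ⟨ht, hN⟩
  have hN' : NearH β W δ t := NearH_mono hW6 le_rfl hN
  obtain ⟨zs, lam, u, hL, hcard, hsum⟩ := hlat T hTT2 W hW1 hWT t ht.1.le ht.2 δ hδ0.le hδ4 hδ104 hN'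
  have hcard2 : (zs.card : ℝ) ≤ 9 * W * ℓ := by
    refine hcard.trans ?_
    have : 1 ≤ W * ℓ := by nlinarith
    linarith
  have hWm : W * W ≤ 36 * b ^ 2 * m ^ 2 := by
    calc W * W ≤ (6 * b * m) * (6 * b * m) := mul_le_mul hW6 hW6 (by linarith) (by positivity)
      _ = _ := by ring
  refine ⟨η, zs, lam, u, hL, hη0, hδ104, ?_, ?_, ?_⟩
  · calc (zs.card : ℝ) * η ≤ (9 * W * ℓ) * η := mul_le_mul_of_nonneg_right hcard2 hη0
      _ = 936 * (W * W) * (ℓ * δ) := by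
        rw [hη]
        ring
      _ ≤ 936 * (36 * b ^ 2 * m ^ 2) * (ℓ * δ) := by gcongr
      _ = 33696 * b ^ 2 * c / √ℓ := by
        rw [hδe]
        field_simp
        norm_num
      _ ≤ 1 / √ℓ := by gcongr
  · intro z hz _
    have h1 := hsum z hz
    have h2 : ∑ y ∈ zs, η / ‖z - (⟨0, lam y⟩ : ℂ)‖ = η * ∑ y ∈ zs, 1 / ‖z - (⟨0, lam y⟩ : ℂ)‖ := by
      rw [Finset.mul_sum]
      apply Finset.sum_congr rfl
      intro y _
      rw [mul_one_div]
    rw [h2]
    have h3 : Real.log (8 * W * ℓ + 1) ≤ 2 * m := by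
      have h4 : 8 * W * ℓ + 1 ≤ ℓ ^ 2 := by
        refine le_trans ?_ x3
        gcongr
      have h5 := Real.log_le_log (by positivity) h4
      rwa [Real.log_pow, Nat.cast_ofNat] at h5
    calc η * ∑ y ∈ zs, 1 / ‖z - (⟨0, lam y⟩ : ℂ)‖ ≤
        η * (16 * ℓ * (1 + Real.log (8 * W * ℓ + 1))) := mul_le_mul_of_nonneg_left h1 hη0
      _ ≤ η * (16 * ℓ * (3 * m)) := by
        gcongr
        linarith
      _ ≤ (104 * (6 * b * m) * δ) * (16 * ℓ * (3 * m)) := by
        apply mul_le_mul_of_nonneg_right _ (by positivity)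
        rw [hη]
        gcongr
      _ = ω := by
        rw [hω, hδe]
        field_simp
        norm_num
  · have h1 : 2 * W + 10 ≤ ℓ := by linarith
    have h2 : Real.log (2 * W + 10) ≤ m := Real.log_le_log (by linarith) h1
    calc (zs.card : ℝ) * Real.log (2 * W + 10) ≤ (9 * W * ℓ) * m := by
          apply mul_le_mul hcard2 h2 _ (by positivity)
          exact Real.log_nonneg (by linarith)
      _ ≤ (9 * (6 * b * m) * ℓ) * m := by gcongr
      _ = 216 * b * m ^ 2 * ℓ / 4 := by ring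
      _ ≤ ℓ * ℓ / 4 := by gcongr
      _ = ℓ ^ 2 / 4 := by ring

end Pool.Agent.T9h53.AH
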