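import Pool.Agent.T9h53.AH.Fin

/-! # Counting -/

set_option autoImplicit false

open Complex Filter Topology Set MeasureTheory

namespace Pool.Agent.T9h53.AH

/-- the indices of the exceptional spacings -/
def FarS (β δ T : ℝ) : Set ℕ := {j : ℕ | 1 ≤ j ∧ T ≤ _root_.SG.ord j ∧
  _root_.SG.ord (j + 1) ≤ 3 * T ∧ ∀ k : ℕ, 1 ≤ k →
    δ ≤ |xb β (_root_.SG.ord (j + 1)) - xb β (_root_.SG.ord j) - k / 2|}

lemma FarS_finite (β δ T : ℝ) : (FarS β δ T).Finite := by
  refine (Set.finite_Iic (_root_.SG.NZ (3 * T))).subset ?_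
  rintro j ⟨h1, -, h3, -⟩
  have := (_root_.SG.ord_le_iff (by omega) _).mp h3
  simp only [Set.mem_Iic]
  omega

theorem count_le {β δ T L M : ℝ} (hT : 0 < T) (hL : 0 < L) (hLT : L ≤ T / 4)
    (hM : volume.real {t ∈ Ioc T (2 * T) | NearH β L δ t} ≤ T / 2) (hM2 : M * (8 * L) ≤ T) :
    M ≤ ((FarS β δ T).ncard : ℝ) := by
  classical
  have hfin := FarS_finite β δ T
  set F := hfin.toFinset with hF
  have hsub : Ioc (T + L) (2 * T) ⊆ {t ∈ Ioc T (2 * T) | NearH β L δ t} ∪
      ⋃ j ∈ F, Icc (_root_.SG.ord j - L) (_root_.SG.ord j + L) := by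
    intro t ht
    by_cases hN : NearH β L δ t
    · left
      exact ⟨⟨by linarith [ht.1], ht.2⟩, hN⟩
    · right
      unfold NearH at hN
      push Not at hN
      obtain ⟨j, h1, h2, h3, h4⟩ := hN
      have h5 := _root_.SG.ord_mono h1 (Nat.le_succ j)
      simp only [Set.mem_iUnion, exists_prop]
      refine ⟨j, ?_, ⟨by linarith, by linarith⟩⟩
      rw [hF, Set.Finite.mem_toFinset]
      refine ⟨h1, by linarith [ht.1], by linarith [ht.2], h4⟩
  have hfin2 : volume ({t ∈ Ioc T (2 * T) | NearH β L δ t} ∪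
      ⋃ j ∈ F, Icc (_root_.SG.ord j - L) (_root_.SG.ord j + L)) ≠ ⊤ := by
    refine ((measure_union_le _ _).trans_lt ?_).ne
    refine ENNReal.add_lt_top.mpr ⟨(measure_mono (fun t ht => ht.1)).trans_lt
      (measure_Ioc_lt_top (a := T) (b := 2 * T)), ?_⟩
    refine (measure_biUnion_finset_le _ _).trans_lt ?_
    exact ENNReal.sum_lt_top.mpr fun j _ => measure_Icc_lt_top
  have h1 := measureReal_mono hsub hfin2
  have h2 := measureReal_union_le (μ := volume) {t ∈ Ioc T (2 * T) | NearH β L δ t}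
    (⋃ j ∈ F, Icc (_root_.SG.ord j - L) (_root_.SG.ord j + L))
  have h3 : volume.real (⋃ j ∈ F, Icc (_root_.SG.ord j - L) (_root_.SG.ord j + L)) ≤
      ∑ _j ∈ F, 2 * L := by
    refine (measureReal_biUnion_finset_le _ _).trans (Finset.sum_le_sum fun j _ => ?_)
    rw [Real.volume_real_Icc_of_le (by linarith)]
    linarith
  rw [Finset.sum_const, nsmul_eq_mul] at h3
  rw [Real.volume_real_Ioc_of_le (by linarith)] at h1
  have h4 : (F.card : ℝ) = ((FarS β δ T).ncard : ℝ) := by
    rw [hF, Set.ncard_eq_toFinset_card _ hfin]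
  rw [← h4]
  have h5 : T / 4 ≤ F.card * (2 * L) := by linarith
  have h6 : M * (8 * L) ≤ F.card * (8 * L) := by linarith
  exact le_of_mul_le_mul_right h6 (by positivity)

theorem near_all (β ε : ℝ) (hε : 0 < ε) : ∃ C c T₀ : ℝ, 0 < C ∧ 0 < c ∧ ∀ T : ℝ, T₀ ≤ T →
    volume {t : ℝ | T ≤ t ∧ t ≤ 2 * T ∧ NearH β (C * Real.log (Real.log T)) (thr c T) t} ≤
      ENNReal.ofReal (ε * T) ∧
    c * T / Real.log (Real.log T) ≤ ((FarS β (thr c T) T).ncard : ℝ) := by
  obtain ⟨C, c, T₁, hC, hc, hT₁, h⟩ := near_meas β (min ε (1 / 2)) (by positivity)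
  have hll : Tendsto (fun t : ℝ => Real.log (Real.log t)) atTop atTop :=
    Real.tendsto_log_atTop.comp Real.tendsto_log_atTop
  obtain ⟨T₂, hT₂⟩ := eventually_atTop.mp
    ((Real.isLittleO_log_id_atTop).bound (show (0 : ℝ) < 1 / (4 * C) by positivity))
  obtain ⟨T₃, hT₃⟩ := eventually_atTop.mp (hll.eventually_ge_atTop 1)
  set c' : ℝ := min c (1 / (8 * C)) with hc'
  have hc'0 : 0 < c' := by positivity
  refine ⟨C, c', max (max T₁ T₂) T₃, hC, hc'0, fun T hT => ?_⟩
  have hTT1 : T₁ ≤ T := (le_max_left _ _).trans ((le_max_left _ _).trans hT)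
  have hTT2 : T₂ ≤ T := (le_max_right _ _).trans ((le_max_left _ _).trans hT)
  have hTT3 : T₃ ≤ T := (le_max_right _ _).trans hT
  have hT10 : 10 ≤ T := hT₁.trans hTT1
  have hT0 : 0 < T := by linarith
  have h1 := h T hTT1
  have h2 := hT₂ T hTT2
  have h3 := hT₃ T hTT3
  have hℓ1 : 1 ≤ Real.log T := by
    rw [Real.le_log_iff_exp_le hT0]
    have := Real.exp_one_lt_three
    linarith
  have hm : Real.log (Real.log T) ≤ Real.log T := by
    have := Real.log_le_sub_one_of_pos (show 0 < Real.log T by linarith)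
    linarith
  rw [Real.norm_eq_abs, Real.norm_eq_abs, id_eq, abs_of_nonneg (by linarith), abs_of_pos hT0] at h2
  set L := C * Real.log (Real.log T) with hL
  have hL0 : 0 < L := by positivity
  have hLT : L ≤ T / 4 := by
    calc L ≤ C * (1 / (4 * C) * T) := mul_le_mul_of_nonneg_left (hm.trans h2) hC.le
      _ = T / 4 := by field_simp
  have hthr : thr c' T ≤ thr c T := by
    unfold thr
    apply div_le_div_of_nonneg_right (min_le_left _ _)
    positivity
  have hsub : {t ∈ Ioc T (2 * T) | NearH β L (thr c' T) t} ⊆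
      {t ∈ Ioc T (2 * T) | NearH β L (thr c T) t} :=
    fun t ht => ⟨ht.1, NearH_mono le_rfl hthr ht.2⟩
  have hfinm : volume {t ∈ Ioc T (2 * T) | NearH β L (thr c T) t} ≠ ⊤ :=
    ((measure_mono (fun t ht => ht.1)).trans_lt (measure_Ioc_lt_top (a := T) (b := 2 * T))).ne
  have h4 : volume.real {t ∈ Ioc T (2 * T) | NearH β L (thr c' T) t} ≤ min ε (1 / 2) * T :=
    (measureReal_mono hsub hfinm).trans h1
  constructor
  · have h5 : {t : ℝ | T ≤ t ∧ t ≤ 2 * T ∧ NearH β L (thr c' T) t} ⊆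
        {t ∈ Ioc T (2 * T) | NearH β L (thr c' T) t} ∪ {T} := by
      rintro t ⟨a1, a2, a3⟩
      rcases eq_or_lt_of_le a1 with h | h
      · right
        exact h.symm
      · left
        exact ⟨⟨h, a2⟩, a3⟩
    have h6 : volume ({t ∈ Ioc T (2 * T) | NearH β L (thr c' T) t} ∪ {T}) ≤
        volume {t ∈ Ioc T (2 * T) | NearH β L (thr c' T) t} := by
      refine (measure_union_le _ _).trans ?_
      rw [Real.volume_singleton, add_zero]
    refine (measure_mono h5).trans (h6.trans ?_)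
    have h7 : volume {t ∈ Ioc T (2 * T) | NearH β L (thr c' T) t} ≠ ⊤ :=
      ((measure_mono (fun t ht => ht.1)).trans_lt (measure_Ioc_lt_top (a := T) (b := 2 * T))).ne
    rw [← ENNReal.ofReal_toReal h7]
    apply ENNReal.ofReal_le_ofReal
    refine h4.trans ?_
    exact mul_le_mul_of_nonneg_right (min_le_left _ _) hT0.le
  · apply count_le hT0 hL0 hLT
    · refine h4.trans ?_
      have : min ε (1 / 2) * T ≤ 1 / 2 * T := mul_le_mul_of_nonneg_right (min_le_right _ _) hT0.le
      linarith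
    · have h8 : c' ≤ 1 / (8 * C) := min_le_right _ _
      have h9 : 0 < Real.log (Real.log T) := by linarith
      calc c' * T / Real.log (Real.log T) * (8 * L) = c' * (8 * C) * T := by
            rw [hL]
            field_simp
        _ ≤ 1 / (8 * C) * (8 * C) * T := by gcongr
        _ = T := by field_simp

end Pool.Agent.T9h53.AH
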