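import Pool.Agent.T9h53.SZ.MV

/-! # The mean value theorem for Dirichlet polynomials without logarithms -/

set_option autoImplicit false

open Complex Filter Topology Set MeasureTheory

namespace Pool.Agent.T9h53.AH

open Pool.Agent.T9h53.SZ

lemma inj_sum (S : Finset ℕ) (φ : ℕ → ℕ) (hφ : Set.InjOn φ S) (K : ℕ) (hK : ∀ m ∈ S, φ m < K)
    (h : ℕ → ℝ) (h0 : ∀ k, 0 ≤ h k) : ∑ m ∈ S, h (φ m) ≤ ∑ k ∈ Finset.range K, h k := by
  rw [← Finset.sum_image hφ]
  apply Finset.sum_le_sum_of_subset_of_nonneg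
  · intro k hk
    obtain ⟨m, hm, rfl⟩ := Finset.mem_image.mp hk
    exact Finset.mem_range.mpr (hK m hm)
  · intro k _ _
    exact h0 k

lemma cauchy_sum {c : ℝ} (hc : 0 < c) (K : ℕ) :
    ∑ k ∈ Finset.range K, 1 / (1 + c ^ 2 * (k : ℝ) ^ 2) ≤ 1 + 2 / c := by
  have key : ∀ K : ℕ, ∑ k ∈ Finset.range (K + 1), 1 / (1 + c ^ 2 * (k : ℝ) ^ 2) ≤
      1 + 2 / c * (c * K / (1 + c * K)) := by
    intro K
    induction K with
    | zero => simp
    | succ K ih =>
      rw [Finset.sum_range_succ]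
      refine (add_le_add_left ih _).trans ?_
      have h1 : 1 / (1 + c ^ 2 * ((K + 1 : ℕ) : ℝ) ^ 2) ≤
          2 / c * (c * ((K + 1 : ℕ) : ℝ) / (1 + c * ((K + 1 : ℕ) : ℝ)) -
            c * K / (1 + c * K)) := by
        push_cast
        have hK : (0 : ℝ) ≤ K := Nat.cast_nonneg K
        have e1 : 2 / c * (c * ((K : ℝ) + 1) / (1 + c * ((K : ℝ) + 1)) - c * K / (1 + c * K)) =
            2 / ((1 + c * ((K : ℝ) + 1)) * (1 + c * K)) := by
          have : 1 + c * (K : ℝ) ≠ 0 := by positivity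
          have : 1 + c * ((K : ℝ) + 1) ≠ 0 := by positivity
          field_simp
          ring
        rw [e1, div_le_div_iff₀ (by positivity) (by positivity)]
        nlinarith [sq_nonneg (c * ((K : ℝ) + 1) - 1), mul_nonneg hc.le hK,
          mul_nonneg (mul_nonneg hc.le hK) hc.le]
      linarith
  rcases Nat.eq_zero_or_pos K with rfl | hK
  · simp
    positivity
  · obtain ⟨K', rfl⟩ : ∃ K', K = K' + 1 := ⟨K - 1, by omega⟩
    refine (key K').trans ?_
    have h1 : c * (K' : ℝ) / (1 + c * K') ≤ 1 := by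
      rw [div_le_one (by positivity)]
      linarith
    have h2 : 0 < 2 / c := by positivity
    nlinarith

lemma exp_sq_le (x : ℝ) : Real.exp (-x ^ 2) ≤ 1 / (1 + x ^ 2) := by
  rw [Real.exp_neg, ← one_div]
  apply one_div_le_one_div_of_le (by positivity)
  have := Real.add_one_le_exp (x ^ 2)
  linarith

lemma log_ratio {m n : ℕ} (hm : 1 ≤ m) (hn : 1 ≤ n) {M : ℝ} (h1 : (m : ℝ) ≤ M) (h2 : (n : ℝ) ≤ M) :
    (((m : ℝ) - n) / M) ^ 2 ≤ (Real.log n - Real.log m) ^ 2 := by
  have hm0 : (0 : ℝ) < m := by exact_mod_cast hm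
  have hn0 : (0 : ℝ) < n := by exact_mod_cast hn
  have hM : 0 < M := lt_of_lt_of_le hm0 h1
  have key : ∀ a b : ℝ, 0 < a → a ≤ b → b ≤ M → (b - a) / M ≤ Real.log b - Real.log a := by
    intro a b ha hab hb
    have hb0 : 0 < b := lt_of_lt_of_le ha hab
    have e1 := Real.log_le_sub_one_of_pos (div_pos ha hb0)
    rw [Real.log_div ha.ne' hb0.ne'] at e1
    have e2 : (b - a) / M ≤ (b - a) / b := by
      apply div_le_div_of_nonneg_left (by linarith) hb0 hb
    have e3 : (b - a) / b = 1 - a / b := by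
      field_simp
    linarith
  rcases le_total (m : ℝ) n with h | h
  · have h3 := key m n hm0 h h2
    have h4 : 0 ≤ ((n : ℝ) - m) / M := div_nonneg (by linarith) hM.le
    have : ((m : ℝ) - n) / M = -(((n : ℝ) - m) / M) := by ring
    rw [this, neg_sq]
    exact pow_le_pow_left₀ h4 h3 2
  · have h3 := key n m hn0 h h1
    have h4 : 0 ≤ ((m : ℝ) - n) / M := div_nonneg (by linarith) hM.le
    have : (Real.log n - Real.log m) ^ 2 = (Real.log m - Real.log n) ^ 2 := by ring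
    rw [this]
    exact pow_le_pow_left₀ h4 h3 2

/-- the sum of the kernel -/
lemma ker_sum {B : ℝ} (hB : 10 ≤ B) (S : Finset ℕ) (hS : ∀ m ∈ S, 1 ≤ m) {n : ℕ} (hn : 1 ≤ n) :
    ∑ m ∈ S, Real.exp (-(B ^ 2 * (Real.log n - Real.log m) ^ 2 / 4)) ≤ 2 + 20 * n / B := by
  have hB0 : 0 < B := by linarith
  have hn0 : (0 : ℝ) < n := by exact_mod_cast hn
  set c : ℝ := B / (4 * n) with hc
  have hc0 : 0 < c := by positivity
  -- near terms
  have hnear : ∀ m : ℕ, 1 ≤ m → m ≤ 2 * n →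
      Real.exp (-(B ^ 2 * (Real.log n - Real.log m) ^ 2 / 4)) ≤
        1 / (1 + c ^ 2 * ((m : ℝ) - n) ^ 2) := by
    intro m hm hmn
    have h1 := log_ratio hm hn (M := 2 * n) (by exact_mod_cast hmn) (by linarith)
    have h2 : c ^ 2 * ((m : ℝ) - n) ^ 2 ≤ B ^ 2 * (Real.log n - Real.log m) ^ 2 / 4 := by
      have e1 : c ^ 2 * ((m : ℝ) - n) ^ 2 = B ^ 2 * (((m : ℝ) - n) / (2 * n)) ^ 2 / 4 := by
        rw [hc]
        field_simp
        ring
      rw [e1]
      gcongr
    calc Real.exp (-(B ^ 2 * (Real.log n - Real.log m) ^ 2 / 4)) ≤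
          Real.exp (-(c * ((m : ℝ) - n)) ^ 2) := by
          apply Real.exp_le_exp.mpr
          rw [mul_pow]
          linarith
      _ ≤ 1 / (1 + (c * ((m : ℝ) - n)) ^ 2) := exp_sq_le _
      _ = _ := by rw [mul_pow]
  have hfar : ∀ m : ℕ, 2 * n < m →
      Real.exp (-(B ^ 2 * (Real.log n - Real.log m) ^ 2 / 4)) ≤
        20 / B ^ 2 * ((n : ℝ) ^ 2 * ((m : ℝ) ^ 2)⁻¹) := by
    intro m hm
    have hm2 : 2 * (n : ℝ) < m := by exact_mod_cast hm
    have hm0 : (0 : ℝ) < m := by linarith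
    set l : ℝ := Real.log m - Real.log n with hl
    have hl2 : Real.log 2 ≤ l := by
      rw [hl, ← Real.log_div hm0.ne' hn0.ne']
      apply Real.log_le_log (by norm_num)
      rw [le_div_iff₀ hn0]
      exact hm2.le
    have hlog2 := Real.log_two_gt_d9
    have hl0 : 0.69 ≤ l := by linarith
    have e1 : B ^ 2 * (Real.log n - Real.log m) ^ 2 / 4 = B ^ 2 * l ^ 2 / 8 + B ^ 2 * l ^ 2 / 8 := by
      rw [hl]
      ring
    rw [e1, neg_add, Real.exp_add]
    have e2 : Real.exp (-(B ^ 2 * l ^ 2 / 8)) ≤ 20 / B ^ 2 := by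
      rw [Real.exp_neg, ← one_div]
      have h1 := Real.add_one_le_exp (B ^ 2 * l ^ 2 / 8)
      have h2 : B ^ 2 / 20 ≤ B ^ 2 * l ^ 2 / 8 := by
        have : 0.47 ≤ l ^ 2 := by nlinarith
        nlinarith [sq_nonneg B]
      calc 1 / Real.exp (B ^ 2 * l ^ 2 / 8) ≤ 1 / (B ^ 2 / 20) := by
            apply one_div_le_one_div_of_le (by positivity)
            linarith
        _ = 20 / B ^ 2 := by
            field_simp
    have e3 : Real.exp (-(B ^ 2 * l ^ 2 / 8)) ≤ (n : ℝ) ^ 2 * ((m : ℝ) ^ 2)⁻¹ := by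
      have h1 : (n : ℝ) ^ 2 * ((m : ℝ) ^ 2)⁻¹ = Real.exp (-(2 * l)) := by
        rw [hl]
        have : -(2 * (Real.log m - Real.log n)) = Real.log n * 2 + -(Real.log m * 2) := by ring
        rw [this, Real.exp_add, Real.exp_neg, mul_comm (Real.log n) 2, mul_comm (Real.log m) 2,
          ← Real.log_rpow hn0, ← Real.log_rpow hm0, Real.exp_log (by positivity),
          Real.exp_log (by positivity)]
        norm_cast
      rw [h1]
      apply Real.exp_le_exp.mpr
      have : 100 ≤ B ^ 2 := by nlinarith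
      nlinarith
    exact mul_le_mul e2 e3 (Real.exp_pos _).le (by positivity)
  -- splitting
  rw [← Finset.sum_filter_add_sum_filter_not S (fun m => m ≤ n)]
  rw [← Finset.sum_filter_add_sum_filter_not (S.filter fun m => ¬ m ≤ n) (fun m => m ≤ 2 * n)]
  have s1 : ∑ m ∈ S with m ≤ n, Real.exp (-(B ^ 2 * (Real.log n - Real.log m) ^ 2 / 4)) ≤
      1 + 2 / c := by
    calc _ ≤ ∑ m ∈ S with m ≤ n, 1 / (1 + c ^ 2 * (((n - m : ℕ) : ℝ)) ^ 2) := by
          apply Finset.sum_le_sum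
          intro m hm
          rw [Finset.mem_filter] at hm
          have h1 := hnear m (hS m hm.1) (by omega)
          rw [Nat.cast_sub hm.2]
          have : ((n : ℝ) - m) ^ 2 = ((m : ℝ) - n) ^ 2 := by ring
          rwa [this]
      _ ≤ ∑ k ∈ Finset.range (n + 1), 1 / (1 + c ^ 2 * (k : ℝ) ^ 2) := by
          apply inj_sum _ (fun m => n - m) _ (n + 1) _ (fun k => 1 / (1 + c ^ 2 * (k : ℝ) ^ 2))
          · intro k
            positivity
          · intro x hx y hy hxy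
            simp only [Finset.coe_filter, mem_setOf_eq] at hx hy
            simp only at hxy
            omega
          · intro m _
            omega
      _ ≤ _ := cauchy_sum hc0 _
  have s2 : ∑ m ∈ (S.filter fun m => ¬ m ≤ n) with m ≤ 2 * n,
      Real.exp (-(B ^ 2 * (Real.log n - Real.log m) ^ 2 / 4)) ≤ 1 + 2 / c := by
    calc _ ≤ ∑ m ∈ (S.filter fun m => ¬ m ≤ n) with m ≤ 2 * n,
            1 / (1 + c ^ 2 * (((m - n : ℕ) : ℝ)) ^ 2) := by
          apply Finset.sum_le_sum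
          intro m hm
          rw [Finset.mem_filter, Finset.mem_filter] at hm
          have h1 := hnear m (hS m hm.1.1) hm.2
          rw [Nat.cast_sub (by omega)]
          exact h1
      _ ≤ ∑ k ∈ Finset.range (n + 1), 1 / (1 + c ^ 2 * (k : ℝ) ^ 2) := by
          apply inj_sum _ (fun m => m - n) _ (n + 1) _ (fun k => 1 / (1 + c ^ 2 * (k : ℝ) ^ 2))
          · intro k
            positivity
          · intro x hx y hy hxy
            simp only [Finset.coe_filter, Finset.mem_filter, mem_setOf_eq] at hx hy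
            simp only at hxy
            omega
          · intro m hm
            rw [Finset.mem_filter] at hm
            omega
      _ ≤ _ := cauchy_sum hc0 _
  have s3 : ∑ m ∈ (S.filter fun m => ¬ m ≤ n) with ¬ m ≤ 2 * n,
      Real.exp (-(B ^ 2 * (Real.log n - Real.log m) ^ 2 / 4)) ≤ 20 / B ^ 2 * ((n : ℝ) ^ 2 *
        (((2 * n : ℕ) : ℝ))⁻¹) := by
    set S' := (S.filter fun m => ¬ m ≤ n).filter fun m => ¬ m ≤ 2 * n with hS'
    calc _ ≤ ∑ m ∈ S', 20 / B ^ 2 * ((n : ℝ) ^ 2 * ((m : ℝ) ^ 2)⁻¹) := by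
          apply Finset.sum_le_sum
          intro m hm
          rw [hS', Finset.mem_filter] at hm
          exact hfar m (by omega)
      _ = 20 / B ^ 2 * ((n : ℝ) ^ 2 * ∑ m ∈ S', ((m : ℝ) ^ 2)⁻¹) := by
          rw [Finset.mul_sum, Finset.mul_sum]
      _ ≤ _ := by
          gcongr
          have h1 : S' ⊆ Finset.Ioc (2 * n) (max (2 * n) (S'.sup id)) := by
            intro m hm
            rw [Finset.mem_Ioc]
            have h2 : m ≤ S'.sup id := Finset.le_sup (f := id) hm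
            rw [hS', Finset.mem_filter] at hm
            exact ⟨by omega, le_max_of_le_right h2⟩
          refine (Finset.sum_le_sum_of_subset_of_nonneg h1 (fun _ _ _ => by positivity)).trans ?_
          refine (sum_Ioc_inv_sq_le_sub (by omega) (le_max_left _ _)).trans ?_
          have : (0 : ℝ) ≤ (((max (2 * n) (S'.sup id) : ℕ) : ℝ))⁻¹ := by positivity
          linarith
  have e1 : 2 / c = 8 * n / B := by
    rw [hc]
    field_simp
    ring
  have e2 : 20 / B ^ 2 * ((n : ℝ) ^ 2 * (((2 * n : ℕ) : ℝ))⁻¹) ≤ n / B := by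
    push_cast
    have : 20 / B ^ 2 * ((n : ℝ) ^ 2 * (2 * (n : ℝ))⁻¹) = (n / B) * (10 / B) := by
      field_simp
      ring
    rw [this]
    apply mul_le_of_le_one_right (by positivity)
    rw [div_le_one hB0]
    exact hB
  rw [e1] at s1 s2
  have : 20 * (n : ℝ) / B = 8 * n / B + 8 * n / B + n / B + 3 * (n / B) := by ring
  have h4 : 0 ≤ (n : ℝ) / B := by positivity
  linarith

/-- **mean value theorem** for Dirichlet polynomials -/
theorem mv_nat (S : Finset ℕ) (hS : ∀ m ∈ S, 1 ≤ m) (b : ℕ → ℂ) (a : ℝ) {B : ℝ} (hB : 10 ≤ B) :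
    ∫ u in a..(a + B), ‖∑ n ∈ S, b n * cexp (((Real.log n : ℝ) : ℂ) * ⟨0, u⟩)‖ ^ 2 ≤
      100 * ∑ n ∈ S, ‖b n‖ ^ 2 * (B + n) := by
  classical
  have hB0 : 0 < B := by linarith
  refine (mean_value S b (fun n => Real.log n) a hB0).trans ?_
  have h1 : ∑ z ∈ S ×ˢ S, ‖b z.1‖ * ‖b z.2‖ *
      Real.exp (-(B ^ 2 * (Real.log z.1 - Real.log z.2) ^ 2 / 4)) ≤
      ∑ z ∈ S ×ˢ S, (‖b z.1‖ ^ 2 / 2 * Real.exp (-(B ^ 2 * (Real.log z.1 - Real.log z.2) ^ 2 / 4)) +
        ‖b z.2‖ ^ 2 / 2 * Real.exp (-(B ^ 2 * (Real.log z.1 - Real.log z.2) ^ 2 / 4))) := by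
    apply Finset.sum_le_sum
    intro z _
    rw [← add_mul]
    apply mul_le_mul_of_nonneg_right _ (Real.exp_pos _).le
    nlinarith [sq_nonneg (‖b z.1‖ - ‖b z.2‖)]
  have h2 : ∑ z ∈ S ×ˢ S, ‖b z.1‖ ^ 2 / 2 *
      Real.exp (-(B ^ 2 * (Real.log z.1 - Real.log z.2) ^ 2 / 4)) ≤
      ∑ n ∈ S, ‖b n‖ ^ 2 / 2 * (2 + 20 * n / B) := by
    rw [Finset.sum_product]
    apply Finset.sum_le_sum
    intro n hn
    simp only
    rw [← Finset.mul_sum]
    exact mul_le_mul_of_nonneg_left (ker_sum hB S hS (hS n hn)) (by positivity)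
  have h3 : ∑ z ∈ S ×ˢ S, ‖b z.2‖ ^ 2 / 2 *
      Real.exp (-(B ^ 2 * (Real.log z.1 - Real.log z.2) ^ 2 / 4)) ≤
      ∑ n ∈ S, ‖b n‖ ^ 2 / 2 * (2 + 20 * n / B) := by
    rw [Finset.sum_product_right]
    apply Finset.sum_le_sum
    intro n hn
    simp only
    rw [← Finset.mul_sum]
    apply mul_le_mul_of_nonneg_left _ (by positivity)
    have := ker_sum hB S hS (hS n hn)
    refine le_trans (le_of_eq ?_) this
    apply Finset.sum_congr rfl
    intro m _
    congr 2
    ring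
  rw [Finset.sum_add_distrib] at h1
  have h4 : 5 * B * ∑ z ∈ S ×ˢ S, ‖b z.1‖ * ‖b z.2‖ *
      Real.exp (-(B ^ 2 * (Real.log z.1 - Real.log z.2) ^ 2 / 4)) ≤
      5 * B * (∑ n ∈ S, ‖b n‖ ^ 2 * (2 + 20 * n / B)) := by
    apply mul_le_mul_of_nonneg_left _ (by positivity)
    refine (h1.trans (add_le_add h2 h3)).trans (le_of_eq ?_)
    rw [← Finset.sum_add_distrib]
    apply Finset.sum_congr rfl
    intro n _
    ring
  refine h4.trans ?_
  rw [Finset.mul_sum, Finset.mul_sum]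
  apply Finset.sum_le_sum
  intro n _
  have e1 : 5 * B * (‖b n‖ ^ 2 * (2 + 20 * n / B)) = ‖b n‖ ^ 2 * (10 * B + 100 * n) := by
    field_simp
    ring
  rw [e1]
  have : (0 : ℝ) ≤ n := Nat.cast_nonneg n
  nlinarith [sq_nonneg ‖b n‖]

end Pool.Agent.T9h53.AH
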