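import Pool.Agent.T9h53.AH.Xi
import Pool.Agent.T9h53.AH.MVn
import Pool.Agent.T9h53.SZ.FI

/-! # Points close to a lattice -/

set_option autoImplicit false

open Complex Filter Topology Set

namespace Pool.Agent.T9h53.AH

lemma xb_slope (β : ℝ) {p q : ℝ} (hp : 0 < p) (hpq : p ≤ q) :
    ((Real.log p + 1) / (2 * Real.pi) + β) * (q - p) ≤ xb β q - xb β p ∧
    xb β q - xb β p ≤ ((Real.log q + 1) / (2 * Real.pi) + β) * (q - p) := by
  have hq : 0 < q := by linarith
  have hpi := Real.pi_pos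
  have e1 : xb β q - xb β p = (q * Real.log q - p * Real.log p) / (2 * Real.pi) + β * (q - p) := by
    unfold xb
    ring
  have h1 : q - p ≤ q * (Real.log q - Real.log p) := by
    have h2 := Real.one_sub_inv_le_log_of_pos (show 0 < q / p by positivity)
    rw [Real.log_div hq.ne' hp.ne', inv_div] at h2
    have h3 := mul_le_mul_of_nonneg_left h2 hq.le
    have h4 : q * (1 - p / q) = q - p := by
      field_simp
    rwa [h4] at h3
  have h2 : p * (Real.log q - Real.log p) ≤ q - p := by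
    have h2 := Real.log_le_sub_one_of_pos (show 0 < q / p by positivity)
    rw [Real.log_div hq.ne' hp.ne'] at h2
    have h3 := mul_le_mul_of_nonneg_left h2 hp.le
    have h4 : p * (q / p - 1) = q - p := by
      field_simp
    rwa [h4] at h3
  rw [e1]
  constructor
  · have h5 : (Real.log p + 1) * (q - p) ≤ q * Real.log q - p * Real.log p := by linarith
    have h6 : (Real.log p + 1) * (q - p) / (2 * Real.pi) ≤
        (q * Real.log q - p * Real.log p) / (2 * Real.pi) :=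
      div_le_div_of_nonneg_right h5 (by positivity)
    calc ((Real.log p + 1) / (2 * Real.pi) + β) * (q - p) =
        (Real.log p + 1) * (q - p) / (2 * Real.pi) + β * (q - p) := by ring
      _ ≤ _ := by linarith
  · have h5 : q * Real.log q - p * Real.log p ≤ (Real.log q + 1) * (q - p) := by linarith
    have h6 : (q * Real.log q - p * Real.log p) / (2 * Real.pi) ≤
        (Real.log q + 1) * (q - p) / (2 * Real.pi) :=
      div_le_div_of_nonneg_right h5 (by positivity)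
    calc _ ≤ (Real.log q + 1) * (q - p) / (2 * Real.pi) + β * (q - p) := by linarith
      _ = _ := by ring

lemma xb_cont (β : ℝ) : Continuous (xb β) := by
  unfold xb
  have := Real.continuous_mul_log
  fun_prop

lemma lat_gap {β ℓ δ t W : ℝ} {o : ℕ → ℝ} {j₀ n₀ : ℕ} (hℓ : 0 < ℓ) (hδ : δ ≤ 1 / 4)
    (hs : ∀ p q, t - W - 1 ≤ p → p ≤ q → q ≤ t + W + 1 →
      ℓ / 13 * (q - p) ≤ xb β q - xb β p ∧ xb β q - xb β p ≤ ℓ * (q - p))
    (hmono : ∀ j, j₀ ≤ j → j < n₀ → o j ≤ o (j + 1))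
    (hwin : ∀ j, j₀ ≤ j → j ≤ n₀ → t - W ≤ o j ∧ o j ≤ t + W)
    (hk : ∀ j, j₀ ≤ j → j < n₀ → ∃ k : ℕ, 1 ≤ k ∧ |xb β (o (j + 1)) - xb β (o j) - k / 2| < δ) :
    ∀ i j, j₀ ≤ i → i ≤ j → j ≤ n₀ → ((j : ℝ) - i) / (4 * ℓ) ≤ o j - o i := by
  intro i j hi hij
  induction j, hij using Nat.le_induction with
  | base => intro _; simp
  | succ j hij ih =>
    intro hj
    have h1 := ih (by omega)
    obtain ⟨k, hk1, hk2⟩ := hk j (by omega) (by omega)
    have hk1' : (1 : ℝ) ≤ k := by exact_mod_cast hk1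
    have h2 := (abs_lt.mp hk2).1
    have w1 := hwin j (by omega) (by omega)
    have w2 := hwin (j + 1) (by omega) (by omega)
    have h3 := (hs (o j) (o (j + 1)) (by linarith) (hmono j (by omega) (by omega)) (by linarith)).2
    have h4 : 1 / (4 * ℓ) ≤ o (j + 1) - o j := by
      rw [div_le_iff₀ (by positivity)]
      linarith
    push_cast
    have h5 : ((j : ℝ) + 1 - i) / (4 * ℓ) = ((j : ℝ) - i) / (4 * ℓ) + 1 / (4 * ℓ) := by ring
    rw [h5]
    linarith

theorem lat_data {β ℓ δ t W : ℝ} {o : ℕ → ℝ} {j₀ n₀ : ℕ} (hℓ : 0 < ℓ) (hδ0 : 0 ≤ δ)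
    (hs : ∀ p q, t - W - 1 ≤ p → p ≤ q → q ≤ t + W + 1 →
      ℓ / 13 * (q - p) ≤ xb β q - xb β p ∧ xb β q - xb β p ≤ ℓ * (q - p))
    (hwin : ∀ j, j₀ ≤ j → j ≤ n₀ → t - W ≤ o j ∧ o j ≤ t + W)
    (hk : ∀ j, j₀ ≤ j → j < n₀ → ∃ k : ℕ, 1 ≤ k ∧ |xb β (o (j + 1)) - xb β (o j) - k / 2| < δ)
    {N : ℝ} (hN0 : 0 ≤ N) (hN : (n₀ : ℝ) - j₀ ≤ N) (hη : 13 * N * δ / ℓ ≤ 1) :
    ∃ lm : ℕ → ℝ, (∀ j, j₀ ≤ j → j ≤ n₀ → |lm j - o j| ≤ 13 * N * δ / ℓ) ∧
      (∀ j, j₀ ≤ j → j ≤ n₀ → ∃ m : ℕ, xb β (lm j) = xb β (o j₀) + m / 2) ∧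
      (∀ i j, j₀ ≤ i → i ≤ j → j ≤ n₀ → ((j : ℝ) - i) / (2 * ℓ) ≤ lm j - lm i) := by
  have hk' : ∀ j, ∃ k : ℕ, j₀ ≤ j → j < n₀ →
      1 ≤ k ∧ |xb β (o (j + 1)) - xb β (o j) - k / 2| < δ := by
    intro j
    by_cases h : j₀ ≤ j ∧ j < n₀
    · obtain ⟨k, h1, h2⟩ := hk j h.1 h.2
      exact ⟨k, fun _ _ => ⟨h1, h2⟩⟩
    · exact ⟨0, fun a b => absurd ⟨a, b⟩ h⟩
  choose k hkk using hk'
  set K : ℕ → ℕ := fun j => ∑ i ∈ Finset.Ico j₀ j, k i with hK
  have hKs : ∀ j, j₀ ≤ j → K (j + 1) = K j + k j := by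
    intro j hj
    rw [hK]
    exact Finset.sum_Ico_succ_top hj _
  have hKclose : ∀ j, j₀ ≤ j → j ≤ n₀ →
      |xb β (o j) - xb β (o j₀) - K j / 2| ≤ ((j : ℝ) - j₀) * δ := by
    intro j hj
    induction j, hj using Nat.le_induction with
    | base => intro _; simp [hK]
    | succ j hj ih =>
      intro hjn
      have h1 := ih (by omega)
      have h2 := (hkk j hj (by omega)).2
      rw [hKs j hj]
      push_cast
      have e1 : xb β (o (j + 1)) - xb β (o j₀) - ((K j : ℝ) + k j) / 2 =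
          (xb β (o j) - xb β (o j₀) - K j / 2) + (xb β (o (j + 1)) - xb β (o j) - k j / 2) := by
        ring
      rw [e1]
      refine (abs_add_le _ _).trans ?_
      linarith
  set e : ℝ := N * δ with he
  have he0 : 0 ≤ e := by positivity
  set h : ℝ := 13 * N * δ / ℓ with hh
  have hh0 : 0 ≤ h := by positivity
  have hlm : ∀ j, ∃ x : ℝ, j₀ ≤ j → j ≤ n₀ → |x - o j| ≤ h ∧ xb β x = xb β (o j₀) + K j / 2 := by
    intro j
    by_cases hj : j₀ ≤ j ∧ j ≤ n₀
    · have w := hwin j hj.1 hj.2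
      have h1 := hKclose j hj.1 hj.2
      have h2 : |xb β (o j) - xb β (o j₀) - K j / 2| ≤ e := by
        refine h1.trans (mul_le_mul_of_nonneg_right ?_ hδ0)
        have : (j : ℝ) ≤ n₀ := by exact_mod_cast hj.2
        linarith
      obtain ⟨h3, h4⟩ := abs_le.mp h2
      have s1 := (hs (o j - h) (o j) (by linarith) (by linarith) (by linarith)).1
      have s2 := (hs (o j) (o j + h) (by linarith) (by linarith) (by linarith)).1
      have e2 : ℓ / 13 * (o j - (o j - h)) = e := by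
        rw [hh, he]
        field_simp
        ring
      have e3 : ℓ / 13 * (o j + h - o j) = e := by
        rw [hh, he]
        field_simp
        ring
      rw [e2] at s1
      rw [e3] at s2
      have hivt := intermediate_value_Icc (show o j - h ≤ o j + h by linarith)
        ((xb_cont β).continuousOn (s := Icc (o j - h) (o j + h)))
      obtain ⟨x, hx1, hx2⟩ := hivt (show xb β (o j₀) + K j / 2 ∈ Icc _ _ from
        ⟨by linarith, by linarith⟩)
      exact ⟨x, fun _ _ => ⟨abs_le.mpr ⟨by linarith [hx1.1], by linarith [hx1.2]⟩, hx2⟩⟩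
    · exact ⟨0, fun a b => absurd ⟨a, b⟩ hj⟩
  choose lm hlm using hlm
  refine ⟨lm, fun j h1 h2 => (hlm j h1 h2).1, fun j h1 h2 => ⟨K j, (hlm j h1 h2).2⟩, ?_⟩
  intro i j hi hij hj
  have hKmono : ((j : ℝ) - i) ≤ (K j : ℝ) - K i := by
    clear_value K
    induction j, hij using Nat.le_induction with
    | base => simp
    | succ j hij ih =>
      have h1 := ih (by omega)
      have h2 := (hkk j (by omega) (by omega)).1
      have h3 : (1 : ℝ) ≤ k j := by exact_mod_cast h2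
      rw [hKs j (by omega)]
      push_cast
      linarith
  obtain ⟨a1, a2⟩ := hlm i hi (by omega)
  obtain ⟨b1, b2⟩ := hlm j (by omega) hj
  have wi := hwin i hi (by omega)
  have wj := hwin j (by omega) hj
  obtain ⟨a3, a4⟩ := abs_le.mp a1
  obtain ⟨b3, b4⟩ := abs_le.mp b1
  have hijr : (0 : ℝ) ≤ (j : ℝ) - i := by
    have : (i : ℝ) ≤ j := by exact_mod_cast hij
    linarith
  have hle : lm i ≤ lm j := by
    by_contra hc
    push Not at hc
    have := (hs (lm j) (lm i) (by linarith) hc.le (by linarith)).1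
    have h5 : 0 < ℓ / 13 * (lm i - lm j) := by
      have : 0 < lm i - lm j := by linarith
      positivity
    linarith
  have h6 := (hs (lm i) (lm j) (by linarith) hle (by linarith)).2
  rw [div_le_iff₀ (by positivity)]
  linarith

/-- sums over separated points -/
lemma sep_sum {ℓ : ℝ} (hℓ : 0 < ℓ) {j₀ n₀ : ℕ} {lm : ℕ → ℝ}
    (hsep : ∀ i j, j₀ ≤ i → i ≤ j → j ≤ n₀ → ((j : ℝ) - i) / (2 * ℓ) ≤ lm j - lm i) (hne : j₀ ≤ n₀)
    {z : ℂ} (hz : z.re ≤ -(1 / ℓ)) :
    ∑ j ∈ Finset.Icc j₀ n₀, 1 / ‖z - (⟨0, lm j⟩ : ℂ)‖ ≤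
      16 * ℓ * (1 + Real.log ((n₀ - j₀ + 1 : ℕ) : ℝ)) := by
  classical
  obtain ⟨s, hs, hmin⟩ := (Finset.Icc j₀ n₀).exists_min_image (fun j => |z.im - lm j|)
    ⟨j₀, Finset.mem_Icc.mpr ⟨le_rfl, hne⟩⟩
  rw [Finset.mem_Icc] at hs
  set N := n₀ - j₀ + 1 with hN
  have hdist : ∀ i j, j₀ ≤ i → i ≤ n₀ → j₀ ≤ j → j ≤ n₀ → |(j : ℝ) - i| / (2 * ℓ) ≤ |lm j - lm i| := by
    intro i j hi1 hi2 hj1 hj2
    rcases le_total i j with h | h
    · have h1 := hsep i j hi1 h hj2
      have h2 : (0 : ℝ) ≤ (j : ℝ) - i := by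
        have : (i : ℝ) ≤ j := by exact_mod_cast h
        linarith
      rw [abs_of_nonneg h2]
      exact h1.trans (le_abs_self _)
    · have h1 := hsep j i hj1 h hi2
      have h2 : (0 : ℝ) ≤ (i : ℝ) - j := by
        have : (j : ℝ) ≤ i := by exact_mod_cast h
        linarith
      rw [abs_sub_comm (j : ℝ), abs_of_nonneg h2, abs_sub_comm]
      exact h1.trans (le_abs_self _)
  have hterm : ∀ j ∈ Finset.Icc j₀ n₀, 1 / ‖z - (⟨0, lm j⟩ : ℂ)‖ ≤
      8 * ℓ * (1 / (|(j : ℝ) - s| + 1)) := by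
    intro j hj
    have hj' := Finset.mem_Icc.mp hj
    have h1 : 1 / ℓ ≤ ‖z - (⟨0, lm j⟩ : ℂ)‖ := by
      have h2 := Complex.abs_re_le_norm (z - (⟨0, lm j⟩ : ℂ))
      rw [Complex.sub_re] at h2
      simp only [sub_zero] at h2
      refine le_trans ?_ h2
      have hpos : 0 < 1 / ℓ := by positivity
      rw [abs_of_neg (by linarith)]
      linarith
    have h2 : |z.im - lm j| ≤ ‖z - (⟨0, lm j⟩ : ℂ)‖ := by
      have h2 := Complex.abs_im_le_norm (z - (⟨0, lm j⟩ : ℂ))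
      rwa [Complex.sub_im] at h2
    have h3 := hdist s j hs.1 hs.2 hj'.1 hj'.2
    have h4 : |lm j - lm s| ≤ |z.im - lm j| + |z.im - lm s| := by
      have : lm j - lm s = (z.im - lm s) - (z.im - lm j) := by ring
      rw [this]
      exact (abs_sub _ _).trans (le_of_eq (add_comm _ _))
    have h5 := hmin j hj
    have h6 : |(j : ℝ) - s| / (4 * ℓ) ≤ ‖z - (⟨0, lm j⟩ : ℂ)‖ := by
      have e1 : |(j : ℝ) - s| / (4 * ℓ) = |(j : ℝ) - s| / (2 * ℓ) / 2 := by
        field_simp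
        norm_num
      rw [e1]
      linarith
    have h7 : (|(j : ℝ) - s| + 1) / (8 * ℓ) ≤ ‖z - (⟨0, lm j⟩ : ℂ)‖ := by
      have e1 : (|(j : ℝ) - s| + 1) / (8 * ℓ) = (|(j : ℝ) - s| / (4 * ℓ)) / 2 + (1 / ℓ) / 8 := by
        field_simp
        ring
      rw [e1]
      have : 0 < 1 / ℓ := by positivity
      linarith
    have h8 : 0 < (|(j : ℝ) - s| + 1) / (8 * ℓ) := by positivity
    calc 1 / ‖z - (⟨0, lm j⟩ : ℂ)‖ ≤ 1 / ((|(j : ℝ) - s| + 1) / (8 * ℓ)) :=
          one_div_le_one_div_of_le h8 h7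
      _ = _ := by
        field_simp
  have hharm : ∑ k ∈ Finset.range N, (1 : ℝ) / ((k : ℝ) + 1) ≤ 1 + Real.log N := by
    have h := harmonic_le_one_add_log N
    refine le_trans (le_of_eq ?_) h
    unfold harmonic
    push_cast
    apply Finset.sum_congr rfl
    intro k _
    rw [one_div]
  have hsum : ∑ j ∈ Finset.Icc j₀ n₀, 1 / (|(j : ℝ) - s| + 1) ≤ 2 * (1 + Real.log N) := by
    rw [← Finset.sum_filter_add_sum_filter_not _ (fun j => s ≤ j)]
    have p1 : ∑ j ∈ (Finset.Icc j₀ n₀).filter (fun j => s ≤ j), 1 / (|(j : ℝ) - s| + 1) ≤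
        ∑ k ∈ Finset.range N, (1 : ℝ) / ((k : ℝ) + 1) := by
      refine le_trans (le_of_eq ?_) (inj_sum ((Finset.Icc j₀ n₀).filter (fun j => s ≤ j))
        (fun j => j - s) ?_ N ?_ (fun k => (1 : ℝ) / ((k : ℝ) + 1)) (fun k => by positivity))
      · apply Finset.sum_congr rfl
        intro j hj
        have hj' := (Finset.mem_filter.mp hj).2
        have : (0 : ℝ) ≤ (j : ℝ) - s := by
          have : (s : ℝ) ≤ j := by exact_mod_cast hj'
          linarith
        rw [abs_of_nonneg this, Nat.cast_sub hj']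
      · intro a ha b hb hab
        have ha' := (Finset.mem_filter.mp ha).2
        have hb' := (Finset.mem_filter.mp hb).2
        simp only at hab
        omega
      · intro j hj
        have hj' := Finset.mem_filter.mp hj
        have hj2 := Finset.mem_Icc.mp hj'.1
        omega
    have p2 : ∑ j ∈ (Finset.Icc j₀ n₀).filter (fun j => ¬ s ≤ j), 1 / (|(j : ℝ) - s| + 1) ≤
        ∑ k ∈ Finset.range N, (1 : ℝ) / ((k : ℝ) + 1) := by
      refine le_trans (le_of_eq ?_) (inj_sum ((Finset.Icc j₀ n₀).filter (fun j => ¬ s ≤ j))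
        (fun j => s - j) ?_ N ?_ (fun k => (1 : ℝ) / ((k : ℝ) + 1)) (fun k => by positivity))
      · apply Finset.sum_congr rfl
        intro j hj
        have hj' := (Finset.mem_filter.mp hj).2
        have hj3 : j ≤ s := by omega
        have : (j : ℝ) - s ≤ 0 := by
          have : (j : ℝ) ≤ s := by exact_mod_cast hj3
          linarith
        rw [abs_of_nonpos this, Nat.cast_sub hj3, neg_sub]
      · intro a ha b hb hab
        have ha' := (Finset.mem_filter.mp ha).2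
        have hb' := (Finset.mem_filter.mp hb).2
        simp only at hab
        omega
      · intro j hj
        have hj' := Finset.mem_filter.mp hj
        have hj2 := Finset.mem_Icc.mp hj'.1
        omega
    linarith
  calc ∑ j ∈ Finset.Icc j₀ n₀, 1 / ‖z - (⟨0, lm j⟩ : ℂ)‖ ≤
      ∑ j ∈ Finset.Icc j₀ n₀, 8 * ℓ * (1 / (|(j : ℝ) - s| + 1)) := Finset.sum_le_sum hterm
    _ = 8 * ℓ * ∑ j ∈ Finset.Icc j₀ n₀, 1 / (|(j : ℝ) - s| + 1) := by rw [Finset.mul_sum]
    _ ≤ 8 * ℓ * (2 * (1 + Real.log N)) := by gcongr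
    _ = _ := by ring

end Pool.Agent.T9h53.AH
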