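import Pool.Agent.T9h53.AH.Mel3
import Pool.Agent.T9h53.AH.MVn

/-! # Markov's inequality for windows -/

set_option autoImplicit false

open Complex Filter Topology Set MeasureTheory FourierTransform

namespace Pool.Agent.T9h53.AH

open Pool.Agent.T9h53.SZ Pool.Agent.T9h53.EQ

/-- **Markov's inequality for windows** -/
theorem markov_win {f : ℝ → ℝ} (hf : Continuous f) (hf0 : ∀ x, 0 ≤ f x) {w : ℝ → ℝ}
    (hw : Continuous w) (hw0 : ∀ v, 0 ≤ w v) {Y K M a T B : ℝ} (hY : 0 ≤ Y) (hK0 : 0 < K)
    (hK : ∫ v in (-Y)..Y, w v ≤ K) (hM0 : 0 ≤ M)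
    (hM : ∀ v, |v| ≤ Y → ∫ t in T..(T + B), f (t + v) ^ 2 ≤ M) (ha : 0 < a) (hB : 0 ≤ B)
    (G : Set ℝ) (hG : G ⊆ Ioc T (T + B)) (hlow : ∀ t ∈ G, a ≤ ∫ v in (-Y)..Y, f (t + v) * w v) :
    volume.real G ≤ K ^ 2 * M / a ^ 2 := by
  set g : ℝ → ℝ := fun t => ∫ v in (-Y)..Y, f (t + v) ^ 2 * w v with hg
  have hgc : Continuous g := by
    rw [hg]
    apply intervalIntegral.continuous_parametric_intervalIntegral_of_continuous'
    rw [Function.uncurry_def]
    fun_prop
  have hlow2 : ∀ t ∈ G, a ^ 2 / K ≤ g t := by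
    intro t ht
    have h1 := hlow t ht
    set lm := a / K with hlm
    have hlm0 : 0 < lm := by positivity
    have h2 : ∫ v in (-Y)..Y, f (t + v) * w v ≤
        ∫ v in (-Y)..Y, (lm / 2 * w v + 1 / (2 * lm) * (f (t + v) ^ 2 * w v)) := by
      apply intervalIntegral.integral_mono_on (by linarith)
      · apply Continuous.intervalIntegrable
        fun_prop
      · apply Continuous.intervalIntegrable
        fun_prop
      · intro v _
        have h3 : f (t + v) ≤ lm / 2 + 1 / (2 * lm) * f (t + v) ^ 2 := by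
          have h4 := sq_nonneg (f (t + v) - lm)
          rw [div_mul_eq_mul_div, one_mul, div_add_div _ _ (by norm_num) (by positivity),
            le_div_iff₀ (by positivity)]
          nlinarith
        have h5 := mul_le_mul_of_nonneg_right h3 (hw0 v)
        calc _ ≤ _ := h5
          _ = _ := by ring
    rw [intervalIntegral.integral_add, intervalIntegral.integral_const_mul,
      intervalIntegral.integral_const_mul] at h2
    · have h7 : ∫ v in (-Y)..Y, f (t + v) * w v ≤ lm / 2 * K + 1 / (2 * lm) * g t := by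
        refine h2.trans ?_
        gcongr
      have h9 : lm / 2 * K + 1 / (2 * lm) * g t = a / 2 + K / (2 * a) * g t := by
        rw [hlm]
        field_simp
      rw [h9] at h7
      have h10 : a / 2 ≤ K / (2 * a) * g t := by linarith
      rw [div_mul_eq_mul_div, le_div_iff₀ (by positivity)] at h10
      rw [div_le_iff₀ hK0]
      nlinarith
    · apply Continuous.intervalIntegrable
      fun_prop
    · apply Continuous.intervalIntegrable
      fun_prop
  have hup : ∫ t in T..(T + B), g t ≤ K * M := by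
    rw [hg]
    rw [intervalIntegral_intervalIntegral_swap]
    · have h1 : ∀ v : ℝ, v ∈ Icc (-Y) Y → ∫ t in T..(T + B), f (t + v) ^ 2 * w v ≤ M * w v := by
        intro v hv
        rw [intervalIntegral.integral_mul_const]
        exact mul_le_mul_of_nonneg_right (hM v (abs_le.mpr hv)) (hw0 v)
      have h2 : ∫ v in (-Y)..Y, ∫ t in T..(T + B), f (t + v) ^ 2 * w v ≤
          ∫ v in (-Y)..Y, M * w v := by
        apply intervalIntegral.integral_mono_on (by linarith)
        · apply Continuous.intervalIntegrable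
          apply intervalIntegral.continuous_parametric_intervalIntegral_of_continuous'
          rw [Function.uncurry_def]
          fun_prop
        · apply Continuous.intervalIntegrable
          fun_prop
        · exact h1
      refine h2.trans ?_
      rw [intervalIntegral.integral_const_mul, mul_comm K]
      exact mul_le_mul_of_nonneg_left hK hM0
    · have hc : Continuous (Function.uncurry fun t v : ℝ => f (t + v) ^ 2 * w v) := by
        rw [Function.uncurry_def]
        fun_prop
      have hK : IsCompact (Set.uIcc T (T + B) ×ˢ Set.uIcc (-Y) Y) :=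
        isCompact_uIcc.prod isCompact_uIcc
      exact (hc.continuousOn.integrableOn_compact hK).mono_set
        (Set.prod_mono uIoc_subset_uIcc uIoc_subset_uIcc)
  have hg0 : ∀ t, 0 ≤ g t := by
    intro t
    rw [hg]
    apply intervalIntegral.integral_nonneg (by linarith)
    intro v _
    have := hw0 v
    positivity
  set ε : ℝ := a ^ 2 / K with hε
  have hε0 : 0 < ε := by positivity
  have hM := mul_meas_ge_le_integral_of_nonneg (μ := volume.restrict (Ioc T (T + B))) (f := g)
    (Filter.Eventually.of_forall hg0)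
    ((hgc.intervalIntegrable T (T + B)).1) ε
  rw [← intervalIntegral.integral_of_le (by linarith)] at hM
  have hsub : volume.real G ≤ (volume.restrict (Ioc T (T + B))).real {x | ε ≤ g x} := by
    have hms : MeasurableSet {x | ε ≤ g x} := measurableSet_le measurable_const hgc.measurable
    rw [measureReal_restrict_apply hms]
    apply measureReal_mono
    · intro t ht
      exact ⟨hlow2 t ht, hG ht⟩
    · exact ((measure_mono inter_subset_right).trans_lt measure_Ioc_lt_top).ne
  have h1 : ε * volume.real G ≤ K * M :=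
    (mul_le_mul_of_nonneg_left hsub hε0.le).trans (hM.trans hup)
  rw [hε, div_mul_eq_mul_div, div_le_iff₀ hK0] at h1
  rw [le_div_iff₀ (by positivity)]
  nlinarith

/-- the majorant of the kernel -/
noncomputable def kk (b v : ℝ) : ℝ := Real.exp (-(Real.cosh (b⁻¹ * v) / 2))

lemma kk_cont (b : ℝ) : Continuous (kk b) := by
  unfold kk
  have := Real.continuous_cosh
  fun_prop

lemma kk_nonneg (b v : ℝ) : 0 ≤ kk b v := (Real.exp_pos _).le

lemma kk_mass {b Y : ℝ} (hb : 0 < b) (hY : 0 ≤ Y) : ∫ v in (-Y)..Y, kk b v ≤ 6 * b := by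
  have := kw_mass (a := b⁻¹) (inv_pos.mpr hb) hY
  rw [div_inv_eq_mul] at this
  exact this

/-- the window of the norm of a polynomial bounds the window -/
lemma VW_le_kk {F : ℂ → ℂ} {f : ℝ → ℝ} (hf : Continuous f) {b Y t c C : ℝ} (hb : 0 < b) (hY : 0 ≤ Y)
    (hc : |c| ≤ b) (hC : 0 ≤ C)
    (h : ∀ v : ℝ, -Y ≤ v → v ≤ Y → ‖F ⟨c, t + v⟩‖ ≤ C * f (t + v)) :
    ‖VW F b⁻¹ Y t c‖ ≤ C * ∫ v in (-Y)..Y, f (t + v) * kk b v := by
  unfold VW
  have hk := kk_cont b
  rw [← intervalIntegral.integral_const_mul]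
  apply intervalIntegral.norm_integral_le_of_norm_le (by linarith)
  · refine Filter.Eventually.of_forall fun v hv => ?_
    rw [norm_mul, ← mul_assoc]
    have h1 := h v hv.1.le hv.2
    exact mul_le_mul h1 (kw_le v (sc hb hc)) (norm_nonneg _) ((norm_nonneg _).trans h1)
  · apply Continuous.intervalIntegrable
    fun_prop

lemma PP_eq (S : Finset ℕ) (a : ℕ → ℂ) (c u : ℝ) : PP S a ⟨c, u⟩ =
    ∑ n ∈ S, (a n * ((Real.exp (-(Real.log n / 2) + c * Real.log n) : ℝ) : ℂ)) *
      cexp (((Real.log n : ℝ) : ℂ) * ⟨0, u⟩) := by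
  unfold PP
  apply Finset.sum_congr rfl
  intro n _
  rw [Real.exp_add, Complex.ofReal_mul, mk_eq, mk_eq, mul_assoc, mul_assoc]
  congr 2
  rw [Complex.ofReal_exp (c * Real.log n), ← Complex.exp_add]
  congr 1
  push_cast
  ring

lemma PP_cont (S : Finset ℕ) (a : ℕ → ℂ) (c : ℝ) : Continuous fun u : ℝ => ‖PP S a ⟨c, u⟩‖ := by
  simp_rw [PP_eq, mk_eq]
  fun_prop

lemma PP_mv (S : Finset ℕ) (hS : ∀ m ∈ S, 1 ≤ m) (a : ℕ → ℂ) (c T v : ℝ) {B : ℝ} (hB : 10 ≤ B) :
    ∫ t in T..(T + B), ‖PP S a ⟨c, t + v⟩‖ ^ 2 ≤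
      100 * ∑ n ∈ S, (‖a n‖ * Real.exp (-(Real.log n / 2) + c * Real.log n)) ^ 2 * (B + n) := by
  have h := mv_nat S hS (fun n => a n * ((Real.exp (-(Real.log n / 2) + c * Real.log n) : ℝ) : ℂ))
    (T + v) hB
  rw [intervalIntegral.integral_comp_add_right (fun u => ‖PP S a ⟨c, u⟩‖ ^ 2) v]
  simp_rw [PP_eq]
  rw [show T + B + v = T + v + B by ring]
  refine h.trans (le_of_eq ?_)
  congr 1
  apply Finset.sum_congr rfl
  intro n _
  rw [norm_mul, Complex.norm_real, Real.norm_of_nonneg (Real.exp_pos _).le]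

end Pool.Agent.T9h53.AH
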