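import Pool.Agent.T9h53.AH.BoxL
import Pool.Agent.T9h53.AH.MS

/-! # Linearity of the window -/

set_option autoImplicit false

open Complex Filter Topology Set MeasureTheory

namespace Pool.Agent.T9h53.AH

open Pool.Agent.T9h53.SZ Pool.Agent.T9h53.EQ

lemma line_cont {F : ℂ → ℂ} {Y t c : ℝ}
    (h : ∀ v : ℝ, -Y ≤ v → v ≤ Y → DifferentiableAt ℂ F ⟨c, t + v⟩) :
    ContinuousOn (fun v : ℝ => F ⟨c, t + v⟩) (Icc (-Y) Y) := by
  intro v hv
  have h1 : ContinuousAt F ⟨c, t + v⟩ := (h v hv.1 hv.2).continuousAt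
  have h2 : ContinuousAt (fun v : ℝ => (⟨c, t + v⟩ : ℂ)) v := by
    simp only [mk_eq]
    fun_prop
  exact (ContinuousAt.comp (f := fun v : ℝ => (⟨c, t + v⟩ : ℂ)) (g := F) h1 h2).continuousWithinAt

lemma VW_intble {F : ℂ → ℂ} {a Y t c : ℝ} (hY : 0 ≤ Y)
    (h : ContinuousOn (fun v : ℝ => F ⟨c, t + v⟩) (Icc (-Y) Y)) :
    IntervalIntegrable (fun v => F ⟨c, t + v⟩ * kw a c v) volume (-Y) Y := by
  apply ContinuousOn.intervalIntegrable
  rw [uIcc_of_le (by linarith)]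
  exact h.mul (kw_cont a c).continuousOn

lemma VW_add {F G : ℂ → ℂ} {a Y t c : ℝ} (hY : 0 ≤ Y)
    (hF : ContinuousOn (fun v : ℝ => F ⟨c, t + v⟩) (Icc (-Y) Y))
    (hG : ContinuousOn (fun v : ℝ => G ⟨c, t + v⟩) (Icc (-Y) Y)) :
    VW (fun z => F z + G z) a Y t c = VW F a Y t c + VW G a Y t c := by
  unfold VW
  rw [← intervalIntegral.integral_add (VW_intble hY hF) (VW_intble hY hG)]
  congr 1
  funext v
  ring

/-- windows of close functions -/
lemma VW_close {F G : ℂ → ℂ} {b Y t c B : ℝ} (hb : 0 < b) (hY : 0 ≤ Y) (hc : |c| ≤ b)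
    (hB : 0 ≤ B)
    (hF : ContinuousOn (fun v : ℝ => F ⟨c, t + v⟩) (Icc (-Y) Y))
    (hG : ContinuousOn (fun v : ℝ => G ⟨c, t + v⟩) (Icc (-Y) Y))
    (h : ∀ v : ℝ, -Y ≤ v → v ≤ Y → ‖F ⟨c, t + v⟩ - G ⟨c, t + v⟩‖ ≤ B) :
    ‖VW F b⁻¹ Y t c‖ ≤ ‖VW G b⁻¹ Y t c‖ + B * (6 * b) := by
  have h1 : VW F b⁻¹ Y t c = VW G b⁻¹ Y t c + VW (fun z => F z - G z) b⁻¹ Y t c := by
    rw [← VW_add hY hG (hF.sub hG)]
    apply VW_congr hY
    intro v _ _
    ring
  rw [h1]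
  refine (norm_add_le _ _).trans (add_le_add le_rfl ?_)
  have h2 := VW_le (F := fun z => F z - G z) (t := t) (inv_pos.mpr hb) hY (sc hb hc) hB h
  rwa [div_inv_eq_mul] at h2

lemma VW_smul {F : ℂ → ℂ} {a Y t c : ℝ} (k : ℂ) :
    VW (fun z => k * F z) a Y t c = k * VW F a Y t c := by
  unfold VW
  rw [← intervalIntegral.integral_const_mul]
  congr 1
  funext v
  ring

lemma PP_diff (S : Finset ℕ) (a : ℕ → ℂ) (z : ℂ) : DifferentiableAt ℂ (PP S a) z := by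
  unfold PP
  fun_prop

lemma MM_diff (zs : Finset ℝ) (lam : ℝ → ℝ) {z : ℂ} (hz : z.re ≠ 0) :
    DifferentiableAt ℂ (MM zs lam) z := by
  unfold MM
  apply DifferentiableAt.fun_finset_prod
  intro y _
  apply DifferentiableAt.fun_div (by fun_prop) (by fun_prop)
  rw [sub_ne_zero]
  intro h
  apply hz
  rw [h]

lemma HH_cont (β δ : ℝ) : Continuous (HH β δ) := by
  unfold HH
  apply Continuous.mul _ (by fun_prop)
  rw [continuous_iff_continuousAt]
  intro y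
  have h1 : ContinuousAt Gamma (1 / 2 - (y : ℂ) * I) := by
    apply (Complex.differentiableAt_Gamma _ _).continuousAt
    intro m hm
    have := congrArg Complex.re hm
    simp at this
    have h2 : (0 : ℝ) ≤ m := Nat.cast_nonneg m
    linarith
  exact ContinuousAt.comp (f := fun y : ℝ => 1 / 2 - (y : ℂ) * I) (g := Gamma) h1 (by fun_prop)

lemma sum_inv_sqrt (N : ℕ) : ∑ n ∈ Finset.Icc 1 N, Real.exp (-(Real.log n / 2)) ≤ 2 * √N := by
  induction N with
  | zero => simp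
  | succ N ih =>
    rw [Finset.sum_Icc_succ_top (by omega)]
    have hN : (0 : ℝ) < ((N + 1 : ℕ) : ℝ) := by positivity
    have h1 : Real.exp (-(Real.log ((N + 1 : ℕ) : ℝ) / 2)) = 1 / √((N + 1 : ℕ) : ℝ) := by
      rw [Real.exp_neg, one_div]
      congr 1
      rw [Real.sqrt_eq_rpow, Real.rpow_def_of_pos hN]
      congr 1
      ring
    rw [h1]
    set s := √(N : ℝ) with hs
    set s' := √((N + 1 : ℕ) : ℝ) with hs'
    have hs0 : 0 ≤ s := Real.sqrt_nonneg _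
    have hs'0 : 0 < s' := Real.sqrt_pos.mpr hN
    have e1 : s ^ 2 = N := Real.sq_sqrt (by positivity)
    have e2 : s' ^ 2 = N + 1 := by
      rw [hs', Real.sq_sqrt hN.le]
      push_cast
      ring
    have h2 : 1 / s' ≤ 2 * s' - 2 * s := by
      rw [div_le_iff₀ hs'0]
      nlinarith [sq_nonneg (s' - s)]
    linarith

/-- bound for the polynomial -/
lemma PP_le {N : ℕ} {a : ℕ → ℂ} (ha : ∀ n, ‖a n‖ ≤ 1) {c : ℝ} (hc : c ≤ 0) (u : ℝ) :
    ‖PP (Finset.Icc 1 N) a ⟨c, u⟩‖ ≤ 2 * √N := by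
  refine le_trans ?_ (sum_inv_sqrt N)
  unfold PP
  refine (norm_sum_le _ _).trans (Finset.sum_le_sum fun n hn => ?_)
  have hn1 : (1 : ℝ) ≤ n := by exact_mod_cast (Finset.mem_Icc.mp hn).1
  have hl := Real.log_nonneg hn1
  rw [norm_mul, norm_mul, Complex.norm_real, Real.norm_of_nonneg (Real.exp_pos _).le, exp_norm]
  have h1 : Real.exp (c * Real.log n) ≤ 1 := by
    rw [Real.exp_le_one_iff]
    nlinarith
  have h2 := Real.exp_pos (-(Real.log n / 2))
  calc ‖a n‖ * (Real.exp (-(Real.log n / 2)) * Real.exp (c * Real.log n)) ≤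
      1 * (Real.exp (-(Real.log n / 2)) * 1) := by
        gcongr
        exact ha n
    _ = _ := by ring

end Pool.Agent.T9h53.AH
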