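import Pool.Agent.T9h53.AH.MS
import Pool.Agent.T9h53.AH.Mu
import Pool.Agent.T9h53.AH.Vw

/-! # Sums and the third mean square -/

set_option autoImplicit false

open Complex Filter Topology Set MeasureTheory

namespace Pool.Agent.T9h53.AH

open Pool.Agent.T9h53.SZ Pool.Agent.T9h53.EQ
open Pool.Agent.TH823.MRS (mob)

lemma sum_J2 {X N : ℕ} (hX : 1 ≤ X) {T : ℝ} (hT : T ≤ X) {a : ℕ → ℂ} (ha : ∀ n, ‖a n‖ ≤ 1)
    (ha0 : ∀ n, n ≤ X → a n = 0) :
    ∑ n ∈ Finset.Icc 1 N, (‖a n‖ * Real.exp (-(Real.log n / 2) + -1 * Real.log n)) ^ 2 * (T + n) ≤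
      2 / X := by
  have hXr : (0 : ℝ) < X := by exact_mod_cast hX
  have h1 : ∑ n ∈ Finset.Icc 1 N, (‖a n‖ * Real.exp (-(Real.log n / 2) + -1 * Real.log n)) ^ 2 *
      (T + n) = ∑ n ∈ (Finset.Icc 1 N).filter (fun n => X < n),
        (‖a n‖ * Real.exp (-(Real.log n / 2) + -1 * Real.log n)) ^ 2 * (T + n) := by
    rw [Finset.sum_filter]
    apply Finset.sum_congr rfl
    intro n _
    split_ifs with h
    · rfl
    · rw [ha0 n (by omega), norm_zero, zero_mul]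
      ring
  rw [h1]
  have h2 : ∀ n ∈ (Finset.Icc 1 N).filter (fun n => X < n),
      (‖a n‖ * Real.exp (-(Real.log n / 2) + -1 * Real.log n)) ^ 2 * (T + n) ≤
      2 * ((n : ℝ) ^ 2)⁻¹ := by
    intro n hn
    have hn1 : X < n := (Finset.mem_filter.mp hn).2
    have hn0 : (0 : ℝ) < n := by
      have : 0 < n := by omega
      exact_mod_cast this
    have hXn : (X : ℝ) ≤ n := by exact_mod_cast hn1.le
    have h3 : Real.exp (-(Real.log n / 2) + -1 * Real.log n) ^ 2 = ((n : ℝ) ^ 3)⁻¹ := by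
      rw [← Real.exp_nat_mul]
      have : ((2 : ℕ) : ℝ) * (-(Real.log n / 2) + -1 * Real.log n) = -(((3 : ℕ) : ℝ) * Real.log n) := by
        push_cast
        ring
      rw [this, Real.exp_neg, Real.exp_nat_mul, Real.exp_log hn0]
    rw [mul_pow, h3]
    have h4 : ‖a n‖ ^ 2 ≤ 1 := pow_le_one₀ (norm_nonneg _) (ha n)
    have h5 : T + n ≤ 2 * n := by linarith
    have h6 : 0 ≤ ((n : ℝ) ^ 3)⁻¹ := by positivity
    calc ‖a n‖ ^ 2 * ((n : ℝ) ^ 3)⁻¹ * (T + n) ≤ ‖a n‖ ^ 2 * ((n : ℝ) ^ 3)⁻¹ * (2 * n) := by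
          apply mul_le_mul_of_nonneg_left h5 (by positivity)
      _ ≤ 1 * ((n : ℝ) ^ 3)⁻¹ * (2 * n) := by gcongr
      _ = _ := by
        field_simp
  refine (Finset.sum_le_sum h2).trans ?_
  rw [← Finset.mul_sum]
  have h3 : (Finset.Icc 1 N).filter (fun n => X < n) ⊆ Finset.Ioc X (max X N) := by
    intro n hn
    rw [Finset.mem_filter, Finset.mem_Icc] at hn
    rw [Finset.mem_Ioc]
    exact ⟨hn.2, hn.1.2.trans (le_max_right _ _)⟩
  have h4 : ∑ n ∈ (Finset.Icc 1 N).filter (fun n => X < n), ((n : ℝ) ^ 2)⁻¹ ≤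
      ∑ n ∈ Finset.Ioc X (max X N), ((n : ℝ) ^ 2)⁻¹ :=
    Finset.sum_le_sum_of_subset_of_nonneg h3 fun n _ _ => by positivity
  have h5 := sum_Ioc_inv_sq_le_sub (α := ℝ) (k := X) (n := max X N) (by omega) (le_max_left _ _)
  have h6 : (0 : ℝ) ≤ ((max X N : ℕ) : ℝ)⁻¹ := by positivity
  have h7 : ∑ n ∈ (Finset.Icc 1 N).filter (fun n => X < n), ((n : ℝ) ^ 2)⁻¹ ≤ (X : ℝ)⁻¹ := by
    refine h4.trans (h5.trans ?_)
    linarith
  rw [div_eq_mul_inv]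
  linarith

lemma sum_J3 {N : ℕ} {T κ : ℝ} (hT : 0 ≤ T) (hκ : 0 ≤ κ) {a : ℕ → ℂ} (ha : ∀ n, ‖a n‖ ≤ 1) :
    ∑ n ∈ Finset.Icc 1 N, (‖a n‖ * Real.exp (-(Real.log n / 2) + -κ * Real.log n)) ^ 2 * (T + n) ≤
      T * (1 + Real.log N) + N := by
  have h2 : ∀ n ∈ Finset.Icc 1 N,
      (‖a n‖ * Real.exp (-(Real.log n / 2) + -κ * Real.log n)) ^ 2 * (T + n) ≤
      T * (1 / (n : ℝ)) + 1 := by
    intro n hn
    have hn1 : (1 : ℝ) ≤ n := by exact_mod_cast (Finset.mem_Icc.mp hn).1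
    have hn0 : (0 : ℝ) < n := by linarith
    have hl := Real.log_nonneg hn1
    have h3 : Real.exp (-(Real.log n / 2) + -κ * Real.log n) ^ 2 ≤ (n : ℝ)⁻¹ := by
      rw [← Real.exp_nat_mul]
      have h4 : (n : ℝ)⁻¹ = Real.exp (-Real.log n) := by
        rw [Real.exp_neg, Real.exp_log hn0]
      rw [h4]
      apply Real.exp_le_exp.mpr
      push_cast
      nlinarith
    rw [mul_pow]
    have h4 : ‖a n‖ ^ 2 ≤ 1 := pow_le_one₀ (norm_nonneg _) (ha n)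
    calc ‖a n‖ ^ 2 * Real.exp (-(Real.log n / 2) + -κ * Real.log n) ^ 2 * (T + n) ≤
        1 * (n : ℝ)⁻¹ * (T + n) := by
          apply mul_le_mul_of_nonneg_right _ (by positivity)
          exact mul_le_mul h4 h3 (by positivity) zero_le_one
      _ = _ := by
        field_simp
  refine (Finset.sum_le_sum h2).trans ?_
  rw [Finset.sum_add_distrib, ← Finset.mul_sum, Finset.sum_const, Nat.card_Icc, nsmul_eq_mul,
    mul_one]
  have h3 := sum_inv_le N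
  have h4 : ((N + 1 - 1 : ℕ) : ℝ) = N := by simp
  rw [h4]
  have := mul_le_mul_of_nonneg_left h3 hT
  linarith

/-- the smooth cut-off -/
noncomputable def psi1 (X : ℕ) (n : ℕ) : ℝ := max 0 (min 1 (2 - (n : ℝ) / X))

lemma psi1_range (X n : ℕ) : 0 ≤ psi1 X n ∧ psi1 X n ≤ 1 := by
  unfold psi1
  exact ⟨le_max_left _ _, max_le zero_le_one (min_le_left _ _)⟩

lemma psi1_one {X n : ℕ} (hX : 1 ≤ X) (hn : n ≤ X) : psi1 X n = 1 := by
  unfold psi1
  have hXr : (0 : ℝ) < X := by exact_mod_cast hX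
  have h1 : (n : ℝ) / X ≤ 1 := by
    rw [div_le_one hXr]
    exact_mod_cast hn
  rw [min_eq_left (by linarith), max_eq_right zero_le_one]

lemma psi1_zero {X n : ℕ} (hX : 1 ≤ X) (hn : 3 * X < n) : psi1 X n = 0 := by
  unfold psi1
  have hXr : (0 : ℝ) < X := by exact_mod_cast hX
  have h1 : 2 ≤ (n : ℝ) / X := by
    rw [le_div_iff₀ hXr]
    have : ((3 * X : ℕ) : ℝ) ≤ n := by exact_mod_cast hn.le
    push_cast at this
    linarith
  have h2 : min 1 (2 - (n : ℝ) / X) ≤ 0 := (min_le_right _ _).trans (by linarith)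
  exact max_eq_left h2

lemma psi1_lip {X : ℕ} (hX : 1 ≤ X) (n m : ℕ) : |psi1 X n - psi1 X m| ≤ |(n : ℝ) - m| / X := by
  have hXr : (0 : ℝ) < X := by exact_mod_cast hX
  unfold psi1
  have h1 : |max 0 (min 1 (2 - (n : ℝ) / X)) - max 0 (min 1 (2 - (m : ℝ) / X))| ≤
      |min 1 (2 - (n : ℝ) / X) - min 1 (2 - (m : ℝ) / X)| := by
    have := abs_max_sub_max_le_abs (min 1 (2 - (n : ℝ) / X)) (min 1 (2 - (m : ℝ) / X)) 0
    rwa [max_comm _ 0, max_comm _ 0] at this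
  have h2 : |min 1 (2 - (n : ℝ) / X) - min 1 (2 - (m : ℝ) / X)| ≤
      |(2 - (n : ℝ) / X) - (2 - (m : ℝ) / X)| := by
    have := abs_min_sub_min_le_max (1 : ℝ) (2 - (n : ℝ) / X) 1 (2 - (m : ℝ) / X)
    rwa [sub_self, abs_zero, max_eq_right (abs_nonneg _)] at this
  refine h1.trans (h2.trans (le_of_eq ?_))
  rw [show (2 - (n : ℝ) / X) - (2 - (m : ℝ) / X) = -(((n : ℝ) - m) / X) by ring, abs_neg, abs_div,
    abs_of_pos hXr]

lemma PP_axis_cont (S : Finset ℕ) (a : ℕ → ℂ) : Continuous fun u : ℝ => PP S a ⟨0, u⟩ := by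
  unfold PP
  simp only [mk_eq]
  fun_prop

lemma VW_HH_cont (β δ b Y : ℝ) (S : Finset ℕ) (a : ℕ → ℂ) :
    Continuous fun t : ℝ => VW (fun z => HH β δ z.im * PP S a z) b⁻¹ Y t 0 := by
  unfold VW
  apply intervalIntegral.continuous_parametric_intervalIntegral_of_continuous'
  rw [Function.uncurry_def]
  have h1 := HH_cont β δ
  have h2 := PP_axis_cont S a
  have h3 := kw_cont b⁻¹ 0
  have h4 : Continuous fun p : ℝ × ℝ => p.1 + p.2 := by fun_prop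
  exact ((h1.comp h4).mul (h2.comp h4)).mul (h3.comp continuous_snd)

/-- Markov's inequality for the main part -/
lemma markov_lint {g : ℝ → ℂ} (hg : Continuous g) {V a : ℝ} (ha : 0 < a) (hV : 0 ≤ V)
    (h : ∫⁻ t : ℝ, ‖g t‖ₑ ^ 2 ≤ ENNReal.ofReal V) :
    volume {t : ℝ | a ≤ ‖g t‖} ≤ ENNReal.ofReal (V / a ^ 2) := by
  have hm : Measurable fun t : ℝ => ‖g t‖ₑ ^ 2 := (hg.measurable.enorm).pow_const 2
  have h1 := mul_meas_ge_le_lintegral (μ := (volume : Measure ℝ)) hm (ENNReal.ofReal (a ^ 2))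
  have h2 : {t : ℝ | a ≤ ‖g t‖} ⊆ {x : ℝ | ENNReal.ofReal (a ^ 2) ≤ ‖g x‖ₑ ^ 2} := by
    intro t ht
    have ht' : a ≤ ‖g t‖ := ht
    show ENNReal.ofReal (a ^ 2) ≤ ‖g t‖ₑ ^ 2
    rw [← ofReal_norm, ← ENNReal.ofReal_pow (norm_nonneg _)]
    exact ENNReal.ofReal_le_ofReal (pow_le_pow_left₀ ha.le ht' 2)
  have h3 : ENNReal.ofReal (a ^ 2) * volume {t : ℝ | a ≤ ‖g t‖} ≤ ENNReal.ofReal V :=
    ((mul_le_mul_right (measure_mono h2) _).trans h1).trans h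
  have ha2 : ENNReal.ofReal (a ^ 2) ≠ 0 := by
    rw [Ne, ENNReal.ofReal_eq_zero, not_le]
    positivity
  rw [ENNReal.ofReal_div_of_pos (by positivity), ENNReal.le_div_iff_mul_le (Or.inl ha2)
    (Or.inl ENNReal.ofReal_ne_top), mul_comm]
  exact h3

end Pool.Agent.T9h53.AH
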