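import Pool.Agent.TH823.MRS.Fun
import Pool.Agent.T9h53.AH.MVn

/-! # The Moebius function in exponential windows -/

set_option autoImplicit false

open Complex Filter Topology Set MeasureTheory

namespace Pool.Agent.T9h53.AH

open Pool.Agent.TH823.MRS (mob expo_mob)
open Pool.Agent.H807R2.Dav (ee norm_ee)

lemma exp_diff_le (s t : ℝ) : |Real.exp (-s) - Real.exp (-t)| ≤
    |s - t| * (Real.exp (-s) + Real.exp (-t)) := by
  have key : ∀ s t : ℝ, s ≤ t → |Real.exp (-s) - Real.exp (-t)| ≤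
      |s - t| * (Real.exp (-s) + Real.exp (-t)) := by
    intro s t h
    have h1 : Real.exp (-t) ≤ Real.exp (-s) := Real.exp_le_exp.mpr (by linarith)
    rw [abs_of_nonneg (by linarith), abs_of_nonpos (by linarith)]
    have h2 : Real.exp (-t) = Real.exp (-s) * Real.exp (-(t - s)) := by
      rw [← Real.exp_add]
      congr 1
      ring
    have h3 := Real.add_one_le_exp (-(t - s))
    have h4 := Real.exp_pos (-s)
    have h5 := Real.exp_pos (-t)
    have h6 : Real.exp (-s) - Real.exp (-t) ≤ Real.exp (-s) * (t - s) := by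
      rw [h2]
      nlinarith
    nlinarith
  rcases le_total s t with h | h
  · exact key s t h
  · have := key t s h
    rw [abs_sub_comm, abs_sub_comm s t, add_comm (Real.exp (-s))]
    exact this

lemma geo_le {K : ℝ} (hK : 0 < K) (N : ℕ) :
    ∑ k ∈ Finset.range N, Real.exp (-((k : ℝ) / K)) ≤ 1 + K := by
  set r : ℝ := Real.exp (-(1 / K)) with hr
  have hr0 : 0 < r := Real.exp_pos _
  have h1K : 0 < 1 / K := by positivity
  have hr1 : r ≤ 1 / (1 + 1 / K) := by
    rw [hr, Real.exp_neg, ← one_div]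
    apply one_div_le_one_div_of_le (by positivity)
    have := Real.add_one_le_exp (1 / K)
    linarith
  have hr2 : r < 1 := by
    refine hr1.trans_lt ?_
    rw [div_lt_one (by positivity)]
    linarith
  have e1 : ∀ k ∈ Finset.range N, Real.exp (-((k : ℝ) / K)) = r ^ k := by
    intro k _
    rw [hr, ← Real.exp_nat_mul]
    congr 1
    ring
  rw [Finset.sum_congr rfl e1]
  have h3 := geom_sum_mul_neg r N
  have h5 : ∑ k ∈ Finset.range N, r ^ k ≤ 1 / (1 - r) := by
    rw [le_div_iff₀ (by linarith), h3]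
    have : 0 < r ^ N := pow_pos hr0 N
    linarith
  refine h5.trans ?_
  rw [div_le_iff₀ (by linarith)]
  have h4 : (1 + K) * (1 / (1 + 1 / K)) = K := by
    field_simp
    ring
  nlinarith

lemma exp_sum_le {K : ℝ} (hK : 1 ≤ K) (S : Finset ℕ) (n : ℕ) :
    ∑ m ∈ S, Real.exp (-(|(n : ℝ) - m| / K)) ≤ 4 * K := by
  have hK0 : 0 < K := by linarith
  rw [← Finset.sum_filter_add_sum_filter_not S (fun m => m ≤ n)]
  have s1 : ∑ m ∈ S with m ≤ n, Real.exp (-(|(n : ℝ) - m| / K)) ≤ 1 + K := by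
    calc _ ≤ ∑ m ∈ S with m ≤ n, Real.exp (-(((n - m : ℕ) : ℝ) / K)) := by
          apply Finset.sum_le_sum
          intro m hm
          rw [Finset.mem_filter] at hm
          rw [Nat.cast_sub hm.2, abs_of_nonneg]
          have : (m : ℝ) ≤ n := by exact_mod_cast hm.2
          linarith
      _ ≤ ∑ k ∈ Finset.range (n + 1), Real.exp (-((k : ℝ) / K)) := by
          apply inj_sum _ (fun m => n - m) _ (n + 1) _ (fun k => Real.exp (-((k : ℝ) / K)))
          · intro k
            exact (Real.exp_pos _).le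
          · intro x hx y hy hxy
            simp only [Finset.coe_filter, Set.mem_setOf_eq] at hx hy
            simp only at hxy
            omega
          · intro m _
            omega
      _ ≤ _ := geo_le hK0 _
  have s2 : ∑ m ∈ S with ¬ m ≤ n, Real.exp (-(|(n : ℝ) - m| / K)) ≤ 1 + K := by
    calc _ ≤ ∑ m ∈ S with ¬ m ≤ n, Real.exp (-(((m - n : ℕ) : ℝ) / K)) := by
          apply Finset.sum_le_sum
          intro m hm
          rw [Finset.mem_filter] at hm
          rw [Nat.cast_sub (by omega), abs_sub_comm, abs_of_nonneg]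
          have : (n : ℝ) ≤ m := by exact_mod_cast (by omega : n ≤ m)
          linarith
      _ ≤ ∑ k ∈ Finset.range (S.sup id + 1), Real.exp (-((k : ℝ) / K)) := by
          apply inj_sum _ (fun m => m - n) _ (S.sup id + 1) _ (fun k => Real.exp (-((k : ℝ) / K)))
          · intro k
            exact (Real.exp_pos _).le
          · intro x hx y hy hxy
            simp only [Finset.coe_filter, Set.mem_setOf_eq] at hx hy
            simp only at hxy
            omega
          · intro m hm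
            rw [Finset.mem_filter] at hm
            have : m ≤ S.sup id := Finset.le_sup (f := id) hm.1
            omega
      _ ≤ _ := geo_le hK0 _
  linarith

/-- **the quadratic form of the Moebius function in exponential windows is small** -/
theorem mob_window (θ : ℝ) (hθ : 0 < θ) (ε : ℝ) (hε : 0 < ε) :
    ∃ b₀ : ℝ, ∃ X₀ : ℕ, 1 ≤ b₀ ∧ ∀ X : ℕ, X₀ ≤ X → ∀ b : ℝ, b₀ ≤ b →
      4 * (b / (2 * Real.pi) / θ) ≤ X → ∀ ψ : ℕ → ℝ, (∀ n, 0 ≤ ψ n ∧ ψ n ≤ 1) →
      (∀ n m : ℕ, |ψ n - ψ m| ≤ |(n : ℝ) - m| / (4 * (b / (2 * Real.pi) / θ))) →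
      (∀ n : ℕ, 3 * X < n → ψ n = 0) →
      b / (2 * Real.pi) / 2 * ‖∑ n ∈ Finset.Icc 1 (3 * X),
        ((ψ n : ℝ) : ℂ) * (mob n : ℂ) * ee ((n : ℝ) * θ) *
        ∑ m ∈ Finset.Icc 1 (3 * X),
          (starRingEnd ℂ) (((ψ m : ℝ) : ℂ) * (mob m : ℂ) * ee ((m : ℝ) * θ)) *
          ((Real.exp (-(|θ * (n : ℝ) - θ * m| / (b / (2 * Real.pi)))) : ℝ) : ℂ)‖ ≤
      ε * b ^ 2 * X := by
  obtain ⟨H₀, X₀, hmain⟩ := expo_mob (ε * θ) (by positivity) 9 (by norm_num)
  have hpi := Real.pi_gt_three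
  refine ⟨max 1 (2 * Real.pi * θ * (max H₀ 1)), X₀, le_max_left _ _, ?_⟩
  intro X hX b hb hbX ψ hψ hψL hψ0
  have hb1 : 1 ≤ b := (le_max_left _ _).trans hb
  have hb2 : 2 * Real.pi * θ * (max H₀ 1) ≤ b := (le_max_right _ _).trans hb
  set B : ℝ := b / (2 * Real.pi) with hB
  have hB0 : 0 < B := by positivity
  set K : ℝ := B / θ with hK
  have hK0 : 0 < K := by positivity
  have hKmax : max H₀ 1 ≤ K := by
    rw [hK, hB, le_div_iff₀ hθ, le_div_iff₀ (by positivity)]
    linarith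
  have hK1 : 1 ≤ K := (le_max_right _ _).trans hKmax
  have hKH : H₀ ≤ 4 * K := by
    have := (le_max_left H₀ 1).trans hKmax
    linarith
  set S := Finset.Icc 1 (3 * X) with hS
  set a : ℕ → ℂ := fun n => ((ψ n : ℝ) : ℂ) * (mob n : ℂ) * ee ((n : ℝ) * θ) with ha
  have hmob : ∀ n : ℕ, ‖(mob n : ℂ)‖ ≤ 1 := by
    intro n
    rw [Complex.norm_intCast]
    have := Pool.Agent.TH823.MRS.mob_bdd n
    exact_mod_cast this
  have han : ∀ n : ℕ, ‖a n‖ ≤ 1 := by
    intro n
    rw [ha]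
    simp only [norm_mul, norm_ee, mul_one]
    rw [Complex.norm_real, Real.norm_of_nonneg (hψ n).1]
    calc ψ n * ‖(mob n : ℂ)‖ ≤ 1 * 1 := mul_le_mul (hψ n).2 (hmob n) (norm_nonneg _) zero_le_one
      _ = 1 := one_mul 1
  set E : ℕ → ℕ → ℝ := fun n m => Real.exp (-(|(n : ℝ) - m| / K)) with hE
  have hEe : ∀ n m : ℕ, Real.exp (-(|θ * (n : ℝ) - θ * m| / B)) = E n m := by
    intro n m
    rw [hE]
    simp only
    congr 2
    rw [← mul_sub, abs_mul, abs_of_pos hθ, hK]
    field_simp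
  set T₀ : ℕ → ℂ := fun n => ∑ m ∈ S, (starRingEnd ℂ) (a m) * ((E n m : ℝ) : ℂ) with hT₀
  have hT₀n : ∀ n, ‖T₀ n‖ ≤ 4 * K := by
    intro n
    rw [hT₀]
    refine (norm_sum_le _ _).trans ?_
    refine (Finset.sum_le_sum fun m _ => ?_).trans (exp_sum_le hK1 S n)
    rw [norm_mul, Complex.norm_conj, Complex.norm_real, Real.norm_of_nonneg (Real.exp_pos _).le]
    exact mul_le_of_le_one_left (Real.exp_pos _).le (han m)
  have hT₀L : ∀ n n' : ℕ, ‖T₀ n - T₀ n'‖ ≤ 8 * |(n : ℝ) - n'| := by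
    intro n n'
    rw [hT₀]
    simp only
    rw [← Finset.sum_sub_distrib]
    refine (norm_sum_le _ _).trans ?_
    have h1 : ∀ m ∈ S, ‖(starRingEnd ℂ) (a m) * ((E n m : ℝ) : ℂ) -
        (starRingEnd ℂ) (a m) * ((E n' m : ℝ) : ℂ)‖ ≤
        |(n : ℝ) - n'| / K * E n m + |(n : ℝ) - n'| / K * E n' m := by
      intro m _
      rw [← mul_sub, norm_mul, Complex.norm_conj, ← Complex.ofReal_sub, Complex.norm_real,
        Real.norm_eq_abs]
      have h2 := exp_diff_le (|(n : ℝ) - m| / K) (|(n' : ℝ) - m| / K)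
      have h3 : |(|(n : ℝ) - m| / K) - |(n' : ℝ) - m| / K| ≤ |(n : ℝ) - n'| / K := by
        rw [← sub_div, abs_div, abs_of_pos hK0]
        apply div_le_div_of_nonneg_right _ hK0.le
        have := abs_abs_sub_abs_le_abs_sub ((n : ℝ) - m) ((n' : ℝ) - m)
        refine this.trans (le_of_eq ?_)
        congr 1
        ring
      calc ‖a m‖ * |E n m - E n' m| ≤ 1 * |E n m - E n' m| := by
            gcongr
            exact han m
        _ = |E n m - E n' m| := one_mul _
        _ ≤ |(|(n : ℝ) - m| / K) - |(n' : ℝ) - m| / K| * (E n m + E n' m) := h2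
        _ ≤ |(n : ℝ) - n'| / K * (E n m + E n' m) := by
            apply mul_le_mul_of_nonneg_right h3
            have := Real.exp_pos (-(|(n : ℝ) - m| / K))
            have := Real.exp_pos (-(|(n' : ℝ) - m| / K))
            rw [hE]
            simp only
            linarith
        _ = _ := by ring
    refine (Finset.sum_le_sum h1).trans ?_
    rw [Finset.sum_add_distrib, ← Finset.mul_sum, ← Finset.mul_sum]
    have h4 := exp_sum_le hK1 S n
    have h5 := exp_sum_le hK1 S n'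
    calc _ ≤ |(n : ℝ) - n'| / K * (4 * K) + |(n : ℝ) - n'| / K * (4 * K) := by gcongr
      _ = _ := by
        field_simp
        ring
  set T : ℕ → ℂ := fun n => ((ψ n : ℝ) : ℂ) * T₀ n with hT
  have hψn : ∀ n, ‖((ψ n : ℝ) : ℂ)‖ ≤ 1 := by
    intro n
    rw [Complex.norm_real, Real.norm_of_nonneg (hψ n).1]
    exact (hψ n).2
  have hTn : ∀ n, ‖T n‖ ≤ 4 * K := by
    intro n
    rw [hT]
    simp only
    rw [norm_mul]
    calc ‖((ψ n : ℝ) : ℂ)‖ * ‖T₀ n‖ ≤ 1 * (4 * K) :=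
          mul_le_mul (hψn n) (hT₀n n) (norm_nonneg _) zero_le_one
      _ = _ := one_mul _
  have hTL : ∀ n m : ℕ, ‖T n - T m‖ ≤ 9 * |(n : ℝ) - m| := by
    intro n m
    have e1 : T n - T m = (((ψ n : ℝ) : ℂ) - ((ψ m : ℝ) : ℂ)) * T₀ n +
        ((ψ m : ℝ) : ℂ) * (T₀ n - T₀ m) := by
      rw [hT]
      ring
    rw [e1]
    refine (norm_add_le _ _).trans ?_
    rw [norm_mul, norm_mul, ← Complex.ofReal_sub, Complex.norm_real, Real.norm_eq_abs]
    have h1 : |ψ n - ψ m| * ‖T₀ n‖ ≤ |(n : ℝ) - m| := by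
      calc |ψ n - ψ m| * ‖T₀ n‖ ≤ |(n : ℝ) - m| / (4 * K) * (4 * K) :=
            mul_le_mul (hψL n m) (hT₀n n) (norm_nonneg _) (by positivity)
        _ = _ := by
            field_simp
    have h2 : ‖((ψ m : ℝ) : ℂ)‖ * ‖T₀ n - T₀ m‖ ≤ 8 * |(n : ℝ) - m| := by
      calc ‖((ψ m : ℝ) : ℂ)‖ * ‖T₀ n - T₀ m‖ ≤ 1 * (8 * |(n : ℝ) - m|) :=
            mul_le_mul (hψn m) (hT₀L n m) (norm_nonneg _) zero_le_one
        _ = _ := one_mul _
    linarith
  have hT0 : ∀ n : ℕ, 3 * X < n → T n = 0 := by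
    intro n hn
    rw [hT]
    simp only
    rw [hψ0 n hn, Complex.ofReal_zero, zero_mul]
  have hfin := hmain X hX (4 * K) hKH hbX T hTn hTL hT0 θ
  have e1 : ∑ n ∈ S, a n * ∑ m ∈ S, (starRingEnd ℂ) (a m) *
      ((Real.exp (-(|θ * (n : ℝ) - θ * m| / B)) : ℝ) : ℂ) =
      ∑ n ∈ S, (mob n : ℂ) * ee ((n : ℝ) * θ) * T n := by
    apply Finset.sum_congr rfl
    intro n _
    rw [hT, hT₀]
    simp only [hEe]
    rw [ha]
    ring
  show B / 2 * ‖∑ n ∈ S, a n * ∑ m ∈ S, (starRingEnd ℂ) (a m) *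
      ((Real.exp (-(|θ * (n : ℝ) - θ * m| / B)) : ℝ) : ℂ)‖ ≤ _
  rw [e1]
  calc B / 2 * ‖∑ n ∈ S, (mob n : ℂ) * ee ((n : ℝ) * θ) * T n‖ ≤
        B / 2 * (ε * θ * (4 * K) * X) := by gcongr
    _ = 2 * B ^ 2 * ε * X := by
        rw [hK]
        field_simp
        ring
    _ ≤ ε * b ^ 2 * X := by
        have h1 : 2 * B ^ 2 ≤ b ^ 2 := by
          rw [hB, div_pow, ← mul_div_assoc, div_le_iff₀ (by positivity), mul_comm 2]
          apply mul_le_mul_of_nonneg_left _ (sq_nonneg b)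
          nlinarith
        have h2 : 0 ≤ ε * (X : ℝ) := by positivity
        nlinarith

end Pool.Agent.T9h53.AH
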