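import Pool.Agent.Helper76.HPlanch

/-! # Exponential windows and Plancherel's theorem -/

set_option autoImplicit false

open Complex Filter Topology Set MeasureTheory FourierTransform

namespace Pool.Agent.T9h53.AH

/-- the one sided exponential -/
noncomputable def hw (B : ℝ) : ℝ → ℂ :=
  (Ioi (0 : ℝ)).indicator (fun u : ℝ => cexp (((-(1 / B) : ℝ) : ℂ) * u))

lemma hw_integrable {B : ℝ} (hB : 0 < B) : Integrable (hw B) := by
  unfold hw
  rw [integrable_indicator_iff measurableSet_Ioi]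
  apply integrableOn_exp_mul_complex_Ioi
  rw [Complex.ofReal_re]
  have : 0 < 1 / B := by positivity
  linarith

lemma hw_norm_le {B : ℝ} (hB : 0 < B) (u : ℝ) : ‖hw B u‖ ≤ 1 := by
  unfold hw
  by_cases h : u ∈ Ioi (0 : ℝ)
  · rw [indicator_of_mem h, ← Complex.ofReal_mul, ← Complex.ofReal_exp, Complex.norm_real,
      Real.norm_of_nonneg (Real.exp_pos _).le, Real.exp_le_one_iff]
    have h1 : 0 < 1 / B := by positivity
    have h2 : (0 : ℝ) < u := h
    nlinarith
  · rw [indicator_of_notMem h, norm_zero]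
    exact zero_le_one

lemma hw_memLp {B : ℝ} (hB : 0 < B) : MemLp (hw B) 2 := by
  have h := hw_integrable hB
  rw [memLp_two_iff_integrable_sq_norm h.aestronglyMeasurable]
  refine Integrable.mono' h.norm (h.norm.aestronglyMeasurable.pow 2)
    (Filter.Eventually.of_forall fun u => ?_)
  have h1 := hw_norm_le hB u
  rw [Real.norm_of_nonneg (by positivity)]
  nlinarith [norm_nonneg (hw B u)]

lemma hw_fourier {B : ℝ} (hB : 0 < B) (ξ : ℝ) :
    𝓕 (hw B) ξ = 1 / (((1 / B : ℝ) : ℂ) + ((2 * Real.pi * ξ : ℝ) : ℂ) * I) := by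
  rw [Real.fourier_real_eq_integral_exp_smul]
  have e1 : ∀ v : ℝ, cexp (((-2 * Real.pi * v * ξ : ℝ) : ℂ) * I) • hw B v =
      (Ioi (0 : ℝ)).indicator (fun v : ℝ => cexp ((-(((1 / B : ℝ) : ℂ) +
        ((2 * Real.pi * ξ : ℝ) : ℂ) * I)) * v)) v := by
    intro v
    unfold hw
    by_cases h : v ∈ Ioi (0 : ℝ)
    · rw [indicator_of_mem h, indicator_of_mem h, smul_eq_mul, ← Complex.exp_add]
      congr 1
      push_cast
      ring
    · rw [indicator_of_notMem h, indicator_of_notMem h, smul_zero]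
  simp_rw [e1]
  rw [integral_indicator measurableSet_Ioi, integral_exp_mul_complex_Ioi]
  · rw [Complex.ofReal_zero, mul_zero, Complex.exp_zero, neg_div_neg_eq]
  · rw [Complex.neg_re, Complex.add_re, Complex.ofReal_re, Complex.re_ofReal_mul, I_re, mul_zero,
      add_zero]
    have : 0 < 1 / B := by positivity
    linarith

/-- the window sum -/
noncomputable def fw (B : ℝ) (S : Finset ℕ) (a : ℕ → ℂ) (p : ℕ → ℝ) (u : ℝ) : ℂ :=
  ∑ n ∈ S, a n * hw B (u - p n)

lemma fw_integrable {B : ℝ} (hB : 0 < B) (S : Finset ℕ) (a : ℕ → ℂ) (p : ℕ → ℝ) :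
    Integrable (fw B S a p) := by
  unfold fw
  exact integrable_finsetSum _ fun n _ => ((hw_integrable hB).comp_sub_right (p n)).const_mul _

lemma fw_memLp {B : ℝ} (hB : 0 < B) (S : Finset ℕ) (a : ℕ → ℂ) (p : ℕ → ℝ) :
    MemLp (fw B S a p) 2 := by
  unfold fw
  apply memLp_finsetSum
  intro n _
  apply MemLp.const_mul
  exact (hw_memLp hB).comp_measurePreserving (measurePreserving_sub_right volume (p n))

lemma fw_fourier {B : ℝ} (hB : 0 < B) (S : Finset ℕ) (a : ℕ → ℂ) (p : ℕ → ℝ) (ξ : ℝ) :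
    𝓕 (fw B S a p) ξ = (∑ n ∈ S, a n * cexp (((-(2 * Real.pi * p n * ξ) : ℝ) : ℂ) * I)) *
      (1 / (((1 / B : ℝ) : ℂ) + ((2 * Real.pi * ξ : ℝ) : ℂ) * I)) := by
  rw [← hw_fourier hB, Real.fourier_real_eq_integral_exp_smul,
    Real.fourier_real_eq_integral_exp_smul]
  have hb : ∀ c : ℝ, Integrable fun v : ℝ => cexp (((-2 * Real.pi * v * ξ : ℝ) : ℂ) * I) *
      hw B (v - c) := by
    intro c
    refine ((hw_integrable hB).comp_sub_right c).bdd_mul (c := 1) (by fun_prop)
      (Eventually.of_forall fun v => ?_)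
    rw [Complex.norm_exp_ofReal_mul_I]
  have e1 : ∀ v : ℝ, cexp (((-2 * Real.pi * v * ξ : ℝ) : ℂ) * I) • fw B S a p v =
      ∑ n ∈ S, a n * (cexp (((-2 * Real.pi * v * ξ : ℝ) : ℂ) * I) * hw B (v - p n)) := by
    intro v
    unfold fw
    rw [smul_eq_mul, Finset.mul_sum]
    apply Finset.sum_congr rfl
    intro n _
    ring
  simp_rw [e1]
  rw [integral_finsetSum _ fun n _ => (hb (p n)).const_mul (a n), Finset.sum_mul]
  apply Finset.sum_congr rfl
  intro n _
  rw [integral_const_mul, mul_assoc]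
  congr 1
  have e2 := integral_sub_right_eq_self
    (fun v : ℝ => cexp (((-2 * Real.pi * (v + p n) * ξ : ℝ) : ℂ) * I) * hw B v) (p n)
    (μ := (volume : Measure ℝ))
  simp only [sub_add_cancel] at e2
  rw [e2, ← integral_const_mul]
  apply integral_congr_ae
  refine Filter.Eventually.of_forall fun v => ?_
  simp only [smul_eq_mul]
  rw [← mul_assoc, ← Complex.exp_add]
  congr 2
  push_cast
  ring

lemma hw_pair {B : ℝ} (hB : 0 < B) (x y : ℝ) :
    Integrable (fun u : ℝ => hw B (u - x) * (starRingEnd ℂ) (hw B (u - y))) ∧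
    ∫ u : ℝ, hw B (u - x) * (starRingEnd ℂ) (hw B (u - y)) =
      ((B / 2 * Real.exp (-(|x - y| / B)) : ℝ) : ℂ) := by
  have e1 : ∀ u : ℝ, hw B (u - x) * (starRingEnd ℂ) (hw B (u - y)) =
      (Ioi (max x y)).indicator (fun u : ℝ => ((Real.exp ((x + y) / B) : ℝ) : ℂ) *
        cexp (((-(2 / B) : ℝ) : ℂ) * u)) u := by
    intro u
    unfold hw
    by_cases h : u ∈ Ioi (max x y)
    · have h' : max x y < u := h
      have h1 : u - x ∈ Ioi (0 : ℝ) := by
        have := le_max_left x y
        simp only [mem_Ioi]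
        linarith
      have h2 : u - y ∈ Ioi (0 : ℝ) := by
        have := le_max_right x y
        simp only [mem_Ioi]
        linarith
      rw [indicator_of_mem h, indicator_of_mem h1, indicator_of_mem h2, ← Complex.exp_conj,
        map_mul, Complex.conj_ofReal, Complex.conj_ofReal, ← Complex.exp_add, Complex.ofReal_exp,
        ← Complex.exp_add]
      congr 1
      push_cast
      ring
    · rw [indicator_of_notMem h]
      have h' : ¬ (max x y < u) := h
      rw [max_lt_iff, not_and_or] at h'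
      rcases h' with h1 | h1
      · have : u - x ∉ Ioi (0 : ℝ) := by
          simp only [mem_Ioi]
          intro h2
          apply h1
          linarith
        rw [indicator_of_notMem this, zero_mul]
      · have : u - y ∉ Ioi (0 : ℝ) := by
          simp only [mem_Ioi]
          intro h2
          apply h1
          linarith
        rw [indicator_of_notMem this, map_zero, mul_zero]
  have hneg : (((-(2 / B) : ℝ) : ℂ)).re < 0 := by
    rw [Complex.ofReal_re]
    have : 0 < 2 / B := by positivity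
    linarith
  simp_rw [e1]
  constructor
  · rw [integrable_indicator_iff measurableSet_Ioi]
    exact (integrableOn_exp_mul_complex_Ioi hneg _).const_mul _
  · rw [integral_indicator measurableSet_Ioi, integral_const_mul,
      integral_exp_mul_complex_Ioi hneg, ← Complex.ofReal_mul, ← Complex.ofReal_exp,
      ← Complex.ofReal_neg, ← Complex.ofReal_div, ← Complex.ofReal_mul]
    congr 1
    have e2 : 2 * max x y = x + y + |x - y| := by
      rcases le_total x y with h | h
      · rw [max_eq_right h, abs_of_nonpos (by linarith)]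
        ring
      · rw [max_eq_left h, abs_of_nonneg (by linarith)]
        ring
    rw [show -Real.exp (-(2 / B) * max x y) / -(2 / B) = B / 2 * Real.exp (-(2 / B) * max x y) by
      field_simp]
    rw [mul_left_comm, ← Real.exp_add]
    congr 2
    field_simp
    linarith

/-- **Plancherel** for the exponential windows -/
theorem fw_planch {B : ℝ} (hB : 0 < B) (S : Finset ℕ) (a : ℕ → ℂ) (p : ℕ → ℝ) :
    ∫⁻ ξ : ℝ, ‖(∑ n ∈ S, a n * cexp (((-(2 * Real.pi * p n * ξ) : ℝ) : ℂ) * I)) *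
      (1 / (((1 / B : ℝ) : ℂ) + ((2 * Real.pi * ξ : ℝ) : ℂ) * I))‖ₑ ^ 2 ≤
    ENNReal.ofReal (B / 2 * ‖∑ n ∈ S, a n * ∑ m ∈ S, (starRingEnd ℂ) (a m) *
      ((Real.exp (-(|p n - p m| / B)) : ℝ) : ℂ)‖) := by
  simp_rw [← fw_fourier hB]
  rw [Pool.Agent.Helper76.NormalHP.plancherel_lintegral _ (fw_integrable hB S a p)
    (fw_memLp hB S a p)]
  have hint : Integrable fun u : ℝ => ‖fw B S a p u‖ ^ 2 :=
    (memLp_two_iff_integrable_sq_norm (fw_integrable hB S a p).aestronglyMeasurable).mp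
      (fw_memLp hB S a p)
  have e1 : ∫⁻ t : ℝ, ‖fw B S a p t‖ₑ ^ 2 = ENNReal.ofReal (∫ t : ℝ, ‖fw B S a p t‖ ^ 2) := by
    rw [ofReal_integral_eq_lintegral_ofReal hint (Filter.Eventually.of_forall fun _ => by positivity)]
    apply lintegral_congr
    intro t
    rw [← ofReal_norm, ENNReal.ofReal_pow (norm_nonneg _)]
  rw [e1]
  apply ENNReal.ofReal_le_ofReal
  have hexp : ∀ u : ℝ, ((‖fw B S a p u‖ ^ 2 : ℝ) : ℂ) =
      ∑ n ∈ S, ∑ m ∈ S, a n * (starRingEnd ℂ) (a m) *
        (hw B (u - p n) * (starRingEnd ℂ) (hw B (u - p m))) := by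
    intro u
    unfold fw
    rw [Complex.ofReal_pow, ← Complex.mul_conj', map_sum, Finset.sum_mul_sum]
    apply Finset.sum_congr rfl
    intro n _
    apply Finset.sum_congr rfl
    intro m _
    rw [map_mul]
    ring
  have e2 : ((∫ t : ℝ, ‖fw B S a p t‖ ^ 2 : ℝ) : ℂ) =
      ∑ n ∈ S, ∑ m ∈ S, a n * (starRingEnd ℂ) (a m) *
        ((B / 2 * Real.exp (-(|p n - p m| / B)) : ℝ) : ℂ) := by
    rw [← integral_complex_ofReal]
    simp_rw [hexp]
    rw [integral_finsetSum _ fun n _ => integrable_finsetSum _ fun m _ =>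
      ((hw_pair hB (p n) (p m)).1).const_mul _]
    apply Finset.sum_congr rfl
    intro n _
    rw [integral_finsetSum _ fun m _ => ((hw_pair hB (p n) (p m)).1).const_mul _]
    apply Finset.sum_congr rfl
    intro m _
    rw [integral_const_mul, (hw_pair hB (p n) (p m)).2]
  have e3 : ∑ n ∈ S, ∑ m ∈ S, a n * (starRingEnd ℂ) (a m) *
        ((B / 2 * Real.exp (-(|p n - p m| / B)) : ℝ) : ℂ) =
      ((B / 2 : ℝ) : ℂ) * ∑ n ∈ S, a n * ∑ m ∈ S, (starRingEnd ℂ) (a m) *
      ((Real.exp (-(|p n - p m| / B)) : ℝ) : ℂ) := by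
    rw [Finset.mul_sum]
    apply Finset.sum_congr rfl
    intro n _
    rw [Finset.mul_sum, Finset.mul_sum]
    apply Finset.sum_congr rfl
    intro m _
    push_cast
    ring
  rw [e3] at e2
  have e4 : ∫ t : ℝ, ‖fw B S a p t‖ ^ 2 ≤ ‖((∫ t : ℝ, ‖fw B S a p t‖ ^ 2 : ℝ) : ℂ)‖ := by
    rw [Complex.norm_real]
    exact le_abs_self _
  rw [e2, norm_mul, Complex.norm_real, Real.norm_of_nonneg (by positivity)] at e4
  exact e4

end Pool.Agent.T9h53.AH
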