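import Pool.Agent.T9h53.AH.Ph
import Pool.Agent.T9h53.AH.Pl
import Pool.Agent.T9h53.AH.Mob
import Pool.Agent.H402R2.T4bA
import Pool.Agent.T9h53.EQ.Term

/-! # The window of the main part of the polynomial is a Fourier transform -/

set_option autoImplicit false

open Complex Filter Topology Set MeasureTheory FourierTransform

namespace Pool.Agent.T9h53.AH

open Pool.Agent.T9h53.SZ Pool.Agent.T9h53.EQ

/-- the function of one term -/
noncomputable def ph1 (w : ℂ) (n : ℕ) (r : ℝ) : ℂ :=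
  cexp ((r : ℂ) / 2 - n * w * ((Real.exp r : ℝ) : ℂ))

lemma w1_re (β δ : ℝ) : (w1 β δ).re = δ := rfl

lemma w1_ne (β : ℝ) {δ : ℝ} (hδ : 0 < δ) : w1 β δ ≠ 0 := by
  intro h
  have := congrArg Complex.re h
  rw [w1_re, zero_re] at this
  linarith

lemma mel_one (β : ℝ) {δ : ℝ} (hδ : 0 < δ) {n : ℕ} (hn : 1 ≤ n) (y : ℝ) :
    HH β δ y * (((Real.exp (-(Real.log n / 2)) : ℝ) : ℂ) * cexp ((Real.log n : ℂ) * ⟨0, y⟩)) =
      ∫ r : ℝ, ph1 (w1 β δ) n r * cexp (((-(r * y) : ℝ) : ℂ) * I) := by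
  have hn0 : (0 : ℝ) < n := by exact_mod_cast hn
  set w := w1 β δ with hw
  have hw0 : w ≠ 0 := w1_ne β hδ
  set a : ℂ := 1 / 2 - y * I with ha
  have hare : 0 < a.re := by simp [ha]
  have hr : 0 < (((n : ℝ) : ℂ) * w).re := by
    rw [re_ofReal_mul, hw, w1_re]
    positivity
  have h := Pool.Agent.H402R2.T4b.rot_formula hare hr
  have himg : Real.exp '' (univ : Set ℝ) = Ioi 0 := by
    rw [image_univ, Real.range_exp]
  rw [← himg, integral_image_eq_integral_abs_deriv_smul MeasurableSet.univ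
    (fun x _ => (Real.hasDerivAt_exp x).hasDerivWithinAt) (Real.exp_injective.injOn),
    setIntegral_univ] at h
  have harg : (((n : ℝ) : ℂ) * w).arg ≠ Real.pi := by
    intro h1
    rw [Complex.arg_eq_pi_iff] at h1
    linarith [h1.1]
  have hlog : Complex.log (1 / (((n : ℝ) : ℂ) * w)) = -(((Real.log n : ℝ) : ℂ) + Complex.log w) := by
    rw [one_div, Complex.log_inv _ harg, Complex.log_ofReal_mul hn0 hw0]
  have hne : 1 / (((n : ℝ) : ℂ) * w) ≠ 0 := by
    rw [one_div]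
    apply inv_ne_zero
    apply mul_ne_zero _ hw0
    exact_mod_cast hn0.ne'
  rw [Complex.cpow_def_of_ne_zero hne, hlog] at h
  have e1 : HH β δ y * (((Real.exp (-(Real.log n / 2)) : ℝ) : ℂ) *
      cexp ((Real.log n : ℂ) * ⟨0, y⟩)) =
      cexp (-(((Real.log n : ℝ) : ℂ) + Complex.log w) * a) * Gamma a := by
    unfold HH
    rw [← hw, ← ha, Complex.ofReal_exp, mul_assoc, ← Complex.exp_add, ← Complex.exp_add, mul_comm]
    congr 2
    rw [mk_eq, ha]
    push_cast
    ring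
  rw [e1, ← h]
  apply integral_congr_ae
  refine Filter.Eventually.of_forall fun r => ?_
  simp only
  have hexp : ((Real.exp r : ℝ) : ℂ) ≠ 0 := by exact_mod_cast (Real.exp_pos r).ne'
  rw [Complex.cpow_def_of_ne_zero hexp, ← Complex.ofReal_log (Real.exp_pos r).le, Real.log_exp,
    abs_of_pos (Real.exp_pos r), Complex.real_smul]
  unfold ph1
  rw [← Complex.exp_add, ← Complex.exp_add]
  nth_rewrite 1 [Complex.ofReal_exp]
  rw [← Complex.exp_add]
  congr 1
  rw [ha]
  push_cast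
  ring

lemma ph1_norm (β : ℝ) (δ : ℝ) (n : ℕ) (r : ℝ) :
    ‖ph1 (w1 β δ) n r‖ = Real.exp (r / 2) * Real.exp (-(n * δ * Real.exp r)) := by
  unfold ph1
  rw [Complex.norm_exp, ← Real.exp_add]
  congr 1
  rw [sub_re, show ((r : ℂ) / 2) = ((r / 2 : ℝ) : ℂ) by push_cast; ring, ofReal_re,
    show (n : ℂ) * w1 β δ * ((Real.exp r : ℝ) : ℂ) = (((n : ℝ) * Real.exp r : ℝ) : ℂ) * w1 β δ by
      push_cast; ring, re_ofReal_mul, w1_re]
  ring

lemma exp_bd {δ : ℝ} (hδ : 0 < δ) {n : ℕ} (hn : 1 ≤ n) (r : ℝ) :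
    Real.exp (r / 2) * Real.exp (-(n * δ * Real.exp r)) ≤ (1 + 1 / δ) * Real.exp (-(1 / 2 * |r|)) := by
  have hn0 : (1 : ℝ) ≤ n := by exact_mod_cast hn
  have hE := Real.exp_pos r
  have hd : 0 < 1 / δ := by positivity
  rcases le_total r 0 with h | h
  · rw [abs_of_nonpos h]
    have h1 : Real.exp (-(n * δ * Real.exp r)) ≤ 1 := by
      rw [Real.exp_le_one_iff]
      have : 0 ≤ n * δ * Real.exp r := by positivity
      linarith
    have h2 : Real.exp (r / 2) = Real.exp (-(1 / 2 * -r)) := by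
      congr 1
      ring
    rw [h2]
    have h3 := Real.exp_pos (-(1 / 2 * -r))
    calc Real.exp (-(1 / 2 * -r)) * Real.exp (-(n * δ * Real.exp r)) ≤
        Real.exp (-(1 / 2 * -r)) * 1 := by gcongr
      _ ≤ _ := by nlinarith
  · rw [abs_of_nonneg h]
    have h1 : Real.exp (-(n * δ * Real.exp r)) ≤ 1 / δ * Real.exp (-r) := by
      have h2 := Real.add_one_le_exp (δ * Real.exp r)
      have h3 : Real.exp (-(n * δ * Real.exp r)) ≤ Real.exp (-(δ * Real.exp r)) := by
        apply Real.exp_le_exp.mpr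
        have : 1 * (δ * Real.exp r) ≤ n * (δ * Real.exp r) := by gcongr
        linarith
      refine h3.trans ?_
      rw [Real.exp_neg, Real.exp_neg, one_div, ← mul_inv]
      apply inv_anti₀ (by positivity)
      linarith
    calc Real.exp (r / 2) * Real.exp (-(n * δ * Real.exp r)) ≤
        Real.exp (r / 2) * (1 / δ * Real.exp (-r)) := by gcongr
      _ = 1 / δ * (Real.exp (r / 2) * Real.exp (-r)) := by ring
      _ = 1 / δ * Real.exp (-(1 / 2 * r)) := by
        rw [← Real.exp_add]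
        congr 2
        ring
      _ ≤ _ := by
        have := Real.exp_pos (-(1 / 2 * r))
        nlinarith

lemma ph1_cont (w : ℂ) (n : ℕ) : Continuous (ph1 w n) := by
  unfold ph1
  fun_prop

lemma ph1_int (β : ℝ) {δ : ℝ} (hδ : 0 < δ) {n : ℕ} (hn : 1 ≤ n) :
    Integrable (ph1 (w1 β δ) n) := by
  refine Integrable.mono' ((Pool.Agent.H402R2.T4b.int_exp_abs (a := 1 / 2) (by norm_num)).const_mul
    (1 + 1 / δ)) (ph1_cont _ _).aestronglyMeasurable (Filter.Eventually.of_forall fun r => ?_)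
  rw [ph1_norm]
  exact exp_bd hδ hn r

/-- the weighted polynomial -/
noncomputable def PP (S : Finset ℕ) (a : ℕ → ℂ) (z : ℂ) : ℂ :=
  ∑ n ∈ S, a n * (((Real.exp (-(Real.log n / 2)) : ℝ) : ℂ) * cexp ((Real.log n : ℂ) * z))

/-- the sum of the functions -/
noncomputable def ph2 (w : ℂ) (S : Finset ℕ) (a : ℕ → ℂ) (r : ℝ) : ℂ := ∑ n ∈ S, a n * ph1 w n r

lemma ph2_cont (w : ℂ) (S : Finset ℕ) (a : ℕ → ℂ) : Continuous (ph2 w S a) := by
  unfold ph2
  exact continuous_finsetSum _ fun n _ => continuous_const.mul (ph1_cont w n)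

lemma ph2_int (β : ℝ) {δ : ℝ} (hδ : 0 < δ) (S : Finset ℕ) (hS : ∀ n ∈ S, 1 ≤ n) (a : ℕ → ℂ) :
    Integrable (ph2 (w1 β δ) S a) := by
  unfold ph2
  exact integrable_finsetSum _ fun n hn => (ph1_int β hδ (hS n hn)).const_mul _

lemma mel_sum (β : ℝ) {δ : ℝ} (hδ : 0 < δ) (S : Finset ℕ) (hS : ∀ n ∈ S, 1 ≤ n) (a : ℕ → ℂ) (y : ℝ) :
    HH β δ y * PP S a ⟨0, y⟩ =
      ∫ r : ℝ, ph2 (w1 β δ) S a r * cexp (((-(r * y) : ℝ) : ℂ) * I) := by
  unfold PP ph2
  simp_rw [Finset.sum_mul]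
  rw [integral_finsetSum]
  · rw [Finset.mul_sum]
    apply Finset.sum_congr rfl
    intro n hn
    simp_rw [mul_assoc]
    rw [integral_const_mul, ← mel_one β hδ (hS n hn) y]
    ring
  · intro n hn
    simp_rw [mul_assoc]
    apply Integrable.const_mul
    have h := ph1_int β hδ (hS n hn)
    have h2 : Integrable fun r : ℝ => cexp (((-(r * y) : ℝ) : ℂ) * I) * ph1 (w1 β δ) n r := by
      refine h.bdd_mul (c := 1) (by fun_prop) (Eventually.of_forall fun v => ?_)
      rw [Complex.norm_exp_ofReal_mul_I]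
    refine h2.congr (Eventually.of_forall fun v => ?_)
    simp only
    ring

end Pool.Agent.T9h53.AH
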