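import Pool.Agent.T9h53.AH.Mel

/-! # The mean square of the window of the main part -/

set_option autoImplicit false

open Complex Filter Topology Set MeasureTheory FourierTransform

namespace Pool.Agent.T9h53.AH

open Pool.Agent.T9h53.SZ Pool.Agent.T9h53.EQ
open Pool.Agent.H807R2.Dav (ee norm_ee)

/-- transform of the kernel -/
noncomputable def kh (b Y r : ℝ) : ℂ :=
  ∫ v in (-Y)..Y, cexp (((-(r * v) : ℝ) : ℂ) * I) * kw b⁻¹ 0 v

lemma kh_cont (b Y : ℝ) : Continuous (kh b Y) := by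
  have hk := kw_cont b⁻¹ 0
  unfold kh
  apply intervalIntegral.continuous_parametric_intervalIntegral_of_continuous'
  simp only [Function.uncurry_def]
  apply Continuous.mul (by fun_prop)
  exact hk.comp continuous_snd

lemma kh_le {b Y : ℝ} (hb : 1 ≤ b) (hY : 0 ≤ Y) (r : ℝ) : ‖kh b Y r‖ ≤ ta b Y |r| := by
  have hA : Amp (fun _ => (1 : ℂ)) 1 0 b Y 0 :=
    ⟨fun z _ _ => differentiableAt_const _, fun σ v _ _ => by simp⟩
  have h := far_tm hA (-r) (by norm_num) hb hY (s₀ := 0) (κ := |r|) (by simp) (abs_nonneg _)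
    (by rw [sub_zero, abs_neg])
  rw [zero_mul, Real.exp_zero, one_mul, one_mul] at h
  have e1 : VW (tm (fun _ => 1) (-r)) b⁻¹ Y 0 0 = kh b Y r := by
    unfold VW kh
    congr 1
    funext v
    unfold tm
    rw [mk_eq, one_mul]
    congr 2
    push_cast
    ring
  rw [← e1]
  exact h

/-- the function whose transform is the window -/
noncomputable def gf (w : ℂ) (S : Finset ℕ) (a : ℕ → ℂ) (b Y r : ℝ) : ℂ := ph2 w S a r * kh b Y r

lemma ta_pos {b Y κ : ℝ} (hb : 1 ≤ b) : 0 ≤ ta b Y κ := by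
  unfold ta
  have := ed_pos b Y
  have := Real.exp_pos (-((b - 1) * κ))
  positivity

lemma ta_le {b Y κ : ℝ} (hb : 1 ≤ b) (hκ : 0 ≤ κ) : ta b Y κ ≤ ta b Y 0 := by
  unfold ta
  have : Real.exp (-((b - 1) * κ)) ≤ Real.exp (-((b - 1) * 0)) := by
    apply Real.exp_le_exp.mpr
    nlinarith
  gcongr

lemma gf_int (β : ℝ) {δ : ℝ} (hδ : 0 < δ) (S : Finset ℕ) (hS : ∀ n ∈ S, 1 ≤ n) (a : ℕ → ℂ)
    {b Y : ℝ} (hb : 1 ≤ b) (hY : 0 ≤ Y) : Integrable (gf (w1 β δ) S a b Y) := by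
  have h := ph2_int β hδ S hS a
  have h2 : Integrable fun r : ℝ => kh b Y r * ph2 (w1 β δ) S a r := by
    refine h.bdd_mul (c := ta b Y 0) (kh_cont b Y).aestronglyMeasurable
      (Eventually.of_forall fun v => ?_)
    exact (kh_le hb hY v).trans (ta_le hb (abs_nonneg _))
  refine h2.congr (Eventually.of_forall fun v => ?_)
  unfold gf
  simp only
  ring

lemma gf_cont (w : ℂ) (S : Finset ℕ) (a : ℕ → ℂ) (b Y : ℝ) : Continuous (gf w S a b Y) := by
  unfold gf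
  exact (ph2_cont w S a).mul (kh_cont b Y)

lemma ph2_norm (β : ℝ) {δ : ℝ} (hδ : 0 < δ) (S : Finset ℕ) (hS : ∀ n ∈ S, 1 ≤ n) (a : ℕ → ℂ)
    (ha : ∀ n, ‖a n‖ ≤ 1) (r : ℝ) :
    ‖ph2 (w1 β δ) S a r‖ ≤ S.card * ((1 + 1 / δ) * Real.exp (-(1 / 2 * |r|))) := by
  unfold ph2
  rw [← nsmul_eq_mul]
  refine (norm_sum_le _ _).trans (Finset.sum_le_card_nsmul _ _ _ fun n hn => ?_)
  rw [norm_mul, ph1_norm]
  have h1 := exp_bd hδ (hS n hn) r
  calc ‖a n‖ * (Real.exp (r / 2) * Real.exp (-(n * δ * Real.exp r))) ≤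
      1 * ((1 + 1 / δ) * Real.exp (-(1 / 2 * |r|))) :=
        mul_le_mul (ha n) h1 (by positivity) zero_le_one
    _ = _ := one_mul _

lemma gf_memLp (β : ℝ) {δ : ℝ} (hδ : 0 < δ) (S : Finset ℕ) (hS : ∀ n ∈ S, 1 ≤ n) (a : ℕ → ℂ)
    (ha : ∀ n, ‖a n‖ ≤ 1) {b Y : ℝ} (hb : 1 ≤ b) (hY : 0 ≤ Y) : MemLp (gf (w1 β δ) S a b Y) 2 := by
  have h := gf_int β hδ S hS a hb hY
  rw [memLp_two_iff_integrable_sq_norm h.aestronglyMeasurable]
  set C : ℝ := S.card * (1 + 1 / δ) * ta b Y 0 with hC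
  have hta := ta_pos (κ := 0) (Y := Y) hb
  have hbd : ∀ r, ‖gf (w1 β δ) S a b Y r‖ ≤ C := by
    intro r
    unfold gf
    rw [norm_mul, hC]
    have h1 := ph2_norm β hδ S hS a ha r
    have h2 : Real.exp (-(1 / 2 * |r|)) ≤ 1 := by
      rw [Real.exp_le_one_iff]
      have := abs_nonneg r
      linarith
    have h3 : ‖ph2 (w1 β δ) S a r‖ ≤ S.card * (1 + 1 / δ) := by
      refine h1.trans ?_
      calc (S.card : ℝ) * ((1 + 1 / δ) * Real.exp (-(1 / 2 * |r|))) ≤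
          S.card * ((1 + 1 / δ) * 1) := by gcongr
        _ = _ := by ring
    exact mul_le_mul h3 ((kh_le hb hY r).trans (ta_le hb (abs_nonneg _))) (norm_nonneg _)
      (by positivity)
  refine Integrable.mono' (h.norm.const_mul C) (h.norm.aestronglyMeasurable.pow 2)
    (Filter.Eventually.of_forall fun u => ?_)
  have h1 := hbd u
  rw [Real.norm_of_nonneg (by positivity), sq]
  exact mul_le_mul_of_nonneg_right h1 (norm_nonneg _)

/-- **the window is a Fourier transform** -/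
theorem win_fourier (β : ℝ) {δ : ℝ} (hδ : 0 < δ) (S : Finset ℕ) (hS : ∀ n ∈ S, 1 ≤ n) (a : ℕ → ℂ)
    {b Y : ℝ} (hb : 1 ≤ b) (hY : 0 ≤ Y) (t : ℝ) :
    VW (fun z => HH β δ z.im * PP S a z) b⁻¹ Y t 0 =
      𝓕 (gf (w1 β δ) S a b Y) ((2 * Real.pi)⁻¹ * t) := by
  have hk := kw_cont b⁻¹ 0
  have hb0 : 0 < b := by linarith
  rw [Real.fourier_real_eq_integral_exp_smul]
  unfold VW
  simp only
  have e1 : ∀ v : ℝ, HH β δ (t + v) * PP S a ⟨0, t + v⟩ * kw b⁻¹ 0 v =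
      ∫ r : ℝ, ph2 (w1 β δ) S a r * cexp (((-(r * (t + v)) : ℝ) : ℂ) * I) * kw b⁻¹ 0 v := by
    intro v
    rw [mel_sum β hδ S hS a (t + v), integral_mul_const]
  simp_rw [e1]
  rw [intervalIntegral.integral_of_le (by linarith)]
  rw [integral_integral_swap]
  · apply integral_congr_ae
    refine Filter.Eventually.of_forall fun r => ?_
    simp only
    rw [← intervalIntegral.integral_of_le (by linarith)]
    unfold gf kh
    rw [smul_eq_mul, ← intervalIntegral.integral_const_mul, ← intervalIntegral.integral_const_mul]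
    congr 1
    funext v
    have e2 : cexp (((-(r * (t + v)) : ℝ) : ℂ) * I) =
        cexp (((-2 * Real.pi * r * ((2 * Real.pi)⁻¹ * t) : ℝ) : ℂ) * I) *
        cexp (((-(r * v) : ℝ) : ℂ) * I) := by
      rw [← Complex.exp_add]
      congr 1
      have hpi : (Real.pi : ℂ) ≠ 0 := by exact_mod_cast Real.pi_ne_zero
      push_cast
      field_simp
      ring
    rw [e2]
    ring
  · have hp := ph2_int β hδ S hS a
    have h0 : Integrable (fun _ : ℝ => (1 : ℝ)) (volume.restrict (Ioc (-Y) Y)) :=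
      integrable_const _
    have h1 : Integrable (fun p : ℝ × ℝ => (1 : ℝ) * ‖ph2 (w1 β δ) S a p.2‖)
        ((volume.restrict (Ioc (-Y) Y)).prod volume) := h0.mul_prod hp.norm
    refine Integrable.mono' h1 ?_ (Filter.Eventually.of_forall fun p => ?_)
    · apply Continuous.aestronglyMeasurable
      simp only [Function.uncurry_def]
      apply Continuous.mul
      · apply Continuous.mul
        · exact (ph2_cont _ S a).comp continuous_snd
        · fun_prop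
      · exact hk.comp continuous_fst
    · simp only [Function.uncurry_def]
      rw [norm_mul, norm_mul, Complex.norm_exp_ofReal_mul_I, mul_one, one_mul]
      have := kw_le_one (a := b⁻¹) (c := 0) p.1 (by simp)
      exact mul_le_of_le_one_right (norm_nonneg _) this

lemma lint_scale (f : ℝ → ENNReal) {c : ℝ} (hc : 0 < c) :
    ∫⁻ t : ℝ, f (c⁻¹ * t) = ENNReal.ofReal c * ∫⁻ t : ℝ, f t := by
  have h := Real.map_volume_mul_left (a := c⁻¹) (inv_ne_zero hc.ne')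
  have h2 : ∫⁻ t : ℝ, f t ∂(Measure.map (c⁻¹ * ·) volume) = ∫⁻ t : ℝ, f (c⁻¹ * t) :=
    (Homeomorph.mulLeft₀ c⁻¹ (inv_ne_zero hc.ne')).measurableEmbedding.lintegral_map f
  rw [h, inv_inv, abs_of_pos hc, lintegral_smul_measure] at h2
  rw [← h2]
  rfl

theorem win_planch (β : ℝ) {δ : ℝ} (hδ : 0 < δ) (S : Finset ℕ) (hS : ∀ n ∈ S, 1 ≤ n) (a : ℕ → ℂ)
    (ha : ∀ n, ‖a n‖ ≤ 1) {b Y : ℝ} (hb : 1 ≤ b) (hY : 0 ≤ Y) :
    ∫⁻ t : ℝ, ‖VW (fun z => HH β δ z.im * PP S a z) b⁻¹ Y t 0‖ₑ ^ 2 =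
      ENNReal.ofReal (2 * Real.pi) * ∫⁻ r : ℝ, ‖gf (w1 β δ) S a b Y r‖ₑ ^ 2 := by
  simp_rw [win_fourier β hδ S hS a hb hY]
  rw [lint_scale (fun t => ‖𝓕 (gf (w1 β δ) S a b Y) t‖ₑ ^ 2) (by positivity),
    Pool.Agent.Helper76.NormalHP.plancherel_lintegral _ (gf_int β hδ S hS a hb hY)
    (gf_memLp β hδ S hS a ha hb hY)]

end Pool.Agent.T9h53.AH
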