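import Pool.Agent.T9h53.AH.Mel2

/-! # The mean square of the window of the main part: estimates -/

set_option autoImplicit false

open Complex Filter Topology Set MeasureTheory FourierTransform

namespace Pool.Agent.T9h53.AH

open Pool.Agent.T9h53.SZ Pool.Agent.T9h53.EQ
open Pool.Agent.H807R2.Dav (ee norm_ee)
open Pool.Agent.TH823.MRS (mob expo_mob)

/-- the additive polynomial -/
noncomputable def FA (S : Finset ℕ) (a : ℕ → ℂ) (θ x : ℝ) : ℂ := ∑ n ∈ S, a n * ee (n * θ * x)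

lemma ph1_eq (β δ : ℝ) (n : ℕ) (r : ℝ) : ph1 (w1 β δ) n r =
    ((Real.exp (r / 2) : ℝ) : ℂ) * (((Real.exp (-(n * δ * Real.exp r)) : ℝ) : ℂ) *
      ee (n * th0 β * Real.exp r)) := by
  unfold ph1 ee w1
  rw [mk_eq]
  simp only [Complex.ofReal_exp]
  rw [← Complex.exp_add, ← Complex.exp_add]
  congr 1
  push_cast
  ring

lemma ph2_near (β : ℝ) {δ : ℝ} (hδ : 0 < δ) (N : ℕ) (S : Finset ℕ) (hS : ∀ n ∈ S, 1 ≤ n)
    (hSN : ∀ n ∈ S, n ≤ N) (a : ℕ → ℂ) (ha : ∀ n, ‖a n‖ ≤ 1) (r : ℝ) :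
    ‖ph2 (w1 β δ) S a r‖ ≤ Real.exp (r / 2) * (‖FA S a (th0 β) (Real.exp r)‖ +
      (N : ℝ) ^ 2 * δ * Real.exp r) := by
  have hE := Real.exp_pos r
  have e1 : ph2 (w1 β δ) S a r = ((Real.exp (r / 2) : ℝ) : ℂ) * (FA S a (th0 β) (Real.exp r) +
      ∑ n ∈ S, a n * ((((Real.exp (-(n * δ * Real.exp r)) : ℝ) : ℂ) - 1) *
        ee (n * th0 β * Real.exp r))) := by
    unfold ph2 FA
    rw [← Finset.sum_add_distrib, Finset.mul_sum]
    apply Finset.sum_congr rfl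
    intro n _
    rw [ph1_eq]
    ring
  have hcard : (S.card : ℝ) ≤ N := by
    have h1 : S ⊆ Finset.Icc 1 N := fun n hn => Finset.mem_Icc.mpr ⟨hS n hn, hSN n hn⟩
    have h2 := Finset.card_le_card h1
    rw [Nat.card_Icc] at h2
    exact_mod_cast h2
  have e2 : ‖∑ n ∈ S, a n * ((((Real.exp (-(n * δ * Real.exp r)) : ℝ) : ℂ) - 1) *
        ee (n * th0 β * Real.exp r))‖ ≤ (N : ℝ) ^ 2 * δ * Real.exp r := by
    calc _ ≤ ∑ n ∈ S, ‖a n * ((((Real.exp (-(n * δ * Real.exp r)) : ℝ) : ℂ) - 1) *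
        ee (n * th0 β * Real.exp r))‖ := norm_sum_le _ _
      _ ≤ S.card • ((N : ℝ) * δ * Real.exp r) := by
        refine Finset.sum_le_card_nsmul _ _ _ fun n hn => ?_
        rw [norm_mul, norm_mul, norm_ee, mul_one, ← Complex.ofReal_one, ← Complex.ofReal_sub,
          Complex.norm_real, Real.norm_eq_abs]
        have h1 : |Real.exp (-(n * δ * Real.exp r)) - 1| ≤ n * δ * Real.exp r := by
          have h2 := Real.add_one_le_exp (-(n * δ * Real.exp r))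
          have h3 : Real.exp (-(n * δ * Real.exp r)) ≤ 1 := by
            rw [Real.exp_le_one_iff]
            have : 0 ≤ n * δ * Real.exp r := by positivity
            linarith
          rw [abs_of_nonpos (by linarith)]
          linarith
        have h4 : (n : ℝ) ≤ N := by exact_mod_cast hSN n hn
        calc ‖a n‖ * |Real.exp (-(n * δ * Real.exp r)) - 1| ≤ 1 * (n * δ * Real.exp r) :=
              mul_le_mul (ha n) h1 (abs_nonneg _) zero_le_one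
          _ = n * δ * Real.exp r := one_mul _
          _ ≤ _ := by gcongr
      _ ≤ _ := by
        rw [nsmul_eq_mul]
        calc (S.card : ℝ) * ((N : ℝ) * δ * Real.exp r) ≤ N * ((N : ℝ) * δ * Real.exp r) := by
              gcongr
          _ = _ := by ring
  rw [e1, norm_mul, Complex.norm_real, Real.norm_of_nonneg (Real.exp_pos _).le]
  apply mul_le_mul_of_nonneg_left _ (Real.exp_pos _).le
  exact (norm_add_le _ _).trans (add_le_add le_rfl e2)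

lemma bern {c : ℝ} (hc : 1 ≤ c) (r : ℝ) :
    1 + c ^ 2 * (Real.exp r - 1) ^ 2 ≤ Real.exp (2 * c * |r|) := by
  have h0 : |Real.exp r - 1| ≤ Real.exp |r| - 1 := by
    rcases le_total 0 r with h | h
    · rw [abs_of_nonneg h]
      have := Real.add_one_le_exp r
      rw [abs_of_nonneg (by linarith)]
    · rw [abs_of_nonpos h]
      have h1 : Real.exp r ≤ 1 := Real.exp_le_one_iff.mpr h
      rw [abs_of_nonpos (by linarith)]
      have h2 := Real.add_one_le_exp r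
      have h3 := Real.add_one_le_exp (-r)
      linarith
  have h1 : 1 + c * (Real.exp |r| - 1) ≤ Real.exp (c * |r|) := by
    have h2 := one_add_mul_self_le_rpow_one_add (s := Real.exp |r| - 1) (p := c) (by
      have := Real.exp_pos |r|
      linarith) hc
    rw [add_sub_cancel, ← Real.exp_mul] at h2
    rwa [mul_comm c |r|]
  have h2 : 0 ≤ Real.exp |r| - 1 := (abs_nonneg _).trans h0
  have h3 : (Real.exp r - 1) ^ 2 ≤ (Real.exp |r| - 1) ^ 2 := by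
    rw [← sq_abs (Real.exp r - 1)]
    exact pow_le_pow_left₀ (abs_nonneg _) h0 2
  have h4 : (1 + c * (Real.exp |r| - 1)) ^ 2 ≤ Real.exp (2 * c * |r|) := by
    have h5 : Real.exp (2 * c * |r|) = Real.exp (c * |r|) ^ 2 := by
      rw [← Real.exp_nat_mul]
      congr 1
      push_cast
      ring
    rw [h5]
    exact pow_le_pow_left₀ (by nlinarith) h1 2
  nlinarith [mul_nonneg (by linarith : (0 : ℝ) ≤ c) h2, sq_nonneg c]

/-- the pointwise bound -/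
lemma gf_sq (β : ℝ) {δ : ℝ} (hδ : 0 < δ) (N : ℕ) (S : Finset ℕ) (hS : ∀ n ∈ S, 1 ≤ n)
    (hSN : ∀ n ∈ S, n ≤ N) (a : ℕ → ℂ) (ha : ∀ n, ‖a n‖ ≤ 1) {b Y : ℝ} (hb : 3 ≤ b) (hY : 0 ≤ Y)
    (r : ℝ) : ‖gf (w1 β δ) S a b Y r‖ ^ 2 ≤
      144 * b ^ 2 * (Real.exp r * (‖FA S a (th0 β) (Real.exp r)‖ ^ 2 /
        (1 + (b - 1) ^ 2 * (Real.exp r - 1) ^ 2))) +
      (144 * b ^ 2 * (N : ℝ) ^ 4 * δ ^ 2 + 32 * b ^ 2 * ed b Y ^ 2 * (N : ℝ) ^ 2 *
        (1 + 1 / δ) ^ 2) * Real.exp (-|r|) := by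
  have hb1 : 1 ≤ b := by linarith
  have hed := ed_pos b Y
  set P := ‖ph2 (w1 β δ) S a r‖ with hP
  set F := ‖FA S a (th0 β) (Real.exp r)‖ with hF
  set q := Real.exp (-((b - 1) * |r|)) with hq
  have hq0 : 0 < q := Real.exp_pos _
  have hcard : (S.card : ℝ) ≤ N := by
    have h1 : S ⊆ Finset.Icc 1 N := fun n hn => Finset.mem_Icc.mpr ⟨hS n hn, hSN n hn⟩
    have h2 := Finset.card_le_card h1
    rw [Nat.card_Icc] at h2
    exact_mod_cast h2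
  have hP0 : 0 ≤ P := norm_nonneg _
  have hF0 : 0 ≤ F := norm_nonneg _
  have h1 : P ≤ Real.exp (r / 2) * (F + (N : ℝ) ^ 2 * δ * Real.exp r) :=
    ph2_near β hδ N S hS hSN a ha r
  have h2 : P ≤ N * ((1 + 1 / δ) * Real.exp (-(1 / 2 * |r|))) := by
    refine (ph2_norm β hδ S hS a ha r).trans ?_
    gcongr
  have h3 := kh_le hb1 hY r
  unfold ta at h3
  rw [← hq] at h3
  have e0 : ‖gf (w1 β δ) S a b Y r‖ ^ 2 = P ^ 2 * ‖kh b Y r‖ ^ 2 := by
    unfold gf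
    rw [norm_mul, mul_pow]
  have e1 : ‖kh b Y r‖ ^ 2 ≤ 72 * b ^ 2 * q ^ 2 + 32 * b ^ 2 * ed b Y ^ 2 := by
    calc ‖kh b Y r‖ ^ 2 ≤ (6 * b * q + 4 * b * ed b Y) ^ 2 :=
          pow_le_pow_left₀ (norm_nonneg _) h3 2
      _ ≤ _ := by nlinarith [sq_nonneg (6 * b * q - 4 * b * ed b Y)]
  have e2 : P ^ 2 ≤ Real.exp r * (2 * F ^ 2 + 2 * ((N : ℝ) ^ 4 * δ ^ 2) * Real.exp r ^ 2) := by
    calc P ^ 2 ≤ (Real.exp (r / 2) * (F + (N : ℝ) ^ 2 * δ * Real.exp r)) ^ 2 :=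
          pow_le_pow_left₀ hP0 h1 2
      _ = Real.exp r * (F + (N : ℝ) ^ 2 * δ * Real.exp r) ^ 2 := by
        rw [mul_pow, ← Real.exp_nat_mul]
        congr 2
        push_cast
        ring
      _ ≤ Real.exp r * (2 * F ^ 2 + 2 * ((N : ℝ) ^ 4 * δ ^ 2) * Real.exp r ^ 2) := by
        apply mul_le_mul_of_nonneg_left _ (Real.exp_pos _).le
        nlinarith [sq_nonneg (F - (N : ℝ) ^ 2 * δ * Real.exp r)]
  have e3 : P ^ 2 ≤ (N : ℝ) ^ 2 * (1 + 1 / δ) ^ 2 * Real.exp (-|r|) := by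
    calc P ^ 2 ≤ (N * ((1 + 1 / δ) * Real.exp (-(1 / 2 * |r|)))) ^ 2 := pow_le_pow_left₀ hP0 h2 2
      _ = (N : ℝ) ^ 2 * (1 + 1 / δ) ^ 2 * Real.exp (-(1 / 2 * |r|)) ^ 2 := by ring
      _ = _ := by
        rw [← Real.exp_nat_mul]
        congr 2
        push_cast
        ring
  have hden : 0 < 1 + (b - 1) ^ 2 * (Real.exp r - 1) ^ 2 := by positivity
  have e4 : q ^ 2 ≤ 1 / (1 + (b - 1) ^ 2 * (Real.exp r - 1) ^ 2) := by
    have h4 := bern (c := b - 1) (by linarith) r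
    have h5 : q ^ 2 = (Real.exp (2 * (b - 1) * |r|))⁻¹ := by
      rw [hq, ← Real.exp_nat_mul, ← Real.exp_neg]
      congr 1
      push_cast
      ring
    rw [h5, one_div]
    exact inv_anti₀ hden h4
  have e5 : Real.exp r * Real.exp r ^ 2 * q ^ 2 ≤ Real.exp (-|r|) := by
    rw [hq, ← Real.exp_nat_mul, ← Real.exp_nat_mul, ← Real.exp_add, ← Real.exp_add]
    apply Real.exp_le_exp.mpr
    push_cast
    have h6 := le_abs_self r
    have h7 := abs_nonneg r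
    nlinarith
  rw [e0]
  calc P ^ 2 * ‖kh b Y r‖ ^ 2 ≤ P ^ 2 * (72 * b ^ 2 * q ^ 2 + 32 * b ^ 2 * ed b Y ^ 2) := by gcongr
    _ = 72 * b ^ 2 * (P ^ 2 * q ^ 2) + 32 * b ^ 2 * ed b Y ^ 2 * P ^ 2 := by ring
    _ ≤ 72 * b ^ 2 * ((Real.exp r * (2 * F ^ 2 + 2 * ((N : ℝ) ^ 4 * δ ^ 2) * Real.exp r ^ 2)) *
          q ^ 2) + 32 * b ^ 2 * ed b Y ^ 2 * ((N : ℝ) ^ 2 * (1 + 1 / δ) ^ 2 * Real.exp (-|r|)) := by
        gcongr
    _ = 144 * b ^ 2 * (Real.exp r * (F ^ 2 * q ^ 2)) + 144 * b ^ 2 * (N : ℝ) ^ 4 * δ ^ 2 *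
          (Real.exp r * Real.exp r ^ 2 * q ^ 2) +
          32 * b ^ 2 * ed b Y ^ 2 * (N : ℝ) ^ 2 * (1 + 1 / δ) ^ 2 * Real.exp (-|r|) := by ring
    _ ≤ 144 * b ^ 2 * (Real.exp r * (F ^ 2 *
          (1 / (1 + (b - 1) ^ 2 * (Real.exp r - 1) ^ 2)))) + 144 * b ^ 2 * (N : ℝ) ^ 4 * δ ^ 2 *
          Real.exp (-|r|) +
          32 * b ^ 2 * ed b Y ^ 2 * (N : ℝ) ^ 2 * (1 + 1 / δ) ^ 2 * Real.exp (-|r|) := by
        gcongr
    _ = _ := by
        rw [mul_one_div]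
        ring

lemma int_abs_exp : ∫ r : ℝ, Real.exp (-|r|) = 2 := by
  rw [integral_comp_abs (f := fun r => Real.exp (-r)), integral_exp_neg_Ioi_zero]
  norm_num

lemma FA_cont (S : Finset ℕ) (a : ℕ → ℂ) (θ : ℝ) : Continuous (FA S a θ) := by
  unfold FA ee
  fun_prop

theorem gf_lint (β : ℝ) {δ : ℝ} (hδ : 0 < δ) (N : ℕ) (S : Finset ℕ) (hS : ∀ n ∈ S, 1 ≤ n)
    (hSN : ∀ n ∈ S, n ≤ N) (a : ℕ → ℂ) (ha : ∀ n, ‖a n‖ ≤ 1) {b Y : ℝ} (hb : 3 ≤ b) (hY : 0 ≤ Y) :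
    ∫⁻ r : ℝ, ‖gf (w1 β δ) S a b Y r‖ₑ ^ 2 ≤
      ENNReal.ofReal (144 * b ^ 2) * (∫⁻ x : ℝ, ENNReal.ofReal (‖FA S a (th0 β) x‖ ^ 2 /
        (1 + (b - 1) ^ 2 * (x - 1) ^ 2))) +
      ENNReal.ofReal (2 * (144 * b ^ 2 * (N : ℝ) ^ 4 * δ ^ 2 + 32 * b ^ 2 * ed b Y ^ 2 *
        (N : ℝ) ^ 2 * (1 + 1 / δ) ^ 2)) := by
  set K : ℝ := 144 * b ^ 2 * (N : ℝ) ^ 4 * δ ^ 2 + 32 * b ^ 2 * ed b Y ^ 2 *
        (N : ℝ) ^ 2 * (1 + 1 / δ) ^ 2 with hK
  have hK0 : 0 ≤ K := by positivity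
  set G : ℝ → ENNReal := fun x => ENNReal.ofReal (‖FA S a (th0 β) x‖ ^ 2 /
        (1 + (b - 1) ^ 2 * (x - 1) ^ 2)) with hG
  have h1 : ∀ r : ℝ, ‖gf (w1 β δ) S a b Y r‖ₑ ^ 2 ≤
      ENNReal.ofReal (144 * b ^ 2) * (ENNReal.ofReal |Real.exp r| * G (Real.exp r)) +
      ENNReal.ofReal (K * Real.exp (-|r|)) := by
    intro r
    rw [hG]
    simp only
    rw [abs_of_pos (Real.exp_pos r), ← ENNReal.ofReal_mul (Real.exp_pos r).le,
      ← ENNReal.ofReal_mul (by positivity), ← ENNReal.ofReal_add (by positivity) (by positivity),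
      ← ofReal_norm, ← ENNReal.ofReal_pow (norm_nonneg _)]
    apply ENNReal.ofReal_le_ofReal
    exact gf_sq β hδ N S hS hSN a ha hb hY r
  refine (lintegral_mono h1).trans ?_
  rw [lintegral_add_right _ (by fun_prop)]
  apply add_le_add
  · rw [lintegral_const_mul' _ _ ENNReal.ofReal_ne_top]
    apply mul_le_mul_right
    have himg : Real.exp '' (univ : Set ℝ) = Ioi 0 := by
      rw [image_univ, Real.range_exp]
    have h2 := lintegral_image_eq_lintegral_abs_deriv_mul MeasurableSet.univ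
      (fun x _ => (Real.hasDerivAt_exp x).hasDerivWithinAt) (Real.exp_injective.injOn) G
    rw [himg, setLIntegral_univ] at h2
    rw [← h2]
    exact setLIntegral_le_lintegral _ _
  · have hint : Integrable fun r : ℝ => K * Real.exp (-|r|) := by
      have := (Pool.Agent.H402R2.T4b.int_exp_abs (a := 1) (by norm_num)).const_mul K
      simpa using this
    rw [← ofReal_integral_eq_lintegral_ofReal hint (Filter.Eventually.of_forall fun r => by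
      positivity), integral_const_mul, int_abs_exp, mul_comm]

/-- **the mean square of the window of the main part is small** -/
theorem mel_window (β ε : ℝ) (hε : 0 < ε) :
    ∃ b₀ : ℝ, ∃ X₀ : ℕ, 3 ≤ b₀ ∧ ∀ X : ℕ, X₀ ≤ X → ∀ b : ℝ, b₀ ≤ b →
      4 * ((b - 1) / (2 * Real.pi) / th0 β) ≤ X → ∀ ψ : ℕ → ℝ, (∀ n, 0 ≤ ψ n ∧ ψ n ≤ 1) →
      (∀ n m : ℕ, |ψ n - ψ m| ≤ |(n : ℝ) - m| / (4 * ((b - 1) / (2 * Real.pi) / th0 β))) →
      (∀ n : ℕ, 3 * X < n → ψ n = 0) → ∀ δ Y : ℝ, 0 < δ → 0 ≤ Y →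
      ∫⁻ t : ℝ, ‖VW (fun z => HH β δ z.im * PP (Finset.Icc 1 (3 * X))
        (fun n => ((ψ n : ℝ) : ℂ) * (mob n : ℂ)) z) b⁻¹ Y t 0‖ₑ ^ 2 ≤
      ENNReal.ofReal (2 * Real.pi * (144 * b ^ 2 * (ε * X) + 2 * (144 * b ^ 2 *
        ((3 * X : ℕ) : ℝ) ^ 4 * δ ^ 2 + 32 * b ^ 2 * ed b Y ^ 2 * ((3 * X : ℕ) : ℝ) ^ 2 *
        (1 + 1 / δ) ^ 2))) := by
  have hθ := th0_pos β
  have hpi := Real.pi_pos
  obtain ⟨b₀, X₀, hb₀, hmain⟩ := mob_window (th0 β) hθ (ε / (4 * Real.pi ^ 2)) (by positivity)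
  refine ⟨b₀ + 3, X₀, by linarith, ?_⟩
  intro X hX b hb hbX ψ hψ hψL hψ0 δ Y hδ hY
  have hb3 : 3 ≤ b := by linarith
  have hb' : b₀ ≤ b - 1 := by linarith
  have hq := hmain X hX (b - 1) hb' hbX ψ hψ hψL hψ0
  set S := Finset.Icc 1 (3 * X) with hS
  set a : ℕ → ℂ := fun n => ((ψ n : ℝ) : ℂ) * (mob n : ℂ) with ha
  have hS1 : ∀ n ∈ S, 1 ≤ n := fun n hn => (Finset.mem_Icc.mp hn).1
  have hS2 : ∀ n ∈ S, n ≤ 3 * X := fun n hn => (Finset.mem_Icc.mp hn).2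
  have han : ∀ n, ‖a n‖ ≤ 1 := by
    intro n
    rw [ha]
    simp only
    rw [norm_mul, Complex.norm_real, Real.norm_of_nonneg (hψ n).1]
    have hmob : ‖(mob n : ℂ)‖ ≤ 1 := by
      rw [Complex.norm_intCast]
      have := Pool.Agent.TH823.MRS.mob_bdd n
      exact_mod_cast this
    calc ψ n * ‖(mob n : ℂ)‖ ≤ 1 * 1 := mul_le_mul (hψ n).2 hmob (norm_nonneg _) zero_le_one
      _ = 1 := one_mul 1
  rw [win_planch β hδ S hS1 a han (by linarith) hY]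
  have h1 := gf_lint β hδ (3 * X) S hS1 hS2 a han hb3 hY
  have h2 : ∫⁻ x : ℝ, ENNReal.ofReal (‖FA S a (th0 β) x‖ ^ 2 /
        (1 + (b - 1) ^ 2 * (x - 1) ^ 2)) ≤ ENNReal.ofReal (ε * X) := by
    set B : ℝ := (b - 1) / (2 * Real.pi) with hB
    have hb1 : 0 < b - 1 := by linarith
    have hB0 : 0 < B := by positivity
    have h3 := fw_planch hB0 S (fun n => a n * ee ((n : ℝ) * th0 β)) (fun n => th0 β * (n : ℝ))
    rw [← lintegral_sub_left_eq_self _ (1 : ℝ)]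
    have h4 : ∀ ξ : ℝ, ENNReal.ofReal (‖FA S a (th0 β) (1 - ξ)‖ ^ 2 /
        (1 + (b - 1) ^ 2 * (1 - ξ - 1) ^ 2)) = ENNReal.ofReal (4 * Real.pi ^ 2 / (b - 1) ^ 2) *
        ‖(∑ n ∈ S, a n * ee ((n : ℝ) * th0 β) *
          cexp (((-(2 * Real.pi * (th0 β * (n : ℝ)) * ξ) : ℝ) : ℂ) * I)) *
        (1 / (((1 / B : ℝ) : ℂ) + ((2 * Real.pi * ξ : ℝ) : ℂ) * I))‖ₑ ^ 2 := by
      intro ξ
      rw [← ofReal_norm, ← ENNReal.ofReal_pow (norm_nonneg _), ← ENNReal.ofReal_mul (by positivity)]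
      congr 1
      have e1 : ∑ n ∈ S, a n * ee ((n : ℝ) * th0 β) *
          cexp (((-(2 * Real.pi * (th0 β * (n : ℝ)) * ξ) : ℝ) : ℂ) * I) =
          FA S a (th0 β) (1 - ξ) := by
        unfold FA
        apply Finset.sum_congr rfl
        intro n _
        rw [mul_assoc]
        congr 1
        unfold ee
        rw [← Complex.exp_add]
        congr 1
        push_cast
        ring
      have e2 : ‖((1 / B : ℝ) : ℂ) + ((2 * Real.pi * ξ : ℝ) : ℂ) * I‖ ^ 2 =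
          4 * Real.pi ^ 2 / (b - 1) ^ 2 * (1 + (b - 1) ^ 2 * ξ ^ 2) := by
        rw [Complex.norm_add_mul_I, Real.sq_sqrt (by positivity), hB]
        field_simp
        ring
      rw [e1, norm_mul, mul_pow, norm_div, norm_one, div_pow, one_pow, e2]
      have h5 : 0 < 1 + (b - 1) ^ 2 * ξ ^ 2 := by positivity
      rw [show 1 - ξ - 1 = -ξ by ring, neg_sq]
      field_simp
    rw [lintegral_congr h4, lintegral_const_mul' _ _ ENNReal.ofReal_ne_top]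
    calc _ ≤ ENNReal.ofReal (4 * Real.pi ^ 2 / (b - 1) ^ 2) *
        ENNReal.ofReal (ε / (4 * Real.pi ^ 2) * (b - 1) ^ 2 * X) := by
          apply mul_le_mul_right
          exact h3.trans (ENNReal.ofReal_le_ofReal hq)
      _ = _ := by
        rw [← ENNReal.ofReal_mul (by positivity)]
        congr 1
        field_simp
  refine (mul_le_mul_right (h1.trans (add_le_add (mul_le_mul_right h2 _) le_rfl)) _).trans ?_
  rw [← ENNReal.ofReal_mul (by positivity), ← ENNReal.ofReal_add (by positivity) (by positivity),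
    ← ENNReal.ofReal_mul (by positivity)]

end Pool.Agent.T9h53.AH
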