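import Pool.Agent.T9h53.AH.Zf
import Pool.Agent.H401R2.Chi

/-! # The factor on the imaginary axis is a Mellin transform of an additive character -/

set_option autoImplicit false

open Complex Filter Topology Set

namespace Pool.Agent.T9h53.AH

open Pool.Agent.H401R2 (stirling log_half sA)

/-- a unimodular number -/
noncomputable def ei (x : ℝ) : ℂ := cexp ((x : ℂ) * I)

lemma ei_norm (x : ℝ) : ‖ei x‖ = 1 := Complex.norm_exp_ofReal_mul_I x

lemma ei_add (x y : ℝ) : ei (x + y) = ei x * ei y := by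
  unfold ei
  rw [← Complex.exp_add]
  congr 1
  push_cast
  ring

lemma ei_conj (x : ℝ) : (starRingEnd ℂ) (ei x) = ei (-x) := by
  unfold ei
  rw [← Complex.exp_conj, map_mul, Complex.conj_ofReal, Complex.conj_I]
  congr 1
  push_cast
  ring

/-- the normalised Gamma function on the critical line -/
noncomputable def gn (y : ℝ) : ℂ :=
  Gamma (1 / 2 + y * I) * ((Real.exp (Real.pi * y / 2) : ℝ) : ℂ) * ei (-(y * Real.log y - y))

theorem gn_asymp {y : ℝ} (hy : 50 ≤ y) : ‖gn y - ((√(2 * Real.pi) : ℝ) : ℂ)‖ ≤ 3 / y := by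
  have hy0 : 0 < y := by linarith
  have hyc : (y : ℂ) ≠ 0 := by exact_mod_cast hy0.ne'
  obtain ⟨e, he, hlog⟩ := log_half (σ := 1) (t := 2 * y) (by norm_num) le_rfl (by linarith)
  have hz : ((1 : ℝ) : ℂ) + ((2 * y : ℝ) : ℂ) * I = 2 * (1 / 2 + y * I) := by
    push_cast
    ring
  rw [hz, mul_div_cancel_left₀ _ (two_ne_zero)] at hlog
  rw [mul_div_cancel_left₀ _ (two_ne_zero)] at hlog
  set z : ℂ := 1 / 2 + y * I with hzdef
  have hre : z.re = 1 / 2 := by simp [hzdef]
  have him : z.im = y := by simp [hzdef]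
  have hst := stirling (z := z) (by rw [hre]; norm_num) (by rw [him]; linarith)
  rw [him] at hst
  set s2 : ℂ := ((√(2 * Real.pi) : ℝ) : ℂ) with hs2
  have hs2r : 0 < √(2 * Real.pi) := by positivity
  have hs2n : s2 ≠ 0 := by
    rw [hs2]
    exact_mod_cast hs2r.ne'
  set a : ℂ := sA z / s2 - 1 with ha
  set q : ℂ := y * I * e with hq
  have hqn : ‖q‖ ≤ 1 / (4 * y) := by
    rw [hq, norm_mul, norm_mul, norm_I, mul_one, Complex.norm_real, Real.norm_of_nonneg hy0.le]
    calc y * ‖e‖ ≤ y * (1 / (2 * y) ^ 2) := by gcongr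
      _ = 1 / (4 * y) := by
        field_simp
        ring
  have key : gn y = s2 * (1 + a) * cexp q := by
    have e1 : Gamma z = sA z * cexp ((z - 1 / 2) * Complex.log z - z) := by
      unfold sA
      rw [mul_assoc, ← Complex.exp_add]
      simp
    have e2 : s2 * (1 + a) = sA z := by
      rw [ha]
      field_simp
      ring
    rw [e2]
    unfold gn ei
    rw [← hzdef, e1, Complex.ofReal_exp, mul_assoc, mul_assoc, ← Complex.exp_add, ← Complex.exp_add]
    congr 2
    rw [hlog, hq, hzdef]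
    push_cast
    field_simp
    ring_nf
    simp only [I_sq]
    ring
  have hb : ‖cexp q - 1‖ ≤ 1 / (2 * y) := by
    have h1 : ‖q‖ ≤ 1 := by
      refine hqn.trans ?_
      rw [div_le_one (by positivity)]
      linarith
    refine (Complex.norm_exp_sub_one_le h1).trans ?_
    calc 2 * ‖q‖ ≤ 2 * (1 / (4 * y)) := by gcongr
      _ = 1 / (2 * y) := by
        field_simp
        ring
  have hpi := Real.pi_lt_d2
  have ha' : ‖a‖ ≤ 0.4 / y := by
    refine hst.trans ?_
    rw [div_le_div_iff₀ (by positivity) hy0]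
    nlinarith
  have hs2b : ‖s2‖ ≤ 2.6 := by
    rw [hs2, Complex.norm_real, Real.norm_of_nonneg hs2r.le, Real.sqrt_le_left (by norm_num)]
    nlinarith
  rw [key]
  have e3 : s2 * (1 + a) * cexp q - s2 = s2 * (a + (cexp q - 1) + a * (cexp q - 1)) := by ring
  rw [e3, norm_mul]
  have e4 : ‖a + (cexp q - 1) + a * (cexp q - 1)‖ ≤ 0.4 / y + 1 / (2 * y) + 0.4 / y * (1 / (2 * y)) := by
    refine (norm_add_le _ _).trans ?_
    rw [norm_mul]
    gcongr
    refine (norm_add_le _ _).trans ?_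
    gcongr
  have e5 : 0.4 / y + 1 / (2 * y) + 0.4 / y * (1 / (2 * y)) ≤ 1 / y := by
    have h5 : 1 / y ≤ 1 / 50 := by
      apply one_div_le_one_div_of_le (by norm_num) hy
    have h6 : 0 < 1 / y := by positivity
    have : 0.4 / y + 1 / (2 * y) + 0.4 / y * (1 / (2 * y)) =
        0.9 * (1 / y) + 0.2 * (1 / y) * (1 / y) := by
      field_simp
      ring
    rw [this]
    nlinarith
  calc ‖s2‖ * ‖a + (cexp q - 1) + a * (cexp q - 1)‖ ≤ 2.6 * (1 / y) := by
        gcongr
        exact e4.trans e5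
    _ ≤ 3 / y := by
        rw [mul_one_div]
        gcongr
        norm_num

/-- the phase -/
noncomputable def ph (β y : ℝ) : ℂ :=
  ei (-(y * Real.log y + (1 + 4 * Real.pi * β + Real.log (2 * Real.pi)) * y))

lemma ph_norm (β y : ℝ) : ‖ph β y‖ = 1 := ei_norm _

lemma cos_asymp {y : ℝ} (hy : 1 ≤ y) :
    ‖2 * Complex.cos (Real.pi * (1 / 2 + y * I) / 2) *
      ((Real.exp (-(Real.pi * y / 2)) : ℝ) : ℂ) - ei (-(Real.pi / 4))‖ ≤ 1 / y := by
  have h1 : 2 * Complex.cos (Real.pi * (1 / 2 + y * I) / 2) =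
      cexp ((-(Real.pi * y / 2) : ℝ) + ((Real.pi / 4 : ℝ) : ℂ) * I) +
      cexp (((Real.pi * y / 2 : ℝ) : ℂ) - ((Real.pi / 4 : ℝ) : ℂ) * I) := by
    rw [Complex.two_cos]
    congr 2
    · push_cast
      ring_nf
      simp only [I_sq]
      ring
    · push_cast
      ring_nf
      simp only [I_sq]
      ring
  rw [h1, add_mul, Complex.ofReal_exp, ← Complex.exp_add, ← Complex.exp_add]
  have h2 : (((Real.pi * y / 2 : ℝ) : ℂ) - ((Real.pi / 4 : ℝ) : ℂ) * I +
      ((-(Real.pi * y / 2) : ℝ) : ℂ)) = ((-(Real.pi / 4) : ℝ) : ℂ) * I := by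
    push_cast
    ring
  have h3 : ((((-(Real.pi * y / 2) : ℝ) : ℂ) + ((Real.pi / 4 : ℝ) : ℂ) * I +
      ((-(Real.pi * y / 2) : ℝ) : ℂ))) = ((-(Real.pi * y) : ℝ) : ℂ) + ((Real.pi / 4 : ℝ) : ℂ) * I := by
    push_cast
    ring
  unfold ei
  rw [h2, h3, add_sub_cancel_right, Complex.exp_add, norm_mul, Complex.norm_exp_ofReal_mul_I,
    mul_one, ← Complex.ofReal_exp, Complex.norm_real, Real.norm_of_nonneg (Real.exp_pos _).le,
    Real.exp_neg, ← one_div]
  apply one_div_le_one_div_of_le (by linarith)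
  have := Real.add_one_le_exp (Real.pi * y)
  have := Real.pi_gt_three
  nlinarith

/-- the constant of the factor -/
noncomputable def ga0 : ℂ := -(wz⁻¹ * ei (-(Real.pi / 4)))

lemma ga0_norm : ‖ga0‖ = 1 := by
  unfold ga0
  rw [norm_neg, norm_mul, norm_inv, wz_norm, ei_norm]
  norm_num

theorem GA_axis (β : ℝ) {y : ℝ} (hy : 50 ≤ y) :
    ‖GA β ⟨0, y⟩ - ga0 * ph β y‖ ≤ 8 / y := by
  have hy0 : 0 < y := by linarith
  set s : ℂ := 1 / 2 + y * I with hs
  have hz : (⟨0, y⟩ : ℂ) = y * I := by apply Complex.ext <;> simp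
  have hfr := Complex.Gammaℝ_div_Gammaℝ_one_sub (s := s) (by
    intro n h
    have := congrArg Complex.im h
    simp [hs] at this
    exact hy0.ne' this)
  have hwz : wz ≠ 0 := by
    rw [← norm_pos_iff, wz_norm]
    norm_num
  have hX : XZ ⟨0, y⟩ = wz / (Gammaℂ s * Complex.cos (Real.pi * s / 2)) := by
    rw [XZ_eq, hz, ← hs, ← hfr, show (1 : ℂ) / 2 - y * I = 1 - s by rw [hs]; ring]
    rw [div_div_eq_mul_div]
  set g := gn y with hg
  set cc := 2 * Complex.cos (Real.pi * s / 2) * ((Real.exp (-(Real.pi * y / 2)) : ℝ) : ℂ) with hcc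
  have hpi2 : (0 : ℝ) < 2 * Real.pi := by positivity
  set s2 : ℂ := ((√(2 * Real.pi) : ℝ) : ℂ) with hs2
  have hs2r : 0 < √(2 * Real.pi) := by positivity
  have hs2n : s2 ≠ 0 := by
    rw [hs2]
    exact_mod_cast hs2r.ne'
  -- the exact formula
  have key : GA β ⟨0, y⟩ = -(wz⁻¹ * s2⁻¹ * (g * cc)) * ph β y := by
    unfold GA
    rw [hX, Xi_axis β hy0, Gammaℂ_def]
    have e1 : ((2 : ℂ) * Real.pi) ^ (-s) = s2⁻¹ * ei (-(y * Real.log (2 * Real.pi))) := by
      have e2 : ((2 : ℂ) * Real.pi) = ((2 * Real.pi : ℝ) : ℂ) := by push_cast; rfl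
      have hne : ((2 * Real.pi : ℝ) : ℂ) ≠ 0 := by exact_mod_cast hpi2.ne'
      rw [e2, Complex.cpow_def_of_ne_zero hne, ← Complex.ofReal_log hpi2.le, hs2,
        Real.sqrt_eq_rpow, Real.rpow_def_of_pos hpi2, ← Complex.ofReal_inv, ← Real.exp_neg,
        Complex.ofReal_exp]
      unfold ei
      rw [← Complex.exp_add]
      congr 1
      rw [hs]
      push_cast
      ring
    rw [e1]
    have e3 : g * cc = Gamma s * (2 * Complex.cos (Real.pi * s / 2)) *
        ei (-(y * Real.log y - y)) := by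
      rw [hg, hcc]
      unfold gn
      have : ((Real.exp (Real.pi * y / 2) : ℝ) : ℂ) *
          ((Real.exp (-(Real.pi * y / 2)) : ℝ) : ℂ) = 1 := by
        rw [← Complex.ofReal_mul, ← Real.exp_add]
        simp
      rw [← hs]
      linear_combination (Gamma s * ei (-(y * Real.log y - y)) *
        (2 * Complex.cos (Real.pi * s / 2))) * this
    rw [e3]
    have e4 : ei (-(y * Real.log y - y)) * ph β y =
        ei (-(y * Real.log (2 * Real.pi))) * cexp (((-(4 * Real.pi * xb β y) : ℝ) : ℂ) * I) := by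
      show _ = _ * ei (-(4 * Real.pi * xb β y))
      unfold ph
      rw [← ei_add, ← ei_add]
      congr 1
      unfold xb
      field_simp
      ring
    have e5 : -cexp (((-(4 * Real.pi * xb β y) : ℝ) : ℂ) * I) /
        (wz / (2 * (s2⁻¹ * ei (-(y * Real.log (2 * Real.pi)))) * Gamma s *
        Complex.cos (Real.pi * s / 2))) =
        -(wz⁻¹ * s2⁻¹ * (Gamma s * (2 * Complex.cos (Real.pi * s / 2)))) *
        (ei (-(y * Real.log (2 * Real.pi))) *
        cexp (((-(4 * Real.pi * xb β y) : ℝ) : ℂ) * I)) := by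
      rw [div_div_eq_mul_div, div_eq_mul_inv _ wz]
      ring
    rw [e5, ← e4]
    ring
  have hgn := gn_asymp hy
  have hcn := cos_asymp (y := y) (by linarith)
  rw [← hs] at hcn
  rw [key, ga0]
  have e6 : -(wz⁻¹ * s2⁻¹ * (g * cc)) * ph β y - -(wz⁻¹ * ei (-(Real.pi / 4))) * ph β y =
      -(wz⁻¹ * s2⁻¹ * ((g - s2) * cc + s2 * (cc - ei (-(Real.pi / 4))))) * ph β y := by
    field_simp
    ring
  rw [e6, norm_mul, ph_norm, mul_one, norm_neg, norm_mul, norm_mul, norm_inv, wz_norm, inv_one,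
    one_mul, norm_inv]
  have hccn : ‖cc‖ ≤ 2 := by
    have : cc = (cc - ei (-(Real.pi / 4))) + ei (-(Real.pi / 4)) := by ring
    rw [this]
    refine (norm_add_le _ _).trans ?_
    rw [ei_norm]
    have : 1 / y ≤ 1 := by
      rw [div_le_one hy0]
      linarith
    linarith
  have hs2b : 1 ≤ ‖s2‖ := by
    rw [hs2, Complex.norm_real, Real.norm_of_nonneg hs2r.le, Real.one_le_sqrt]
    have := Real.pi_gt_three
    linarith
  have hs2c : 0 < ‖s2‖ := by linarith
  rw [inv_mul_le_iff₀ hs2c]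
  calc ‖(g - s2) * cc + s2 * (cc - ei (-(Real.pi / 4)))‖ ≤
        ‖g - s2‖ * ‖cc‖ + ‖s2‖ * ‖cc - ei (-(Real.pi / 4))‖ :=
        (norm_add_le _ _).trans (add_le_add (norm_mul_le _ _) (norm_mul_le _ _))
    _ ≤ 3 / y * 2 + ‖s2‖ * (1 / y) := by gcongr
    _ ≤ ‖s2‖ * (3 / y * 2) + ‖s2‖ * (1 / y) :=
        add_le_add_left (le_mul_of_one_le_left (by positivity) hs2b) _
    _ = ‖s2‖ * (7 / y) := by ring
    _ ≤ ‖s2‖ * (8 / y) := by
        gcongr
        norm_num

/-- the frequency -/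
noncomputable def th0 (β : ℝ) : ℝ :=
  Real.exp (-(2 + 4 * Real.pi * β + Real.log (2 * Real.pi))) / (2 * Real.pi)

lemma th0_pos (β : ℝ) : 0 < th0 β := by
  unfold th0
  positivity

/-- the point on the ray -/
noncomputable def w1 (β δ : ℝ) : ℂ := ⟨δ, -(2 * Real.pi * th0 β)⟩

/-- the Mellin transform of the additive character -/
noncomputable def HH (β δ y : ℝ) : ℂ :=
  Gamma (1 / 2 - y * I) * cexp (-(1 / 2 - y * I) * Complex.log (w1 β δ))

lemma log_w1 (β : ℝ) : ∃ C : ℝ, 0 ≤ C ∧ ∀ δ : ℝ, 0 < δ → C * δ ≤ 1 →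
    ‖Complex.log (w1 β δ) - (((Real.log (2 * Real.pi * th0 β) : ℝ) : ℂ) -
      ((Real.pi / 2 : ℝ) : ℂ) * I)‖ ≤ C * δ := by
  have hθ := th0_pos β
  set a : ℝ := 2 * Real.pi * th0 β with ha
  have ha0 : 0 < a := by positivity
  refine ⟨2 / a, by positivity, fun δ hδ h1 => ?_⟩
  have hδa : δ / a ≤ 1 / 2 := by
    rw [div_mul_eq_mul_div, div_le_one ha0] at h1
    rw [div_le_iff₀ ha0]
    linarith
  have e1 : w1 β δ = ((a : ℝ) : ℂ) * (-I * (1 + ((δ / a : ℝ) : ℂ) * I)) := by
    unfold w1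
    rw [← ha]
    apply Complex.ext
    · simp
      field_simp
    · simp
  have hx : (1 : ℂ) + ((δ / a : ℝ) : ℂ) * I ≠ 0 := by
    intro h
    have := congrArg Complex.re h
    simp at this
  have hre : 0 < ((1 : ℂ) + ((δ / a : ℝ) : ℂ) * I).re := by simp
  have harg : |((1 : ℂ) + ((δ / a : ℝ) : ℂ) * I).arg| < Real.pi / 2 :=
    Complex.abs_arg_lt_pi_div_two_iff.2 (Or.inl hre)
  rw [abs_lt] at harg
  have e2 : Complex.log (-I * (1 + ((δ / a : ℝ) : ℂ) * I)) =
      -(Real.pi / 2) * I + Complex.log (1 + ((δ / a : ℝ) : ℂ) * I) := by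
    rw [Complex.log_mul (by simp) hx, Complex.log_neg_I]
    rw [Complex.arg_neg_I]
    have := Real.pi_pos
    constructor <;> linarith [harg.1, harg.2]
  rw [e1, Complex.log_ofReal_mul ha0 (mul_ne_zero (by simp) hx), e2]
  have e3 : ((Real.log a : ℝ) : ℂ) + (-(Real.pi / 2) * I +
      Complex.log (1 + ((δ / a : ℝ) : ℂ) * I)) -
      (((Real.log a : ℝ) : ℂ) - ((Real.pi / 2 : ℝ) : ℂ) * I) =
      Complex.log (1 + ((δ / a : ℝ) : ℂ) * I) := by
    push_cast
    ring
  rw [e3]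
  have hn : ‖((δ / a : ℝ) : ℂ) * I‖ = δ / a := by
    rw [norm_mul, norm_I, mul_one, Complex.norm_real, Real.norm_of_nonneg (by positivity)]
  refine (Complex.norm_log_one_add_half_le_self (by rw [hn]; exact hδa)).trans ?_
  rw [hn]
  calc 3 / 2 * (δ / a) ≤ 2 * (δ / a) := by
        have : 0 ≤ δ / a := by positivity
        linarith
    _ = 2 / a * δ := by ring

/-- the constant -/
noncomputable def h00 (β : ℝ) : ℂ :=
  ((√(2 * Real.pi) * Real.exp (-(Real.log (2 * Real.pi * th0 β) / 2)) : ℝ) : ℂ) * ei (Real.pi / 4)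

lemma h00_ne (β : ℝ) : h00 β ≠ 0 := by
  unfold h00
  refine mul_ne_zero ?_ (by rw [← norm_pos_iff, ei_norm]; norm_num)
  have : 0 < √(2 * Real.pi) * Real.exp (-(Real.log (2 * Real.pi * th0 β) / 2)) := by positivity
  exact_mod_cast this.ne'

theorem HH_axis (β : ℝ) : ∃ C : ℝ, 1 ≤ C ∧ ∀ δ y : ℝ, 0 < δ → 50 ≤ y → C * (y * δ) ≤ 1 →
    ‖HH β δ y - h00 β * ph β y‖ ≤ C * (1 / y + y * δ) := by
  obtain ⟨C0, hC0, hlog⟩ := log_w1 β
  have hθ := th0_pos β
  set a : ℝ := 2 * Real.pi * th0 β with ha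
  have ha0 : 0 < a := by positivity
  set A : ℝ := Real.exp (-(Real.log a / 2)) with hA
  have hA0 : 0 < A := Real.exp_pos _
  refine ⟨1 + 2 * C0 + A * (3 + 10 * (1 + 2 * C0)), by
    have : 0 ≤ A * (3 + 10 * (1 + 2 * C0)) := by positivity
    linarith, fun δ y hδ hy h1 => ?_⟩
  have hy0 : 0 < y := by linarith
  have hyd : 0 < y * δ := by positivity
  have hdy : δ ≤ y * δ := by nlinarith
  have hC0δ : C0 * δ ≤ 1 := by
    have : 0 ≤ A * (3 + 10 * (1 + 2 * C0)) := by positivity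
    nlinarith
  have hl := hlog δ hδ hC0δ
  set e1 : ℂ := Complex.log (w1 β δ) - (((Real.log a : ℝ) : ℂ) - ((Real.pi / 2 : ℝ) : ℂ) * I)
    with he1
  set q : ℂ := -(1 / 2 - y * I) * e1 with hq
  have hqn : ‖q‖ ≤ 2 * C0 * (y * δ) := by
    rw [hq, norm_mul, norm_neg]
    have f1 : ‖(1 : ℂ) / 2 - y * I‖ ≤ 2 * y := by
      refine (norm_sub_le _ _).trans ?_
      rw [norm_mul, norm_I, mul_one, Complex.norm_real, Real.norm_of_nonneg hy0.le]
      norm_num
      linarith
    calc ‖(1 : ℂ) / 2 - y * I‖ * ‖e1‖ ≤ 2 * y * (C0 * δ) := by gcongr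
      _ = _ := by ring
  have hq1 : ‖q‖ ≤ 1 := by
    refine hqn.trans ?_
    have : 0 ≤ A * (3 + 10 * (1 + 2 * C0)) := by positivity
    nlinarith
  have hexq := Complex.norm_exp_sub_one_le hq1
  -- exact formula
  have key : HH β δ y = (A : ℂ) * ei (Real.pi / 4) * (starRingEnd ℂ) (gn y) * cexp q * ph β y := by
    unfold HH
    have f1 : Gamma (1 / 2 - y * I) = (starRingEnd ℂ) (gn y) *
        ((Real.exp (-(Real.pi * y / 2)) : ℝ) : ℂ) * ei (-(y * Real.log y - y)) := by
      unfold gn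
      rw [map_mul, map_mul, ← Complex.Gamma_conj, Complex.conj_ofReal, ei_conj]
      have f2 : (starRingEnd ℂ) (1 / 2 + y * I) = 1 / 2 - y * I := by
        simp only [map_add, map_div₀, map_one, map_ofNat, map_mul, Complex.conj_ofReal,
          Complex.conj_I]
        ring
      rw [f2]
      have f3 : ((Real.exp (Real.pi * y / 2) : ℝ) : ℂ) *
          ((Real.exp (-(Real.pi * y / 2)) : ℝ) : ℂ) = 1 := by
        rw [← Complex.ofReal_mul, ← Real.exp_add]
        simp
      have f4 : ei (- -(y * Real.log y - y)) * ei (-(y * Real.log y - y)) = 1 := by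
        rw [← ei_add]
        simp [ei]
      linear_combination -(Gamma (1 / 2 - y * I)) * f4 -
        (Gamma (1 / 2 - y * I) * ei (- -(y * Real.log y - y)) * ei (-(y * Real.log y - y))) * f3
    have f5 : cexp (-(1 / 2 - y * I) * Complex.log (w1 β δ)) =
        (A : ℂ) * ei (Real.pi / 4) * ((Real.exp (Real.pi * y / 2) : ℝ) : ℂ) *
        ei (y * Real.log a) * cexp q := by
      rw [hA, Complex.ofReal_exp, Complex.ofReal_exp]
      unfold ei
      rw [← Complex.exp_add, ← Complex.exp_add, ← Complex.exp_add, ← Complex.exp_add]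
      congr 1
      have : Complex.log (w1 β δ) = e1 + (((Real.log a : ℝ) : ℂ) - ((Real.pi / 2 : ℝ) : ℂ) * I) := by
        rw [he1]
        ring
      rw [this, hq]
      push_cast
      ring_nf
      simp only [I_sq]
      ring
    rw [f1, f5]
    have f3 : ((Real.exp (-(Real.pi * y / 2)) : ℝ) : ℂ) *
        ((Real.exp (Real.pi * y / 2) : ℝ) : ℂ) = 1 := by
      rw [← Complex.ofReal_mul, ← Real.exp_add]
      simp
    have f6 : ei (-(y * Real.log y - y)) * ei (y * Real.log a) = ph β y := by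
      unfold ph
      rw [← ei_add]
      congr 1
      have : Real.log a = -(2 + 4 * Real.pi * β + Real.log (2 * Real.pi)) := by
        have hae : a = Real.exp (-(2 + 4 * Real.pi * β + Real.log (2 * Real.pi))) := by
          rw [ha]
          unfold th0
          have := Real.pi_pos
          field_simp
        rw [hae, Real.log_exp]
      rw [this]
      ring
    rw [← f6]
    linear_combination ((starRingEnd ℂ) (gn y) * ei (-(y * Real.log y - y)) * (A : ℂ) *
      ei (Real.pi / 4) * ei (y * Real.log a) * cexp q) * f3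
  have hgn := gn_asymp hy
  set s2 : ℂ := ((√(2 * Real.pi) : ℝ) : ℂ) with hs2
  have hs2r : 0 < √(2 * Real.pi) := by positivity
  have hgc : ‖(starRingEnd ℂ) (gn y) - s2‖ ≤ 3 / y := by
    have : (starRingEnd ℂ) (gn y) - s2 = (starRingEnd ℂ) (gn y - s2) := by
      rw [map_sub, hs2, Complex.conj_ofReal]
    rw [this, Complex.norm_conj]
    exact hgn
  have hs2b : ‖s2‖ ≤ 2.6 := by
    rw [hs2, Complex.norm_real, Real.norm_of_nonneg hs2r.le, Real.sqrt_le_left (by norm_num)]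
    have := Real.pi_lt_d2
    nlinarith
  have hcg : ‖(starRingEnd ℂ) (gn y)‖ ≤ 3 := by
    have : (starRingEnd ℂ) (gn y) = ((starRingEnd ℂ) (gn y) - s2) + s2 := by ring
    rw [this]
    refine (norm_add_le _ _).trans ?_
    have : 3 / y ≤ 3 / 50 := by gcongr
    norm_num at this hs2b ⊢
    linarith
  have hdiff : HH β δ y - h00 β * ph β y = (A : ℂ) * ei (Real.pi / 4) *
      (((starRingEnd ℂ) (gn y) - s2) + (starRingEnd ℂ) (gn y) * (cexp q - 1)) * ph β y := by
    rw [key]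
    unfold h00
    rw [← ha, ← hA]
    push_cast
    rw [← hs2]
    ring
  rw [hdiff, norm_mul, norm_mul, norm_mul, ph_norm, ei_norm, mul_one, mul_one, Complex.norm_real,
    Real.norm_of_nonneg hA0.le]
  have h2 : ‖((starRingEnd ℂ) (gn y) - s2) + (starRingEnd ℂ) (gn y) * (cexp q - 1)‖ ≤
      3 / y + 3 * (2 * (2 * C0 * (y * δ))) := by
    refine (norm_add_le _ _).trans ?_
    rw [norm_mul]
    gcongr
    exact hexq.trans (by gcongr)
  calc A * ‖((starRingEnd ℂ) (gn y) - s2) + (starRingEnd ℂ) (gn y) * (cexp q - 1)‖ ≤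
        A * (3 / y + 3 * (2 * (2 * C0 * (y * δ)))) := by gcongr
    _ = A * 3 * (1 / y) + A * 12 * C0 * (y * δ) := by ring
    _ ≤ (1 + 2 * C0 + A * (3 + 10 * (1 + 2 * C0))) * (1 / y) +
        (1 + 2 * C0 + A * (3 + 10 * (1 + 2 * C0))) * (y * δ) := by
        have f1 : 0 < 1 / y := by positivity
        have f2 : 0 ≤ A * C0 := by positivity
        gcongr
        · nlinarith
        · nlinarith
    _ = _ := by ring

/-- the quotient of the constants -/
noncomputable def gg (β : ℝ) : ℂ := ga0 / h00 β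

/-- **the factor on the imaginary axis** -/
theorem GA_HH (β : ℝ) : ∃ C : ℝ, 1 ≤ C ∧ ∀ δ y : ℝ, 0 < δ → 50 ≤ y → C * (y * δ) ≤ 1 →
    ‖GA β ⟨0, y⟩ - gg β * HH β δ y‖ ≤ C * (1 / y + y * δ) := by
  obtain ⟨C1, hC1, h1⟩ := HH_axis β
  refine ⟨8 + (1 + ‖gg β‖) * C1, by nlinarith [norm_nonneg (gg β)], fun δ y hδ hy h => ?_⟩
  have hy0 : 0 < y := by linarith
  have hyd : 0 < y * δ := by positivity
  have hg0 := norm_nonneg (gg β)
  have k1 := h1 δ y hδ hy (by nlinarith [mul_nonneg hg0 (by linarith : (0 : ℝ) ≤ C1)])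
  have k2 := GA_axis β hy
  have e1 : GA β ⟨0, y⟩ - gg β * HH β δ y = (GA β ⟨0, y⟩ - ga0 * ph β y) -
      gg β * (HH β δ y - h00 β * ph β y) := by
    unfold gg
    have := h00_ne β
    field_simp
    ring
  rw [e1]
  refine (norm_sub_le _ _).trans ?_
  rw [norm_mul]
  have f1 : 0 < 1 / y := by positivity
  calc ‖GA β ⟨0, y⟩ - ga0 * ph β y‖ + ‖gg β‖ * ‖HH β δ y - h00 β * ph β y‖ ≤
      8 / y + ‖gg β‖ * (C1 * (1 / y + y * δ)) := by gcongr
    _ = 8 * (1 / y) + ‖gg β‖ * C1 * (1 / y + y * δ) := by ring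
    _ ≤ 8 * (1 / y + y * δ) + (1 + ‖gg β‖) * C1 * (1 / y + y * δ) := by
        gcongr
        · linarith
        · linarith
    _ = _ := by ring

end Pool.Agent.T9h53.AH
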