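import Pool.Agent.T9h53.AH.Ph
import Pool.Agent.T9h53.SZ.Quot
import Pool.Agent.T9h53.EQ.Term

/-! # The quotient in a window in which the zeros are close to a lattice -/

set_option autoImplicit false

open Complex Filter Topology Set

namespace Pool.Agent.T9h53.AH

open Pool.Agent.T9h53.SZ Pool.Agent.T9h53.EQ

/-- the zeros near `t` are simple, on the line and within `η` of distinct points of a lattice -/
structure LatD (β W η t : ℝ) (zs : Finset ℝ) (lam : ℝ → ℝ) (u : ℂ) : Prop where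
  hu : ‖u‖ = 1
  zer : ∀ z : ℂ, |z.im - t| < W → riemannZeta (1 / 2 + z) = 0 → z.re = 0 ∧ z.im ∈ zs
  simple : ∀ y ∈ zs, analyticOrderAt (fun w => riemannZeta (1 / 2 + w)) (⟨0, y⟩ : ℂ) ≤ 1
  near : ∀ y ∈ zs, |lam y - y| ≤ η
  inj : Set.InjOn lam zs
  lat : ∀ y ∈ zs, u * Xi β ⟨0, lam y⟩ = 1
  win : ∀ y ∈ zs, |y - t| ≤ W

/-- the product of the factors -/
noncomputable def MM (zs : Finset ℝ) (lam : ℝ → ℝ) (z : ℂ) : ℂ :=
  ∏ y ∈ zs, ((z - (⟨0, y⟩ : ℂ)) / (z - (⟨0, lam y⟩ : ℂ)))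

lemma zeta_an {z : ℂ} (hz : 0 < z.im) : AnalyticAt ℂ (fun w => riemannZeta (1 / 2 + w)) z :=
  zHU.analytic hz

lemma lin_an (a z : ℂ) : AnalyticAt ℂ (fun w : ℂ => w - a) z := by fun_prop

lemma prod_an (s : Finset ℝ) (g : ℝ → ℝ) (z : ℂ) :
    AnalyticAt ℂ (fun w : ℂ => ∏ y ∈ s, (w - (⟨0, g y⟩ : ℂ))) z :=
  Finset.analyticAt_fun_prod _ fun y _ => lin_an _ z

lemma prod_order {s : Finset ℝ} {g : ℝ → ℝ} (hinj : Set.InjOn g s) (z : ℂ) :
    analyticOrderAt (fun w : ℂ => ∏ y ∈ s, (w - (⟨0, g y⟩ : ℂ))) z ≤ 1 := by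
  classical
  by_cases h : ∃ y ∈ s, z = ⟨0, g y⟩
  · obtain ⟨y, hy, hz⟩ := h
    have h1 : analyticOrderAt (fun w : ℂ => ∏ y ∈ s, (w - (⟨0, g y⟩ : ℂ))) z = ((1 : ℕ) : ℕ∞) := by
      rw [(prod_an s g z).analyticOrderAt_eq_natCast]
      refine ⟨fun w => ∏ x ∈ s.erase y, (w - (⟨0, g x⟩ : ℂ)), prod_an _ g z, ?_, ?_⟩
      · rw [Finset.prod_ne_zero_iff]
        intro x hx
        rw [Finset.mem_erase] at hx
        rw [sub_ne_zero, hz]
        intro h2
        have h3 := congrArg Complex.im h2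
        simp only at h3
        exact hx.1 (hinj hx.2 hy h3.symm)
      · refine Filter.Eventually.of_forall fun w => ?_
        rw [pow_one, smul_eq_mul, hz, Finset.mul_prod_erase s (fun x => w - (⟨0, g x⟩ : ℂ)) hy]
    rw [h1]
    exact le_rfl
  · have h1 : analyticOrderAt (fun w : ℂ => ∏ y ∈ s, (w - (⟨0, g y⟩ : ℂ))) z = 0 := by
      rw [(prod_an s g z).analyticOrderAt_eq_zero, Finset.prod_ne_zero_iff]
      intro y hy
      rw [sub_ne_zero]
      intro h2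
      exact h ⟨y, hy, h2⟩
    rw [h1]
    exact zero_le

lemma one_le_order {f : ℂ → ℂ} {z : ℂ} (hf : AnalyticAt ℂ f z) (h0 : f z = 0) :
    1 ≤ analyticOrderAt f z := by
  rw [Order.one_le_iff_ne_zero]
  intro h
  rw [hf.analyticOrderAt_eq_zero] at h
  exact h h0

/-- the quotient -/
theorem exists_DL {β W η t : ℝ} {zs : Finset ℝ} {lam : ℝ → ℝ} {u : ℂ}
    (h : LatD β W η t zs lam u) (ht : W < t) :
    ∃ D : ℂ → ℂ, (∀ z : ℂ, |z.im - t| < W → AnalyticAt ℂ D z) ∧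
      ∀ z : ℂ, |z.im - t| < W → (1 - u * Xi β z) * (∏ y ∈ zs, (z - (⟨0, y⟩ : ℂ))) =
        D z * (riemannZeta (1 / 2 + z) * ∏ y ∈ zs, (z - (⟨0, lam y⟩ : ℂ))) := by
  set U : Set ℂ := {z : ℂ | |z.im - t| < W} with hU
  have hUo : IsOpen U := isOpen_lt (by fun_prop) continuous_const
  have hpos : ∀ z ∈ U, 0 < z.im := by
    intro z hz
    have hz' : |z.im - t| < W := hz
    have := (abs_lt.mp hz').1
    linarith
  obtain ⟨E1, hE1, hE1e⟩ := exists_quot (f := fun w : ℂ => ∏ y ∈ zs, (w - (⟨0, y⟩ : ℂ)))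
    (h := fun w => riemannZeta (1 / 2 + w)) hUo (fun z _ => prod_an zs id z)
    (fun z hz => zeta_an (hpos z hz)) (fun z hz => zHU.order_ne_top (hpos z hz)) (by
      intro z hz
      by_cases h0 : riemannZeta (1 / 2 + z) = 0
      · obtain ⟨h1, h2⟩ := h.zer z hz h0
        have hzz : z = ⟨0, z.im⟩ := Complex.ext h1 rfl
        have h3 := h.simple _ h2
        rw [← hzz] at h3
        refine h3.trans (one_le_order (prod_an zs id z) ?_)
        rw [Finset.prod_eq_zero_iff]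
        exact ⟨z.im, h2, by rw [sub_eq_zero]; exact hzz⟩
      · have h1 : analyticOrderAt (fun w => riemannZeta (1 / 2 + w)) z = 0 := by
          rw [(zeta_an (hpos z hz)).analyticOrderAt_eq_zero]
          exact h0
        rw [h1]
        exact zero_le)
  have hXan : ∀ z ∈ U, AnalyticAt ℂ (fun z => 1 - u * Xi β z) z := fun z hz =>
    analyticAt_const.sub (analyticAt_const.mul (Xi_analytic β (hpos z hz)))
  obtain ⟨E2, hE2, hE2e⟩ := exists_quot (f := fun z : ℂ => 1 - u * Xi β z)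
    (h := fun w : ℂ => ∏ y ∈ zs, (w - (⟨0, lam y⟩ : ℂ))) hUo hXan
    (fun z _ => prod_an zs lam z) (fun z _ => by
      intro h1
      have := prod_order h.inj z
      rw [h1] at this
      simp at this) (by
      intro z hz
      by_cases h0 : ∏ y ∈ zs, (z - (⟨0, lam y⟩ : ℂ)) = 0
      · obtain ⟨y, hy, h1⟩ := Finset.prod_eq_zero_iff.mp h0
        rw [sub_eq_zero] at h1
        refine (prod_order h.inj z).trans (one_le_order (hXan z hz) ?_)
        rw [h1, h.lat y hy, sub_self]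
      · have h1 : analyticOrderAt (fun w : ℂ => ∏ y ∈ zs, (w - (⟨0, lam y⟩ : ℂ))) z = 0 := by
          rw [(prod_an zs lam z).analyticOrderAt_eq_zero]
          exact h0
        rw [h1]
        exact zero_le)
  refine ⟨fun z => E1 z * E2 z, fun z hz => (hE1 z hz).mul (hE2 z hz), fun z hz => ?_⟩
  have e1 := hE1e z hz
  have e2 := hE2e z hz
  simp only at e1 e2 ⊢
  rw [e1, e2]
  ring

lemma DL_eq {β W η t : ℝ} {zs : Finset ℝ} {lam : ℝ → ℝ} {u : ℂ}
    (h : LatD β W η t zs lam u) {D : ℂ → ℂ} (hD : ∀ z : ℂ, |z.im - t| < W →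
      (1 - u * Xi β z) * (∏ y ∈ zs, (z - (⟨0, y⟩ : ℂ))) =
        D z * (riemannZeta (1 / 2 + z) * ∏ y ∈ zs, (z - (⟨0, lam y⟩ : ℂ)))) {z : ℂ}
    (hz : |z.im - t| < W) (hre : z.re ≠ 0) :
    D z = (1 - u * Xi β z) * MM zs lam z * (riemannZeta (1 / 2 + z))⁻¹ := by
  have h1 : riemannZeta (1 / 2 + z) ≠ 0 := fun h0 => hre (h.zer z hz h0).1
  have h2 : ∏ y ∈ zs, (z - (⟨0, lam y⟩ : ℂ)) ≠ 0 := by
    rw [Finset.prod_ne_zero_iff]
    intro y _
    rw [sub_ne_zero]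
    intro h3
    apply hre
    rw [h3]
  have h3 := hD z hz
  unfold MM
  rw [Finset.prod_div_distrib]
  generalize riemannZeta (1 / 2 + z) = ζ at h1 h3 ⊢
  generalize ∏ y ∈ zs, (z - (⟨0, lam y⟩ : ℂ)) = P at h2 h3 ⊢
  generalize ∏ y ∈ zs, (z - (⟨0, y⟩ : ℂ)) = Q at h3 ⊢
  field_simp
  linear_combination -h3

lemma MM_conj (zs : Finset ℝ) (lam : ℝ → ℝ) (z : ℂ) :
    (starRingEnd ℂ) (MM zs lam (-(starRingEnd ℂ) z)) = MM zs lam z := by
  unfold MM
  rw [map_prod]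
  apply Finset.prod_congr rfl
  intro y _
  have e1 : ∀ x : ℝ, (starRingEnd ℂ) (-(starRingEnd ℂ) z - (⟨0, x⟩ : ℂ)) = -(z - (⟨0, x⟩ : ℂ)) := by
    intro x
    apply Complex.ext
    · simp
    · simp
      ring
  rw [map_div₀, e1, e1, neg_div_neg_eq]

/-- the functional equation -/
lemma DL_fe {β W η t : ℝ} {zs : Finset ℝ} {lam : ℝ → ℝ} {u : ℂ}
    (h : LatD β W η t zs lam u) (ht : W < t) {D : ℂ → ℂ} (hD : ∀ z : ℂ, |z.im - t| < W →
      (1 - u * Xi β z) * (∏ y ∈ zs, (z - (⟨0, y⟩ : ℂ))) =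
        D z * (riemannZeta (1 / 2 + z) * ∏ y ∈ zs, (z - (⟨0, lam y⟩ : ℂ)))) {z : ℂ}
    (hz : |z.im - t| < W) (hre : z.re ≠ 0) :
    D z = u * GA β z * (starRingEnd ℂ) (D (-(starRingEnd ℂ) z)) := by
  have him : 0 < z.im := by
    have := (abs_lt.mp hz).1
    linarith
  have h1 := DL_eq h hD hz hre
  have h2 := DL_eq h hD (z := -(starRingEnd ℂ) z) (by simpa using hz) (by simpa using hre)
  have hX := Xi_conj β him
  have hfe := zeta_fe (z := z) him.ne'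
  have hXn : Xi β z ≠ 0 := Xi_ne β z
  have hζ : riemannZeta (1 / 2 + z) ≠ 0 := fun h0 => hre (h.zer z hz h0).1
  have hun : u * (starRingEnd ℂ) u = 1 := by
    rw [Complex.mul_conj', h.hu]
    norm_num
  rw [h1, h2, map_mul, map_mul, MM_conj, map_inv₀, map_sub, map_one, map_mul, hX,
    ← sub_eq_add_neg]
  have hXZ : XZ z ≠ 0 := XZ_ne him.ne'
  have hζ2 : (starRingEnd ℂ) (riemannZeta (1 / 2 - (starRingEnd ℂ) z)) ≠ 0 := by
    intro h0
    rw [h0, mul_zero] at hfe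
    exact hζ hfe
  rw [hfe]
  unfold GA
  generalize (starRingEnd ℂ) (riemannZeta (1 / 2 - (starRingEnd ℂ) z)) = ζ at hζ2 ⊢
  generalize (starRingEnd ℂ) u = v at hun ⊢
  field_simp
  linear_combination -(MM zs lam z) * hun

end Pool.Agent.T9h53.AH
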