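import Pool.Agent.T9h53.AH.Vw
import Pool.Agent.T9h53.AH.Ev

/-! # The window inequality -/

set_option autoImplicit false

open Complex Filter Topology Set MeasureTheory

namespace Pool.Agent.T9h53.AH

open Pool.Agent.T9h53.SZ Pool.Agent.T9h53.EQ
open Pool.Agent.TH823.MRS (mob)

lemma Xi_one (β : ℝ) : ∃ C : ℝ, 0 < C ∧ ∀ y : ℝ, 1 ≤ y → ‖Xi β ⟨1, y⟩‖ ≤ C / y ^ 2 := by
  obtain ⟨C, hC, h⟩ := Xi_size β
  refine ⟨Real.exp C, Real.exp_pos _, fun y hy => ?_⟩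
  have hy0 : 0 < y := by linarith
  have k1 := (abs_le.mp (h 1 y hy0 (by rwa [abs_one]))).2
  rw [abs_one, mul_one, mul_one] at k1
  have hpos : 0 < ‖Xi β ⟨1, y⟩‖ := norm_pos_iff.mpr (Xi_ne _ _)
  rw [← Real.exp_log hpos]
  have e1 : Real.exp C / y ^ 2 = Real.exp (C - 2 * Real.log y) := by
    rw [Real.exp_sub, show (2 : ℝ) * Real.log y = ((2 : ℕ) : ℝ) * Real.log y by norm_num,
      Real.exp_nat_mul, Real.exp_log hy0]
  rw [e1]
  apply Real.exp_le_exp.mpr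
  linarith

lemma right_side {β b Y η t T ℓ CX : ℝ} {zs : Finset ℝ} {lam : ℝ → ℝ} {u : ℂ} {D : ℂ → ℂ}
    (hL : LatD β (Y + 3) η t zs lam u) (hD : ∀ z : ℂ, |z.im - t| < Y + 3 → AnalyticAt ℂ D z)
    (hDe : ∀ z : ℂ, |z.im - t| < Y + 3 → (1 - u * Xi β z) * (∏ y ∈ zs, (z - (⟨0, y⟩ : ℂ))) =
        D z * (riemannZeta (1 / 2 + z) * ∏ y ∈ zs, (z - (⟨0, lam y⟩ : ℂ))))
    (hb : 1 ≤ b) (hY : b ≤ Y) (hWt : Y + 3 < t) (hℓ : 0 < ℓ) (hCX : 0 < CX) (hT : 0 < T)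
    (hX1 : ∀ v : ℝ, |v| ≤ Y → ‖Xi β ⟨1, t + v⟩‖ ≤ CX / T ^ 2) (hX2 : CX / T ^ 2 ≤ 1)
    (hM : Real.exp (zs.card * η) - 1 ≤ 2 / ℓ) :
    (2 * b * Real.exp (-2) - 2 * ed b Y) - S0 * ta b Y (Real.log 2) ≤
      ‖VW D b⁻¹ Y t 1‖ + S0 * (4 / ℓ + CX / T ^ 2) * (6 * b) := by
  have hb0 : 0 < b := by linarith
  have hY0 : 0 ≤ Y := by linarith
  have hS0 := S0_nonneg
  refine (right_mu (t := t) hb hY).trans ?_
  apply VW_close hb0 hY0 (by rwa [abs_one]) (by positivity)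
  · refine line_cont (F := fun z => (riemannZeta (1 / 2 + z))⁻¹) ?_
    intro v h1 h2
    have him : 0 < (⟨1, t + v⟩ : ℂ).im := by
      simp only
      linarith
    exact ((zeta_an him).differentiableAt).inv (by
      apply riemannZeta_ne_zero_of_one_lt_re
      norm_num)
  · apply line_cont
    intro v h1 h2
    exact (hD _ (by
      simp only [add_sub_cancel_left]
      exact abs_lt.mpr ⟨by linarith, by linarith⟩)).differentiableAt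
  · intro v h1 h2
    have hv : |v| ≤ Y := abs_le.mpr ⟨h1, h2⟩
    set z : ℂ := ⟨1, t + v⟩ with hz
    have hzim : |z.im - t| < Y + 3 := by
      rw [hz]
      simp only [add_sub_cancel_left]
      linarith
    have hD1 := DL_eq hL hDe hzim (by rw [hz]; norm_num)
    have hM1 : ‖MM zs lam z - 1‖ ≤ 2 / ℓ := by
      have k1 := MM_sub_one hL.near (z := z) (by rw [hz]; norm_num)
      have k2 : |z.re| = 1 := by rw [hz]; norm_num
      rw [k2, div_one] at k1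
      exact k1.trans hM
    have hXz := hX1 v hv
    rw [← hz] at hXz
    have hiz := inv_zeta_le (z := z) (by rw [hz])
    have e1 : (riemannZeta (1 / 2 + z))⁻¹ - D z =
        -((riemannZeta (1 / 2 + z))⁻¹ * ((1 - u * Xi β z) * (MM zs lam z - 1) - u * Xi β z)) := by
      rw [hD1]
      ring
    rw [e1, norm_neg, norm_mul]
    have h3 : ‖u * Xi β z‖ ≤ CX / T ^ 2 := by
      rw [norm_mul, hL.hu, one_mul]
      exact hXz
    have h4 : ‖1 - u * Xi β z‖ ≤ 2 := by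
      refine (norm_sub_le _ _).trans ?_
      rw [norm_one]
      linarith
    have h5 : ‖(1 - u * Xi β z) * (MM zs lam z - 1) - u * Xi β z‖ ≤ 4 / ℓ + CX / T ^ 2 := by
      refine (norm_sub_le _ _).trans (add_le_add ?_ h3)
      rw [norm_mul]
      calc ‖1 - u * Xi β z‖ * ‖MM zs lam z - 1‖ ≤ 2 * (2 / ℓ) :=
            mul_le_mul h4 hM1 (norm_nonneg _) (by norm_num)
        _ = 4 / ℓ := by ring
    exact mul_le_mul hiz h5 (norm_nonneg _) hS0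

lemma shift_D {β b Y η t T CG B : ℝ} {zs : Finset ℝ} {lam : ℝ → ℝ} {u : ℂ} {D : ℂ → ℂ}
    (hL : LatD β (Y + 3) η t zs lam u) (hD : ∀ z : ℂ, |z.im - t| < Y + 3 → AnalyticAt ℂ D z)
    (hDe : ∀ z : ℂ, |z.im - t| < Y + 3 → (1 - u * Xi β z) * (∏ y ∈ zs, (z - (⟨0, y⟩ : ℂ))) =
        D z * (riemannZeta (1 / 2 + z) * ∏ y ∈ zs, (z - (⟨0, lam y⟩ : ℂ))))
    (hb : 1 ≤ b) (hY : b ≤ Y) (hWt : Y + 3 < t) (hCG : 0 < CG) (hT : 0 < T) (hB : 0 ≤ B)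
    (hGA : ∀ c y : ℝ, -1 ≤ c → c ≤ 1 → |y - t| ≤ Y → ‖GA β ⟨c, y⟩‖ ≤ 3 * CG * T)
    (hbox : ∀ x τ : ℝ, 0 ≤ x → x ≤ 1 → |τ - t| ≤ Y → ‖D ⟨x, τ⟩‖ ≤ B) :
    ‖VW D b⁻¹ Y t 1‖ ≤ ‖VW D b⁻¹ Y t (-1)‖ + 4 * ((1 + 3 * CG * T) * B) * ed b Y := by
  have hb0 : 0 < b := by linarith
  have hY0 : 0 ≤ Y := by linarith
  have hhor : ∀ τ : ℝ, |τ - t| ≤ Y → ∀ c : ℝ, -1 ≤ c → c ≤ 1 → ‖D ⟨c, τ⟩‖ ≤
      (1 + 3 * CG * T) * B := by
    intro τ hτ c hc1 hc2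
    rcases le_or_gt 0 c with hc | hc
    · refine (hbox c τ hc hc2 hτ).trans ?_
      have : 0 ≤ 3 * CG * T * B := by positivity
      linarith
    · have e1 := DL_fe hL hWt hDe (z := ⟨c, τ⟩) (by simp only; linarith) (by simpa using hc.ne)
      have e4 : -(starRingEnd ℂ) (⟨c, τ⟩ : ℂ) = ⟨-c, τ⟩ := by
        apply Complex.ext <;> simp
      rw [e1, e4, norm_mul, norm_mul, hL.hu, one_mul, Complex.norm_conj]
      have e5 := hbox (-c) τ (by linarith) (by linarith) hτ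
      have e6 := hGA c τ hc1 hc2 hτ
      calc ‖GA β ⟨c, τ⟩‖ * ‖D ⟨-c, τ⟩‖ ≤ (3 * CG * T) * B :=
            mul_le_mul e6 e5 (norm_nonneg _) (by positivity)
        _ ≤ _ := by linarith
  have hshift : ‖VW D b⁻¹ Y t 1 - VW D b⁻¹ Y t (-1)‖ ≤
      2 * (((1 + 3 * CG * T) * B) * ed b Y * (1 - -1)) := by
    apply VW_shift hY0 (by norm_num) (sc hb0 (by rw [abs_neg, abs_one]; exact hb))
      (sc hb0 (by rw [abs_one]; exact hb)) (inv_pos.mpr hb0).le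
    · intro z hz1 hz2 hz3 hz4
      exact (hD z (abs_lt.mpr ⟨by linarith, by linarith⟩)).differentiableAt
    · intro c hc1 hc2
      exact hhor _ (by rw [add_sub_cancel_left, abs_neg, abs_of_nonneg hY0]) c hc1 hc2
    · intro c hc1 hc2
      exact hhor _ (by rw [add_sub_cancel_left, abs_of_nonneg hY0]) c hc1 hc2
  have htri : ‖VW D b⁻¹ Y t 1‖ ≤ ‖VW D b⁻¹ Y t (-1)‖ + ‖VW D b⁻¹ Y t 1 - VW D b⁻¹ Y t (-1)‖ := by
    calc ‖VW D b⁻¹ Y t 1‖ = ‖VW D b⁻¹ Y t (-1) + (VW D b⁻¹ Y t 1 - VW D b⁻¹ Y t (-1))‖ := by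
          rw [add_sub_cancel]
      _ ≤ _ := norm_add_le _ _
  linarith

lemma GA_cd (β : ℝ) {c y : ℝ} (hy : 0 < y) : DifferentiableAt ℂ (GA β) ⟨c, y⟩ :=
  (GA_analytic β hy).differentiableAt

lemma left_one {β b Y η t T CG CX tl : ℝ} {zs : Finset ℝ} {lam : ℝ → ℝ} {u : ℂ} {D : ℂ → ℂ} {N : ℕ}
    (hL : LatD β (Y + 3) η t zs lam u) (hD : ∀ z : ℂ, |z.im - t| < Y + 3 → AnalyticAt ℂ D z)
    (hDe : ∀ z : ℂ, |z.im - t| < Y + 3 → (1 - u * Xi β z) * (∏ y ∈ zs, (z - (⟨0, y⟩ : ℂ))) =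
        D z * (riemannZeta (1 / 2 + z) * ∏ y ∈ zs, (z - (⟨0, lam y⟩ : ℂ))))
    (hb : 1 ≤ b) (hY : b ≤ Y) (hWt : Y + 3 < t) (hCG : 0 < CG) (hCX : 0 < CX) (hT : 0 < T)
    (htl : 0 ≤ tl)
    (hGA : ∀ c y : ℝ, -1 ≤ c → c ≤ 1 → |y - t| ≤ Y → ‖GA β ⟨c, y⟩‖ ≤ 3 * CG * T)
    (hX1 : ∀ v : ℝ, |v| ≤ Y → ‖Xi β ⟨1, t + v⟩‖ ≤ CX / T ^ 2)
    (hMM : ∀ v : ℝ, |v| ≤ Y → ‖MM zs lam ⟨-1, t + v⟩‖ ≤ 2)
    (htail : ∀ z : ℂ, z.re = -1 → ‖(starRingEnd ℂ) (riemannZeta (1 / 2 - (starRingEnd ℂ) z))⁻¹ -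
      PP (Finset.Icc 1 N) (fun n => (mob n : ℂ)) z‖ ≤ tl) :
    ‖VW D b⁻¹ Y t (-1)‖ ≤ ‖VW (fun z => u * GA β z * (MM zs lam z *
      PP (Finset.Icc 1 N) (fun n => (mob n : ℂ)) z)) b⁻¹ Y t (-1)‖ +
      (3 * CG * T) * (2 * (CX / T ^ 2 * S0 + tl)) * (6 * b) := by
  have hb0 : 0 < b := by linarith
  have hY0 : 0 ≤ Y := by linarith
  have hS0 := S0_nonneg
  apply VW_close hb0 hY0 (by rw [abs_neg, abs_one]; exact hb) (by positivity)
  · apply line_cont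
    intro v h1 h2
    exact (hD _ (by
      simp only [add_sub_cancel_left]
      exact abs_lt.mpr ⟨by linarith, by linarith⟩)).differentiableAt
  · refine line_cont (F := fun z => u * GA β z * (MM zs lam z *
      PP (Finset.Icc 1 N) (fun n => (mob n : ℂ)) z)) ?_
    intro v h1 h2
    exact (((GA_cd β (by linarith)).const_mul u)).mul
      ((MM_diff zs lam (by norm_num)).mul (PP_diff _ _ _))
  · intro v h1 h2
    have hv : |v| ≤ Y := abs_le.mpr ⟨h1, h2⟩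
    set z : ℂ := ⟨-1, t + v⟩ with hz
    have e4 : -(starRingEnd ℂ) z = ⟨1, t + v⟩ := by
      rw [hz]
      apply Complex.ext <;> simp
    have hzim : |z.im - t| < Y + 3 := by
      rw [hz]
      simp only [add_sub_cancel_left]
      linarith
    have hzre : z.re ≠ 0 := by
      rw [hz]
      norm_num
    have e1 := DL_fe hL hWt hDe hzim hzre
    have e2 := DL_eq hL hDe (z := -(starRingEnd ℂ) z) (by simpa using hzim) (by simpa using hzre)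
    have hXz : ‖Xi β (-(starRingEnd ℂ) z)‖ ≤ CX / T ^ 2 := by
      rw [e4]
      exact hX1 v hv
    have hGz : ‖GA β z‖ ≤ 3 * CG * T :=
      hGA (-1) (t + v) le_rfl (by norm_num) (by rwa [add_sub_cancel_left])
    have hMz : ‖MM zs lam z‖ ≤ 2 := hMM v hv
    have htz := htail z rfl
    have hiz : ‖(starRingEnd ℂ) (riemannZeta (1 / 2 - (starRingEnd ℂ) z))⁻¹‖ ≤ S0 := by
      rw [Complex.norm_conj, sub_eq_add_neg, e4]
      exact inv_zeta_le (by simp)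
    rw [e1, e2, map_mul, map_mul, MM_conj, ← sub_eq_add_neg (1 / 2 : ℂ) ((starRingEnd ℂ) z)]
    set Sg := (starRingEnd ℂ) (riemannZeta (1 / 2 - (starRingEnd ℂ) z))⁻¹ with hSg
    set Pz := PP (Finset.Icc 1 N) (fun n => (mob n : ℂ)) z with hPz
    set x := u * Xi β (-(starRingEnd ℂ) z) with hx
    have e5 : u * GA β z * ((starRingEnd ℂ) (1 - x) * MM zs lam z * Sg) -
        u * GA β z * (MM zs lam z * Pz) = u * GA β z * (MM zs lam z *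
        ((Sg - Pz) - (starRingEnd ℂ) x * Sg)) := by
      rw [map_sub, map_one]
      ring
    rw [e5, norm_mul, norm_mul, hL.hu, one_mul, norm_mul]
    have hxn : ‖(starRingEnd ℂ) x‖ ≤ CX / T ^ 2 := by
      rw [Complex.norm_conj, hx, norm_mul, hL.hu, one_mul]
      exact hXz
    have h6 : ‖(Sg - Pz) - (starRingEnd ℂ) x * Sg‖ ≤ CX / T ^ 2 * S0 + tl := by
      refine (norm_sub_le _ _).trans ?_
      rw [norm_mul, add_comm]
      exact add_le_add (mul_le_mul hxn hiz (norm_nonneg _) (by positivity)) htz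
    apply mul_le_mul hGz _ (by positivity) (by positivity)
    exact mul_le_mul hMz h6 (norm_nonneg _) (by norm_num)

end Pool.Agent.T9h53.AH
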