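import Pool.Agent.T9h53.AH.WinL

/-! # The window inequality: the left side -/

set_option autoImplicit false

open Complex Filter Topology Set MeasureTheory

namespace Pool.Agent.T9h53.AH

open Pool.Agent.T9h53.SZ Pool.Agent.T9h53.EQ
open Pool.Agent.TH823.MRS (mob)

lemma VW_move {F : ℂ → ℂ} {b Y t c₁ c₂ B : ℝ} (hb : 1 ≤ b) (hY : 0 ≤ Y) (h1 : -1 ≤ c₁)
    (h2 : c₁ ≤ c₂) (h3 : c₂ ≤ 1) (h12 : c₂ - c₁ ≤ 1) (hB : 0 ≤ B)
    (hF : ∀ z : ℂ, c₁ ≤ z.re → z.re ≤ c₂ → |z.im - t| ≤ Y → DifferentiableAt ℂ F z)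
    (hbd : ∀ c y : ℝ, c₁ ≤ c → c ≤ c₂ → |y - t| ≤ Y → ‖F ⟨c, y⟩‖ ≤ B) :
    ‖VW F b⁻¹ Y t c₁‖ ≤ ‖VW F b⁻¹ Y t c₂‖ + 2 * B * ed b Y := by
  have hb0 : 0 < b := by linarith
  have hs : ‖VW F b⁻¹ Y t c₂ - VW F b⁻¹ Y t c₁‖ ≤ 2 * (B * ed b Y * (c₂ - c₁)) := by
    apply VW_shift hY h2 (sc hb0 (abs_le.mpr ⟨by linarith, by linarith⟩))
      (sc hb0 (abs_le.mpr ⟨by linarith, by linarith⟩)) (inv_pos.mpr hb0).le
    · intro z a1 a2 a3 a4
      exact hF z a1 a2 (abs_le.mpr ⟨by linarith, by linarith⟩)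
    · intro c a1 a2
      exact hbd c _ a1 a2 (by rw [add_sub_cancel_left, abs_neg, abs_of_nonneg hY])
    · intro c a1 a2
      exact hbd c _ a1 a2 (by rw [add_sub_cancel_left, abs_of_nonneg hY])
  have hed := ed_pos b Y
  have h4 : 2 * (B * ed b Y * (c₂ - c₁)) ≤ 2 * B * ed b Y := by
    have : B * ed b Y * (c₂ - c₁) ≤ B * ed b Y * 1 := by gcongr
    linarith
  have h5 : ‖VW F b⁻¹ Y t c₁‖ ≤ ‖VW F b⁻¹ Y t c₂‖ + ‖VW F b⁻¹ Y t c₂ - VW F b⁻¹ Y t c₁‖ := by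
    calc ‖VW F b⁻¹ Y t c₁‖ = ‖VW F b⁻¹ Y t c₂ - (VW F b⁻¹ Y t c₂ - VW F b⁻¹ Y t c₁)‖ := by
          rw [sub_sub_cancel]
      _ ≤ _ := norm_sub_le _ _
  linarith

lemma left_two {β b Y η t T CG CH δ κ E Q : ℝ} {zs : Finset ℝ} {lam : ℝ → ℝ} {u : ℂ} {N X : ℕ}
    {a₁ a₂ : ℕ → ℂ}
    (hL : LatD β (Y + 3) η t zs lam u)
    (hb : 1 ≤ b) (hY : b ≤ Y) (hWt : Y + 3 < t) (hCG : 0 < CG) (hCH : 0 < CH) (hT : 0 < T)
    (hκ : 0 < κ) (hκ1 : κ ≤ 1) (hE0 : 0 ≤ E) (hE : E ≤ 1) (hQ : 0 ≤ Q)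
    (hGA : ∀ c y : ℝ, -1 ≤ c → c ≤ 1 → |y - t| ≤ Y → ‖GA β ⟨c, y⟩‖ ≤ 3 * CG * T)
    (hGk : ∀ y : ℝ, |y - t| ≤ Y → ‖GA β ⟨-κ, y⟩‖ ≤ 8 * CG)
    (hGH : ∀ y : ℝ, |y - t| ≤ Y → ‖GA β ⟨0, y⟩ - gg β * HH β δ y‖ ≤ CH * (5 / T))
    (hP1 : ∀ c y : ℝ, c ≤ 0 → ‖PP (Finset.Icc 1 X) a₁ ⟨c, y⟩‖ ≤ Q)
    (hMM : ∀ v : ℝ, |v| ≤ Y → ‖MM zs lam ⟨-1, t + v⟩‖ ≤ 2)
    (hMM1 : ∀ z : ℂ, z.re ≤ -κ → |z.im - t| ≤ Y → ‖MM zs lam z - 1‖ ≤ 2 * E)
    (hsplit : ∀ z : ℂ, PP (Finset.Icc 1 N) (fun n => (mob n : ℂ)) z =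
      PP (Finset.Icc 1 X) a₁ z + PP (Finset.Icc 1 N) a₂ z) :
    ‖VW (fun z => u * GA β z * (MM zs lam z *
      PP (Finset.Icc 1 N) (fun n => (mob n : ℂ)) z)) b⁻¹ Y t (-1)‖ ≤
      (3 * CG * T) * 2 * (∫ v in (-Y)..Y, ‖PP (Finset.Icc 1 N) a₂ ⟨-1, t + v⟩‖ * kk b v) +
      (8 * CG) * (2 * E) * (∫ v in (-Y)..Y, ‖PP (Finset.Icc 1 X) a₁ ⟨-κ, t + v⟩‖ * kk b v) +
      ‖gg β‖ * ‖VW (fun z => HH β δ z.im * PP (Finset.Icc 1 X) a₁ z) b⁻¹ Y t 0‖ +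
      (CH * (5 / T)) * Q * (6 * b) + 18 * CG * T * Q * ed b Y := by
  have hb0 : 0 < b := by linarith
  have hY0 : 0 ≤ Y := by linarith
  have hed := ed_pos b Y
  have hpos : ∀ z : ℂ, |z.im - t| ≤ Y → 0 < z.im := by
    intro z hz
    have := (abs_le.mp hz).1
    linarith
  set P1 : ℂ → ℂ := PP (Finset.Icc 1 X) a₁ with hP1d
  set P2 : ℂ → ℂ := PP (Finset.Icc 1 N) a₂ with hP2d
  have dG : ∀ z : ℂ, |z.im - t| ≤ Y → DifferentiableAt ℂ (fun z => u * GA β z) z := fun z hz =>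
    ((GA_analytic β (hpos z hz)).differentiableAt).const_mul u
  have dP1 : ∀ z : ℂ, DifferentiableAt ℂ P1 z := fun z => PP_diff _ _ _
  have dP2 : ∀ z : ℂ, DifferentiableAt ℂ P2 z := fun z => PP_diff _ _ _
  have dA : ∀ z : ℂ, |z.im - t| ≤ Y → z.re ≠ 0 →
      DifferentiableAt ℂ (fun z => u * GA β z * (MM zs lam z * P2 z)) z := fun z h1 h2 =>
    (dG z h1).mul ((MM_diff zs lam h2).mul (dP2 z))
  have dB : ∀ z : ℂ, |z.im - t| ≤ Y → z.re ≠ 0 →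
      DifferentiableAt ℂ (fun z => u * GA β z * ((MM zs lam z - 1) * P1 z)) z := fun z h1 h2 =>
    (dG z h1).mul (((MM_diff zs lam h2).sub_const 1).mul (dP1 z))
  have dC : ∀ z : ℂ, |z.im - t| ≤ Y → DifferentiableAt ℂ (fun z => u * GA β z * P1 z) z :=
    fun z h1 => (dG z h1).mul (dP1 z)
  have hin : ∀ c v : ℝ, -Y ≤ v → v ≤ Y → |(⟨c, t + v⟩ : ℂ).im - t| ≤ Y := by
    intro c v h1 h2
    simp only [add_sub_cancel_left]
    exact abs_le.mpr ⟨h1, h2⟩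
  have cA : ContinuousOn (fun v : ℝ => u * GA β ⟨-1, t + v⟩ * (MM zs lam ⟨-1, t + v⟩ *
      P2 ⟨-1, t + v⟩)) (Icc (-Y) Y) :=
    line_cont (F := fun z => u * GA β z * (MM zs lam z * P2 z)) fun v h1 h2 =>
      dA _ (hin _ v h1 h2) (by norm_num)
  have cB : ContinuousOn (fun v : ℝ => u * GA β ⟨-1, t + v⟩ * ((MM zs lam ⟨-1, t + v⟩ - 1) *
      P1 ⟨-1, t + v⟩)) (Icc (-Y) Y) :=
    line_cont (F := fun z => u * GA β z * ((MM zs lam z - 1) * P1 z)) fun v h1 h2 =>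
      dB _ (hin _ v h1 h2) (by norm_num)
  have cC : ContinuousOn (fun v : ℝ => u * GA β ⟨-1, t + v⟩ * P1 ⟨-1, t + v⟩) (Icc (-Y) Y) :=
    line_cont (F := fun z => u * GA β z * P1 z) fun v h1 h2 => dC _ (hin _ v h1 h2)
  have hdec : VW (fun z => u * GA β z * (MM zs lam z *
      PP (Finset.Icc 1 N) (fun n => (mob n : ℂ)) z)) b⁻¹ Y t (-1) =
      VW (fun z => u * GA β z * (MM zs lam z * P2 z)) b⁻¹ Y t (-1) +
      (VW (fun z => u * GA β z * ((MM zs lam z - 1) * P1 z)) b⁻¹ Y t (-1) +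
        VW (fun z => u * GA β z * P1 z) b⁻¹ Y t (-1)) := by
    rw [← VW_add (F := fun z => u * GA β z * ((MM zs lam z - 1) * P1 z))
      (G := fun z => u * GA β z * P1 z) hY0 cB cC,
      ← VW_add (F := fun z => u * GA β z * (MM zs lam z * P2 z))
      (G := fun z => u * GA β z * ((MM zs lam z - 1) * P1 z) + u * GA β z * P1 z) hY0 cA
      (cB.add cC)]
    apply VW_congr hY0
    intro v _ _
    rw [hsplit]
    ring
  rw [hdec]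
  -- the first part
  have p1 : ‖VW (fun z => u * GA β z * (MM zs lam z * P2 z)) b⁻¹ Y t (-1)‖ ≤
      (3 * CG * T) * 2 * ∫ v in (-Y)..Y, ‖P2 ⟨-1, t + v⟩‖ * kk b v := by
    apply VW_le_kk (f := fun x => ‖P2 ⟨-1, x⟩‖) (PP_cont _ _ _) hb0 hY0
      (by rw [abs_neg, abs_one]; exact hb) (by positivity)
    intro v h1 h2
    rw [norm_mul, norm_mul, norm_mul, hL.hu, one_mul, mul_assoc]
    have k1 := hGA (-1) (t + v) le_rfl (by norm_num) (by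
      rw [add_sub_cancel_left]
      exact abs_le.mpr ⟨h1, h2⟩)
    have k2 := hMM v (abs_le.mpr ⟨h1, h2⟩)
    have : 0 ≤ 3 * CG * T := by positivity
    exact mul_le_mul k1 (mul_le_mul_of_nonneg_right k2 (norm_nonneg _)) (by positivity) this
  -- the second part
  have p2a : ‖VW (fun z => u * GA β z * ((MM zs lam z - 1) * P1 z)) b⁻¹ Y t (-1)‖ ≤
      ‖VW (fun z => u * GA β z * ((MM zs lam z - 1) * P1 z)) b⁻¹ Y t (-κ)‖ +
        2 * (3 * CG * T * (2 * Q)) * ed b Y := by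
    apply VW_move hb hY0 le_rfl (by linarith) (by linarith) (by linarith) (by positivity)
    · intro z h1 h2 h3
      exact dB z h3 (by linarith)
    · intro c y h1 h2 h3
      rw [norm_mul, norm_mul, norm_mul, hL.hu, one_mul]
      have k1 := hGA c y h1 (by linarith) h3
      have k2 := hMM1 ⟨c, y⟩ h2 h3
      have k3 := hP1 c y (by linarith)
      have k4 : ‖MM zs lam ⟨c, y⟩ - 1‖ ≤ 2 := by linarith
      exact mul_le_mul k1 (mul_le_mul k4 k3 (norm_nonneg _) (by norm_num)) (by positivity)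
        (by positivity)
  have p2b : ‖VW (fun z => u * GA β z * ((MM zs lam z - 1) * P1 z)) b⁻¹ Y t (-κ)‖ ≤
      (8 * CG) * (2 * E) * ∫ v in (-Y)..Y, ‖P1 ⟨-κ, t + v⟩‖ * kk b v := by
    apply VW_le_kk (f := fun x => ‖P1 ⟨-κ, x⟩‖) (PP_cont _ _ _) hb0 hY0
      (by rw [abs_neg, abs_of_pos hκ]; linarith) (by positivity)
    intro v h1 h2
    rw [norm_mul, norm_mul, norm_mul, hL.hu, one_mul, mul_assoc]
    have k1 := hGk (t + v) (by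
      rw [add_sub_cancel_left]
      exact abs_le.mpr ⟨h1, h2⟩)
    have k2 := hMM1 ⟨-κ, t + v⟩ le_rfl (hin _ v h1 h2)
    exact mul_le_mul k1 (mul_le_mul_of_nonneg_right k2 (norm_nonneg _)) (by positivity)
      (by positivity)
  -- the third part
  have p3a : ‖VW (fun z => u * GA β z * P1 z) b⁻¹ Y t (-1)‖ ≤
      ‖VW (fun z => u * GA β z * P1 z) b⁻¹ Y t 0‖ + 2 * (3 * CG * T * Q) * ed b Y := by
    apply VW_move hb hY0 le_rfl (by norm_num) (by norm_num) (by norm_num) (by positivity)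
    · intro z h1 h2 h3
      exact dC z h3
    · intro c y h1 h2 h3
      rw [norm_mul, norm_mul, hL.hu, one_mul]
      exact mul_le_mul (hGA c y h1 (by linarith) h3) (hP1 c y h2) (norm_nonneg _) (by positivity)
  have cD : ContinuousOn (fun v : ℝ => u * GA β ⟨0, t + v⟩ * P1 ⟨0, t + v⟩) (Icc (-Y) Y) :=
    line_cont (F := fun z => u * GA β z * P1 z) fun v h1 h2 => dC _ (hin _ v h1 h2)
  have cP : ContinuousOn (fun v : ℝ => P1 ⟨0, t + v⟩) (Icc (-Y) Y) :=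
    line_cont (F := P1) fun v _ _ => dP1 _
  have cE : ContinuousOn (fun v : ℝ => (u * gg β) * (HH β δ (t + v) * P1 ⟨0, t + v⟩))
      (Icc (-Y) Y) := by
    have hc := (HH_cont β δ).comp (continuous_const.add continuous_id : Continuous fun v : ℝ => t + v)
    exact continuousOn_const.mul (hc.continuousOn.mul cP)
  have p3b : ‖VW (fun z => u * GA β z * P1 z) b⁻¹ Y t 0‖ ≤
      ‖VW (fun z => (u * gg β) * (HH β δ z.im * P1 z)) b⁻¹ Y t 0‖ +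
        (CH * (5 / T)) * Q * (6 * b) := by
    apply VW_close (G := fun z => (u * gg β) * (HH β δ z.im * P1 z)) hb0 hY0
      (by rw [abs_zero]; linarith) (by positivity) cD cE
    intro v h1 h2
    simp only
    have e1 : u * GA β ⟨0, t + v⟩ * P1 ⟨0, t + v⟩ - u * gg β * (HH β δ (t + v) * P1 ⟨0, t + v⟩) =
        u * ((GA β ⟨0, t + v⟩ - gg β * HH β δ (t + v)) * P1 ⟨0, t + v⟩) := by ring
    rw [e1, norm_mul, hL.hu, one_mul, norm_mul]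
    exact mul_le_mul (hGH (t + v) (by
      rw [add_sub_cancel_left]
      exact abs_le.mpr ⟨h1, h2⟩)) (hP1 0 _ le_rfl) (norm_nonneg _) (by positivity)
  rw [VW_smul (F := fun z => HH β δ z.im * P1 z), norm_mul, norm_mul, hL.hu, one_mul] at p3b
  have htri := norm_add_le (VW (fun z => u * GA β z * (MM zs lam z * P2 z)) b⁻¹ Y t (-1))
    (VW (fun z => u * GA β z * ((MM zs lam z - 1) * P1 z)) b⁻¹ Y t (-1) +
        VW (fun z => u * GA β z * P1 z) b⁻¹ Y t (-1))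
  have htri2 := norm_add_le (VW (fun z => u * GA β z * ((MM zs lam z - 1) * P1 z)) b⁻¹ Y t (-1))
    (VW (fun z => u * GA β z * P1 z) b⁻¹ Y t (-1))
  linarith

end Pool.Agent.T9h53.AH
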