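import Mathlib

/-! # The exponential of the curved half integer lattice -/

set_option autoImplicit false

open Complex Filter Topology Set

namespace Pool.Agent.T9h53.AH

/-- `exp(-2 z log(-iz) - 4 π β z)` -/
noncomputable def Xi (β : ℝ) (z : ℂ) : ℂ :=
  cexp (-(2 * z * Complex.log (-(I * z))) - ((4 * Real.pi * β : ℝ) : ℂ) * z)

/-- the normalised height -/
noncomputable def xb (β t : ℝ) : ℝ := t * Real.log t / (2 * Real.pi) + β * t

lemma negI (z : ℂ) : -(I * z) = ⟨z.im, -z.re⟩ := by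
  apply Complex.ext <;> simp

lemma negI_slit {z : ℂ} (hz : 0 < z.im) : -(I * z) ∈ slitPlane := by
  rw [negI]
  exact Or.inl hz

lemma Xi_ne (β : ℝ) (z : ℂ) : Xi β z ≠ 0 := Complex.exp_ne_zero _

lemma Xi_analytic (β : ℝ) {z : ℂ} (hz : 0 < z.im) : AnalyticAt ℂ (Xi β) z := by
  unfold Xi
  apply AnalyticAt.cexp
  apply AnalyticAt.sub
  · apply AnalyticAt.neg
    apply AnalyticAt.mul
    · exact (analyticAt_const).mul analyticAt_id
    · apply AnalyticAt.clog
      · exact (analyticAt_const.mul analyticAt_id).neg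
      · exact negI_slit hz
  · exact analyticAt_const.mul analyticAt_id

lemma Xi_conj (β : ℝ) {z : ℂ} (hz : 0 < z.im) :
    (starRingEnd ℂ) (Xi β (-(starRingEnd ℂ) z)) = (Xi β z)⁻¹ := by
  unfold Xi
  rw [← Complex.exp_conj, ← Complex.exp_neg]
  congr 1
  have h1 : (starRingEnd ℂ) (Complex.log (-(I * -(starRingEnd ℂ) z))) =
      Complex.log (-(I * z)) := by
    rw [← Complex.log_conj]
    · congr 1
      simp
    · have : -(I * -(starRingEnd ℂ) z) ∈ slitPlane := negI_slit (by simpa using hz)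
      exact (mem_slitPlane_iff_arg.mp this).1
  simp only [map_sub, map_neg, map_mul, Complex.conj_conj, Complex.conj_ofReal, map_ofNat, h1]
  ring

lemma Xi_axis (β : ℝ) {y : ℝ} (hy : 0 < y) :
    Xi β (⟨0, y⟩ : ℂ) = cexp (((-(4 * Real.pi * xb β y) : ℝ) : ℂ) * I) := by
  unfold Xi xb
  rw [negI]
  simp only [neg_zero]
  have h1 : (⟨y, 0⟩ : ℂ) = ((y : ℝ) : ℂ) := rfl
  have h2 : (⟨0, y⟩ : ℂ) = (y : ℂ) * I := by apply Complex.ext <;> simp
  rw [h1, h2, ← Complex.ofReal_log hy.le]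
  congr 1
  have hpi : (Real.pi : ℂ) ≠ 0 := by exact_mod_cast Real.pi_ne_zero
  push_cast
  field_simp
  ring

lemma re_mul_log {σ y : ℝ} (hy : 0 < y) :
    ((⟨σ, y⟩ : ℂ) * Complex.log (-(I * ⟨σ, y⟩))).re =
      σ * Real.log ‖(⟨y, -σ⟩ : ℂ)‖ + y * Real.arctan (σ / y) := by
  rw [negI]
  simp only
  rw [Complex.mul_re, Complex.log_re, Complex.log_im]
  simp only
  rw [Complex.arg_of_re_nonneg (by exact hy.le)]
  have h1 : Real.arcsin ((-σ) / ‖(⟨y, -σ⟩ : ℂ)‖) = -Real.arctan (σ / y) := by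
    rw [← Real.arctan_neg, Real.arctan_eq_arcsin]
    congr 1
    have e1 : ‖(⟨y, -σ⟩ : ℂ)‖ = y * Real.sqrt (1 + (-(σ / y)) ^ 2) := by
      rw [Complex.norm_def, Complex.normSq_mk]
      have : y * y + -σ * -σ = y ^ 2 * (1 + (-(σ / y)) ^ 2) := by
        field_simp
      rw [this, Real.sqrt_mul (by positivity), Real.sqrt_sq hy.le]
    rw [e1, neg_div, neg_div, ← div_div, ← neg_div, neg_div]
  rw [h1]
  ring

lemma arctan_le_self {x : ℝ} (h : 0 ≤ x) : Real.arctan x ≤ x := by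
  have h1 := Real.le_tan (Real.arctan_nonneg.mpr h) (Real.arctan_lt_pi_div_two x)
  rwa [Real.tan_arctan] at h1

lemma arctan_abs_le (x : ℝ) : |Real.arctan x| ≤ |x| := by
  rcases le_total 0 x with h | h
  · rw [abs_of_nonneg h, abs_of_nonneg (Real.arctan_nonneg.mpr h)]
    exact arctan_le_self h
  · rw [← abs_neg, ← Real.arctan_neg, ← abs_neg x, abs_of_nonneg (by linarith : 0 ≤ -x),
      abs_of_nonneg (Real.arctan_nonneg.mpr (by linarith))]
    exact arctan_le_self (by linarith)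

/-- the size -/
theorem Xi_size (β : ℝ) : ∃ C : ℝ, 0 ≤ C ∧ ∀ σ y : ℝ, 0 < y → |σ| ≤ y →
    |Real.log ‖Xi β ⟨σ, y⟩‖ + 2 * σ * Real.log y| ≤ C * |σ| := by
  refine ⟨4 + 4 * Real.pi * |β|, by positivity, fun σ y hy hσ => ?_⟩
  unfold Xi
  rw [Complex.norm_exp, Real.log_exp, Complex.sub_re, Complex.neg_re,
    Complex.re_ofReal_mul]
  have h0 : (2 * (⟨σ, y⟩ : ℂ) * Complex.log (-(I * ⟨σ, y⟩))).re =
      2 * ((⟨σ, y⟩ : ℂ) * Complex.log (-(I * ⟨σ, y⟩))).re := by
    rw [mul_assoc, Complex.mul_re]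
    simp
  rw [h0, re_mul_log hy]
  set L := Real.log ‖(⟨y, -σ⟩ : ℂ)‖ with hL
  have hn1 : y ≤ ‖(⟨y, -σ⟩ : ℂ)‖ := by
    have := Complex.abs_re_le_norm (⟨y, -σ⟩ : ℂ)
    simp only at this
    exact (le_abs_self y).trans this
  have hn2 : ‖(⟨y, -σ⟩ : ℂ)‖ ≤ 2 * y := by
    have := Complex.norm_le_abs_re_add_abs_im (⟨y, -σ⟩ : ℂ)
    simp only [abs_neg] at this
    rw [abs_of_pos hy] at this
    linarith
  have hL1 : Real.log y ≤ L := Real.log_le_log hy hn1
  have hL2 : L ≤ Real.log y + 1 := by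
    have h1 : L ≤ Real.log (2 * y) := Real.log_le_log (by linarith) hn2
    rw [Real.log_mul (by norm_num) hy.ne'] at h1
    have := Real.log_two_lt_d9
    linarith
  have e1 : -(2 * (σ * L + y * Real.arctan (σ / y))) - 4 * Real.pi * β * σ +
      2 * σ * Real.log y = -(2 * (σ * (L - Real.log y))) - 2 * (y * Real.arctan (σ / y)) -
      4 * Real.pi * β * σ := by ring
  rw [e1]
  have b1 : |2 * (σ * (L - Real.log y))| ≤ 2 * |σ| := by
    rw [abs_mul, abs_mul, abs_of_pos (by norm_num : (0 : ℝ) < 2), abs_of_nonneg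
      (by linarith : 0 ≤ L - Real.log y)]
    nlinarith [abs_nonneg σ]
  have b2 : |2 * (y * Real.arctan (σ / y))| ≤ 2 * |σ| := by
    rw [abs_mul, abs_mul, abs_of_pos (by norm_num : (0 : ℝ) < 2), abs_of_pos hy]
    have := arctan_abs_le (σ / y)
    rw [abs_div, abs_of_pos hy, le_div_iff₀ hy] at this
    linarith
  have b3 : |4 * Real.pi * β * σ| ≤ 4 * Real.pi * |β| * |σ| := by
    rw [abs_mul, abs_mul, abs_mul, abs_of_pos Real.pi_pos, abs_of_pos (by norm_num : (0 : ℝ) < 4)]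
  calc _ ≤ |-(2 * (σ * (L - Real.log y))) - 2 * (y * Real.arctan (σ / y))| +
        |4 * Real.pi * β * σ| := abs_sub _ _
    _ ≤ |-(2 * (σ * (L - Real.log y)))| + |2 * (y * Real.arctan (σ / y))| +
        |4 * Real.pi * β * σ| := by
        gcongr
        exact abs_sub _ _
    _ ≤ 2 * |σ| + 2 * |σ| + 4 * Real.pi * |β| * |σ| := by
        rw [abs_neg]
        gcongr
    _ = _ := by ring

end Pool.Agent.T9h53.AH
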