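import Pool.Agent.T9h53.AH.Quo
import Pool.Agent.T9h53.AH.Lat
import Pool.Agent.H382R2.Final0

/-! # From the spacings to the lattice -/

set_option autoImplicit false

open Complex Filter Topology Set

namespace Pool.Agent.T9h53.AH

open Pool.Agent.T9h53.SZ Pool.Agent.T9h53.EQ

/-- the spacings of the ordinates in the window `[t - W, t + W]` are close to half-integers -/
def NearH (β W δ t : ℝ) : Prop :=
  ∀ j : ℕ, 1 ≤ j → t - W ≤ _root_.SG.ord j → _root_.SG.ord (j + 1) ≤ t + W →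
    ∃ k : ℕ, 1 ≤ k ∧ |xb β (_root_.SG.ord (j + 1)) - xb β (_root_.SG.ord j) - k / 2| < δ

lemma no_jump {β W δ t : ℝ} (hδ : δ ≤ 1 / 4) (h : NearH β W δ t) {y : ℝ} (hy0 : 0 < y)
    (hy : |y - t| ≤ W) (hj : ∀ t', t' < y → _root_.SG.NZ t' + 2 ≤ _root_.SG.NZ y) : False := by
  obtain ⟨n, hn, h1, h2⟩ := _root_.SG.consecutive_of_jump hy0 hj
  have h3 := _root_.SG.ord_mono hn (Nat.le_succ n)
  obtain ⟨a1, a2⟩ := abs_le.mp hy
  obtain ⟨k, hk1, hk2⟩ := h n hn (by linarith) (by linarith)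
  have e1 : _root_.SG.ord (n + 1) = _root_.SG.ord n := le_antisymm (by linarith) h3
  rw [e1, sub_self, zero_sub, abs_neg] at hk2
  have hk1' : (1 : ℝ) ≤ k := by exact_mod_cast hk1
  rw [abs_of_pos (by positivity)] at hk2
  linarith

lemma zero_ord {s : ℂ} (h : riemannZeta s = 0) (h1 : 0 < s.re) (h2 : s.re < 1) (h3 : 0 < s.im) :
    1 ≤ _root_.SG.NZ s.im ∧ _root_.SG.ord (_root_.SG.NZ s.im) = s.im := by
  have hp := _root_.SG.zmult_pos h3 h
  have hj := _root_.SG.jump_one h h1 h2 h3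
  have h4 : 1 ≤ _root_.SG.NZ s.im := by
    have := hj 0 h3
    omega
  refine ⟨h4, le_antisymm ((_root_.SG.ord_le_iff h4 _).mpr le_rfl) ?_⟩
  by_contra hc
  push Not at hc
  have h5 := hj _ hc
  have h6 := _root_.SG.le_NZ_ord h4
  omega

lemma zero_simple {β W δ t : ℝ} (hδ : δ ≤ 1 / 4) (h : NearH β W δ t) {s : ℂ}
    (h0 : riemannZeta s = 0) (h1 : 0 < s.re) (h2 : s.re < 1) (h3 : 1 ≤ s.im) (hst : |s.im - t| ≤ W) :
    s.re = 1 / 2 ∧ _root_.SG.zmult s ≤ 1 := by
  have h30 : 0 < s.im := by linarith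
  constructor
  · by_contra hc
    have h4 := _root_.SG.zero_reflect h0 h1 h2 h3
    set s' := 1 - (starRingEnd ℂ) s with hs'
    have e1 : s'.re = 1 - s.re := by simp [hs']
    have e2 : s'.im = s.im := by simp [hs']
    have hne : s ≠ s' := by
      intro h5
      have := congrArg Complex.re h5
      rw [e1] at this
      apply hc
      linarith
    exact no_jump hδ h h30 hst fun t' ht' =>
      _root_.SG.jump_two h0 h1 h2 h30 h4 (by rw [e1]; linarith) (by rw [e1]; linarith) e2 hne t' ht'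
  · by_contra hc
    push Not at hc
    refine no_jump hδ h h30 hst fun t' ht' => ?_
    have := _root_.SG.jump_one h0 h1 h2 h30 t' ht'
    omega

lemma order_le_one {z₀ : ℂ} (hz : 0 < z₀.im) (hd : deriv riemannZeta (1 / 2 + z₀) ≠ 0) :
    analyticOrderAt (fun w => riemannZeta (1 / 2 + w)) z₀ ≤ 1 := by
  by_contra hc
  push Not at hc
  have han := zeta_an hz
  have h2 : ((2 : ℕ) : ℕ∞) ≤ analyticOrderAt (fun w => riemannZeta (1 / 2 + w)) z₀ := by
    have := Order.add_one_le_of_lt hc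
    refine le_trans (le_of_eq ?_) this
    norm_num
  obtain ⟨g, hg, hge⟩ := (natCast_le_analyticOrderAt han).mp h2
  have hne : (1 / 2 + z₀ : ℂ) ≠ 1 := by
    intro h
    have := congrArg Complex.im h
    simp at this
    linarith
  have hd1 : HasDerivAt (fun w => riemannZeta (1 / 2 + w)) (deriv riemannZeta (1 / 2 + z₀)) z₀ := by
    have h3 : HasDerivAt riemannZeta (deriv riemannZeta (1 / 2 + z₀)) (1 / 2 + z₀) :=
      (differentiableAt_riemannZeta hne).hasDerivAt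
    have h4 : HasDerivAt (fun w : ℂ => 1 / 2 + w) 1 z₀ := (hasDerivAt_id z₀).const_add _
    have h5 := HasDerivAt.comp z₀ h3 h4
    rw [mul_one] at h5
    exact h5
  have hd2 : HasDerivAt (fun w => (w - z₀) ^ 2 • g w) 0 z₀ := by
    have h3 : HasDerivAt (fun w : ℂ => w - z₀) 1 z₀ := (hasDerivAt_id z₀).sub_const z₀
    have h4 : HasDerivAt (fun w : ℂ => (w - z₀) * ((w - z₀) * g w))
        (1 * ((z₀ - z₀) * g z₀) + (z₀ - z₀) * (1 * g z₀ + (z₀ - z₀) * deriv g z₀)) z₀ :=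
      h3.mul (h3.mul hg.differentiableAt.hasDerivAt)
    rw [sub_self, zero_mul, mul_zero, zero_mul, add_zero] at h4
    refine h4.congr_of_eventuallyEq (Filter.Eventually.of_forall fun w => ?_)
    simp only [smul_eq_mul]
    ring
  have hd3 := hd2.congr_of_eventuallyEq hge
  exact hd (hd1.unique hd3)

theorem exists_LatD (β : ℝ) : ∃ T₀ : ℝ, 10 ≤ T₀ ∧ ∀ T : ℝ, T₀ ≤ T → ∀ W : ℝ, 1 ≤ W → W ≤ T / 4 →
    ∀ t : ℝ, T ≤ t → t ≤ 2 * T → ∀ δ : ℝ, 0 ≤ δ → δ ≤ 1 / 4 → 104 * W * δ ≤ 1 →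
    NearH β W δ t → ∃ (zs : Finset ℝ) (lam : ℝ → ℝ) (u : ℂ), LatD β W (104 * W * δ) t zs lam u ∧
      (zs.card : ℝ) ≤ 8 * W * Real.log T + 1 ∧ ∀ z : ℂ, z.re ≤ -(1 / Real.log T) →
      ∑ y ∈ zs, 1 / ‖z - (⟨0, lam y⟩ : ℂ)‖ ≤
        16 * Real.log T * (1 + Real.log (8 * W * Real.log T + 1)) := by
  classical
  have hexp10 : (0 : ℝ) < Real.exp (2 + 16 * |β|) := Real.exp_pos _
  refine ⟨Real.exp (2 + 16 * |β|) + 10, by linarith, ?_⟩
  intro T hT W hW1 hWT t ht1 ht2 δ hδ0 hδ hδW hN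
  have hT10 : 10 ≤ T := by linarith
  have hT0 : 0 < T := by linarith
  set ℓ := Real.log T with hℓ
  have hℓβ : 2 + 16 * |β| ≤ ℓ := by
    rw [hℓ, Real.le_log_iff_exp_le hT0]
    linarith
  have hβ0 := abs_nonneg β
  have hβ1 := neg_abs_le β
  have hβ2 := le_abs_self β
  have hℓ0 : 0 < ℓ := by linarith
  have hpi1 := Real.pi_gt_three
  have hpi2 := Real.pi_lt_d2
  have hs : ∀ p q, t - W - 1 ≤ p → p ≤ q → q ≤ t + W + 1 →
      ℓ / 13 * (q - p) ≤ xb β q - xb β p ∧ xb β q - xb β p ≤ ℓ * (q - p) := by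
    intro p q hp hpq hq
    have hp0 : T / 2 ≤ p := by linarith
    have hq0 : q ≤ 3 * T := by linarith
    have hqp : 0 ≤ q - p := by linarith
    obtain ⟨s1, s2⟩ := xb_slope β (by linarith : 0 < p) hpq
    have hl1 : ℓ - Real.log 2 ≤ Real.log p := by
      rw [hℓ, ← Real.log_div hT0.ne' (by norm_num)]
      exact Real.log_le_log (by positivity) hp0
    have hl2 : Real.log q ≤ ℓ + Real.log 3 := by
      rw [hℓ, ← Real.log_mul hT0.ne' (by norm_num), mul_comm T]
      exact Real.log_le_log (by linarith) hq0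
    have hlog2 := Real.log_two_lt_d9
    have hlog3 : Real.log 3 ≤ 2 := by
      have := Real.log_le_sub_one_of_pos (show (0 : ℝ) < 3 by norm_num)
      linarith
    constructor
    · refine le_trans (mul_le_mul_of_nonneg_right ?_ hqp) s1
      have h1 : ℓ / 7 ≤ (Real.log p + 1) / (2 * Real.pi) := by
        rw [div_le_div_iff₀ (by norm_num) (by positivity)]
        nlinarith
      linarith
    · refine s2.trans (mul_le_mul_of_nonneg_right ?_ hqp)
      have h1 : (Real.log q + 1) / (2 * Real.pi) ≤ (ℓ + 3) / 6 := by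
        rw [div_le_div_iff₀ (by positivity) (by norm_num)]
        nlinarith
      linarith
  have hlogpos : 0 ≤ Real.log (8 * W * ℓ + 1) := Real.log_nonneg (by
    have : 0 ≤ 8 * W * ℓ := by positivity
    linarith)
  by_cases hJ : ∃ j : ℕ, 1 ≤ j ∧ t - W ≤ _root_.SG.ord j ∧ _root_.SG.ord j ≤ t + W
  swap
  · refine ⟨∅, id, 1, ⟨norm_one, ?_, by simp, by simp, by simp, by simp, by simp⟩, ?_, ?_⟩
    · intro z hz h0
      exfalso
      apply hJ
      have him : (1 / 2 + z).im = z.im := by simp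
      have hzW := abs_lt.mp hz
      have hpos : 0 < (1 / 2 + z).im := by
        rw [him]
        linarith
      obtain ⟨h1, h2⟩ := zHU.strip h0 hpos.ne'
      obtain ⟨h3, h4⟩ := zero_ord h0 h1 h2 hpos
      rw [him] at h3 h4
      exact ⟨_, h3, by rw [h4]; linarith, by rw [h4]; linarith⟩
    · have : 0 ≤ 8 * W * ℓ := by positivity
      simp
      linarith
    · intro z _
      rw [Finset.sum_empty]
      positivity
  -- the indices
  set j₀ := Nat.find hJ with hj₀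
  obtain ⟨hj1, hj2, hj3⟩ := Nat.find_spec hJ
  rw [← hj₀] at hj1 hj2 hj3
  set n₀ := _root_.SG.NZ (t + W) with hn₀
  set o : ℕ → ℝ := _root_.SG.ord with ho
  have hjn : j₀ ≤ n₀ := (_root_.SG.ord_le_iff hj1 _).mp hj3
  have hwin : ∀ j, j₀ ≤ j → j ≤ n₀ → t - W ≤ o j ∧ o j ≤ t + W := by
    intro j h1 h2
    refine ⟨hj2.trans (_root_.SG.ord_mono hj1 h1), ?_⟩
    exact (_root_.SG.ord_le_iff (by omega) _).mpr h2
  have hmem : ∀ j, 1 ≤ j → t - W ≤ o j → o j ≤ t + W → j₀ ≤ j ∧ j ≤ n₀ := by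
    intro j h1 h2 h3
    exact ⟨Nat.find_min' hJ ⟨h1, h2, h3⟩, (_root_.SG.ord_le_iff h1 _).mp h3⟩
  have hmono : ∀ j, j₀ ≤ j → j < n₀ → o j ≤ o (j + 1) := fun j h1 _ =>
    _root_.SG.ord_mono (by omega) (Nat.le_succ j)
  have hk : ∀ j, j₀ ≤ j → j < n₀ → ∃ k : ℕ, 1 ≤ k ∧ |xb β (o (j + 1)) - xb β (o j) - k / 2| < δ :=
    fun j h1 h2 => hN j (by omega) (hwin j h1 h2.le).1 (hwin (j + 1) (by omega) (by omega)).2
  have hgap := lat_gap hℓ0 hδ hs hmono hwin hk
  have hNn : (n₀ : ℝ) - j₀ ≤ 8 * W * ℓ := by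
    have h1 := hgap j₀ n₀ le_rfl hjn le_rfl
    have w1 := hwin j₀ le_rfl hjn
    have w2 := hwin n₀ hjn le_rfl
    rw [div_le_iff₀ (by positivity)] at h1
    have h2 : (o n₀ - o j₀) * (4 * ℓ) ≤ (2 * W) * (4 * ℓ) := by
      apply mul_le_mul_of_nonneg_right _ (by positivity)
      linarith
    linarith
  have e104 : 13 * (8 * W * ℓ) * δ / ℓ = 104 * W * δ := by
    field_simp
    ring
  obtain ⟨lm, hlm1, hlm2, hlm3⟩ := lat_data hℓ0 hδ0 hs hwin hk (N := 8 * W * ℓ) (by positivity)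
    hNn (by rw [e104]; exact hδW)
  rw [e104] at hlm1
  have hoinj : Set.InjOn o (Set.Icc j₀ n₀) := by
    intro i hi j hj hij
    have key : ∀ i j : ℕ, i ∈ Set.Icc j₀ n₀ → j ∈ Set.Icc j₀ n₀ → o i = o j → i ≤ j → i = j := by
      intro i j hi hj hij hle
      have h1 := hgap i j hi.1 hle hj.2
      rw [hij, sub_self, div_le_iff₀ (by positivity), zero_mul] at h1
      have h2 : (j : ℝ) ≤ i := by linarith
      have h3 : j ≤ i := by exact_mod_cast h2
      omega
    rcases le_total i j with h | h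
    · exact key i j hi hj hij h
    · exact (key j i hj hi hij.symm h).symm
  have hlinj : Set.InjOn lm (Set.Icc j₀ n₀) := by
    intro i hi j hj hij
    have key : ∀ i j : ℕ, i ∈ Set.Icc j₀ n₀ → j ∈ Set.Icc j₀ n₀ → lm i = lm j → i ≤ j → i = j := by
      intro i j hi hj hij hle
      have h1 := hlm3 i j hi.1 hle hj.2
      rw [hij, sub_self, div_le_iff₀ (by positivity), zero_mul] at h1
      have h2 : (j : ℝ) ≤ i := by linarith
      have h3 : j ≤ i := by exact_mod_cast h2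
      omega
    rcases le_total i j with h | h
    · exact key i j hi hj hij h
    · exact (key j i hj hi hij.symm h).symm
  set g : ℝ → ℕ := Function.invFunOn o (Set.Icc j₀ n₀) with hg
  have hgo : ∀ j, j ∈ Set.Icc j₀ n₀ → g (o j) = j := fun j hj => hoinj.leftInvOn_invFunOn hj
  set zs : Finset ℝ := (Finset.Icc j₀ n₀).image o with hzs
  have hzsmem : ∀ y ∈ zs, ∃ j ∈ Set.Icc j₀ n₀, o j = y := by
    intro y hy
    obtain ⟨j, hj, hjy⟩ := Finset.mem_image.mp hy
    exact ⟨j, Finset.mem_Icc.mp hj, hjy⟩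
  have hcardle : ((n₀ - j₀ + 1 : ℕ) : ℝ) ≤ 8 * W * ℓ + 1 := by
    push_cast [Nat.cast_sub hjn]
    linarith
  refine ⟨zs, fun y => lm (g y), cexp (((4 * Real.pi * xb β (o j₀) : ℝ) : ℂ) * I), ?_, ?_, ?_⟩
  · refine ⟨Complex.norm_exp_ofReal_mul_I _, ?_, ?_, ?_, ?_, ?_, ?_⟩
    · intro z hz h0
      have him : (1 / 2 + z).im = z.im := by simp
      have hre : (1 / 2 + z).re = 1 / 2 + z.re := by simp
      have hzW := abs_lt.mp hz
      have hpos : 1 ≤ (1 / 2 + z).im := by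
        rw [him]
        linarith
      have hpos0 : 0 < (1 / 2 + z).im := by linarith
      obtain ⟨h1, h2⟩ := zHU.strip h0 hpos0.ne'
      obtain ⟨h3, h4⟩ := zero_ord h0 h1 h2 hpos0
      obtain ⟨h5, -⟩ := zero_simple hδ hN h0 h1 h2 hpos (by rw [him]; exact hz.le)
      refine ⟨by rw [hre] at h5; linarith, ?_⟩
      rw [him] at h3 h4
      rw [hzs, Finset.mem_image]
      refine ⟨_root_.SG.NZ z.im, ?_, h4⟩
      have h7 : o (_root_.SG.NZ z.im) = z.im := h4
      have h6 := hmem _ h3 (by rw [h7]; linarith) (by rw [h7]; linarith)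
      exact Finset.mem_Icc.mpr h6
    · intro y hy
      obtain ⟨j, hj, rfl⟩ := hzsmem y hy
      have w := hwin j hj.1 hj.2
      have hoy : 0 < o j := by linarith
      by_cases h0 : riemannZeta (1 / 2 + (⟨0, o j⟩ : ℂ)) = 0
      · have him : (1 / 2 + (⟨0, o j⟩ : ℂ)).im = o j := by simp
        have hpos : 1 ≤ (1 / 2 + (⟨0, o j⟩ : ℂ)).im := by
          rw [him]
          linarith
        have hpos0 : 0 < (1 / 2 + (⟨0, o j⟩ : ℂ)).im := by linarith
        obtain ⟨h1, h2⟩ := zHU.strip h0 hpos0.ne'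
        obtain ⟨-, h5⟩ := zero_simple hδ hN h0 h1 h2 hpos (by
          rw [him]
          exact abs_le.mpr ⟨by linarith, by linarith⟩)
        apply order_le_one (by simpa using hoy)
        intro hd
        have := _root_.SG.zmult_two hpos0 h0 hd
        omega
      · have h1 : analyticOrderAt (fun w => riemannZeta (1 / 2 + w)) (⟨0, o j⟩ : ℂ) = 0 := by
          rw [(zeta_an (by simpa using hoy)).analyticOrderAt_eq_zero]
          exact h0
        rw [h1]
        exact zero_le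
    · intro y hy
      obtain ⟨j, hj, rfl⟩ := hzsmem y hy
      rw [hgo j hj]
      exact hlm1 j hj.1 hj.2
    · intro y hy y' hy' hyy
      obtain ⟨j, hj, rfl⟩ := hzsmem y hy
      obtain ⟨j', hj', rfl⟩ := hzsmem y' hy'
      simp only at hyy
      rw [hgo j hj, hgo j' hj'] at hyy
      rw [hlinj hj hj' hyy]
    · intro y hy
      obtain ⟨j, hj, rfl⟩ := hzsmem y hy
      rw [hgo j hj]
      have w := hwin j hj.1 hj.2
      have hn := abs_le.mp (hlm1 j hj.1 hj.2)
      have hpos : 0 < lm j := by linarith [hn.1]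
      obtain ⟨m, hm⟩ := hlm2 j hj.1 hj.2
      rw [Xi_axis β hpos, hm, ← Complex.exp_add, Complex.exp_eq_one_iff]
      refine ⟨-(m : ℤ), ?_⟩
      push_cast
      ring
    · intro y hy
      obtain ⟨j, hj, rfl⟩ := hzsmem y hy
      have w := hwin j hj.1 hj.2
      exact abs_le.mpr ⟨by linarith, by linarith⟩
  · have h1 : zs.card ≤ n₀ - j₀ + 1 := by
      refine Finset.card_image_le.trans ?_
      rw [Nat.card_Icc]
      omega
    have h2 : (zs.card : ℝ) ≤ ((n₀ - j₀ + 1 : ℕ) : ℝ) := by exact_mod_cast h1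
    exact h2.trans hcardle
  · intro z hz
    rw [hzs, Finset.sum_image (fun a ha b hb hab => hoinj (Finset.mem_Icc.mp ha)
      (Finset.mem_Icc.mp hb) hab)]
    have h1 : ∑ j ∈ Finset.Icc j₀ n₀, 1 / ‖z - (⟨0, lm (g (o j))⟩ : ℂ)‖ =
        ∑ j ∈ Finset.Icc j₀ n₀, 1 / ‖z - (⟨0, lm j⟩ : ℂ)‖ := by
      apply Finset.sum_congr rfl
      intro j hj
      rw [hgo j (Finset.mem_Icc.mp hj)]
    rw [h1]
    refine (sep_sum hℓ0 hlm3 hjn hz).trans ?_
    have h2 : Real.log ((n₀ - j₀ + 1 : ℕ) : ℝ) ≤ Real.log (8 * W * ℓ + 1) :=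
      Real.log_le_log (by positivity) hcardle
    gcongr

end Pool.Agent.T9h53.AH
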