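import Pool.Agent.T9h53.AP.DirU
import Pool.Agent.T9h53.AH.Xi

/-! # The zeta function and the factor in the functional equation of the quotient -/

set_option autoImplicit false

open Complex Filter Topology Set

namespace Pool.Agent.T9h53.AH

open Pool.Agent.T9h53.SZ Pool.Agent.T9h53.SG Pool.Agent.T9h53.AP
open Pool.Agent.T9h27.D

/-- the trivial character -/
noncomputable abbrev ch1 : DirichletCharacter ℂ 1 := 1

/-- a number of modulus one -/
noncomputable def wz : ℂ := DirichletCharacter.rootNumber ch1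

lemma ch1_prim : ch1.IsPrimitive := by
  have h := ch1.conductor_dvd_level
  exact Nat.dvd_one.mp h

lemma par_ch1 : par ch1 = 0 := by
  unfold par
  rw [if_pos]
  unfold DirichletCharacter.Even
  have : (-1 : ZMod 1) = 1 := Subsingleton.elim _ _
  rw [this, map_one]

lemma wz_norm : ‖wz‖ = 1 := root_norm ch1_prim

/-- the data of the zeta function -/
theorem zHU : HU (ι := Unit) NId (psi ch1) riemannZeta ((1 : ℕ) : ℝ) (fun _ => 0) wz := by
  have h := hu_dir ch1_prim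
  have e1 : DirichletCharacter.LFunction ch1 = riemannZeta :=
    DirichletCharacter.LFunction_modOne_eq
  rw [e1, par_ch1] at h
  exact h

/-- the factor in the functional equation of `ζ(1/2 + z)` -/
noncomputable def XZ (z : ℂ) : ℂ := XF (ι := Unit) ((1 : ℕ) : ℝ) (fun _ => 0) wz (1 / 2 + z)

lemma one_pos' : (0 : ℝ) < ((1 : ℕ) : ℝ) := by norm_num

lemma XZ_ne {z : ℂ} (hz : z.im ≠ 0) : XZ z ≠ 0 :=
  XF_ne_zero one_pos' _ wz_norm (by simpa using hz)

lemma XZ_analytic {z : ℂ} (hz : z.im ≠ 0) : AnalyticAt ℂ XZ z :=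
  AnalyticAt.fun_comp (f := fun z : ℂ => 1 / 2 + z)
    (XF_analytic one_pos' (fun _ : Unit => 0) wz (by simpa using hz)) (by fun_prop)

lemma GR_one (s : ℂ) : GR (ι := Unit) ((1 : ℕ) : ℝ) (fun _ => 0) s = Gammaℝ s := by
  show (((((1 : ℕ) : ℝ) : ℂ)) ^ (s / 2) * ∏ _i : Unit, Gammaℝ (s + ((0 : ℕ) : ℂ))) = _
  simp

lemma XZ_eq (z : ℂ) : XZ z = wz * Gammaℝ (1 / 2 - z) / Gammaℝ (1 / 2 + z) := by
  unfold XZ XF
  rw [GR_one, GR_one]
  congr 3
  ring

lemma zeta_fe {z : ℂ} (hz : z.im ≠ 0) :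
    riemannZeta (1 / 2 + z) = XZ z * (starRingEnd ℂ) (riemannZeta (1 / 2 - (starRingEnd ℂ) z)) := by
  have h := zHU.fe (1 / 2 + z) (by simpa using hz)
  rw [h]
  unfold XZ
  congr 2
  simp only [map_add, map_div₀, map_one, map_ofNat]
  congr 1
  ring

/-- the factor in the functional equation of the quotient, up to a unimodular constant -/
noncomputable def GA (β : ℝ) (z : ℂ) : ℂ := -(Xi β z) / XZ z

lemma GA_analytic (β : ℝ) {z : ℂ} (hz : 0 < z.im) : AnalyticAt ℂ (GA β) z :=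
  (Xi_analytic β hz).neg.div (XZ_analytic hz.ne') (XZ_ne hz.ne')

/-- the size of the factor for bounded real part -/
theorem GA_size (β : ℝ) : ∃ C y₀ : ℝ, 0 < C ∧ 4 ≤ y₀ ∧ ∀ y : ℝ, y₀ ≤ y → ∀ σ : ℝ, |σ| ≤ 2 →
    ‖GA β ⟨σ, y⟩‖ ≤ C * y ^ (-σ) := by
  obtain ⟨C1, hC1, h1⟩ := Xi_size β
  obtain ⟨C2, hC2, h2⟩ := XF_size (ι := Unit) one_pos' (fun _ => 0) (by simp) wz_norm
  refine ⟨Real.exp (2 * C1 + C2 + 2 * |Real.log (2 * Real.pi)|), 8, Real.exp_pos _, by norm_num,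
    fun y hy σ hσ => ?_⟩
  have hy0 : 0 < y := by linarith
  have k1 := (abs_le.mp (h1 σ y hy0 (by linarith))).2
  have k2 := (abs_le.mp (h2 y 2 (by linarith) le_rfl (by nlinarith) σ hσ)).1
  have hX : XZ ⟨σ, y⟩ = XF (ι := Unit) ((1 : ℕ) : ℝ) (fun _ => 0) wz (⟨1 / 2 + σ, y⟩ : ℂ) := by
    unfold XZ
    congr 1
    apply Complex.ext <;> simp
  have hne : XZ ⟨σ, y⟩ ≠ 0 := XZ_ne (by simpa using hy0.ne')
  have hpos : 0 < ‖GA β ⟨σ, y⟩‖ := by
    unfold GA
    rw [norm_div, norm_neg]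
    exact div_pos (norm_pos_iff.mpr (Xi_ne _ _)) (norm_pos_iff.mpr hne)
  rw [← Real.exp_log hpos]
  have e1 : Real.log ‖GA β ⟨σ, y⟩‖ = Real.log ‖Xi β ⟨σ, y⟩‖ - Real.log ‖XZ ⟨σ, y⟩‖ := by
    unfold GA
    rw [norm_div, norm_neg, Real.log_div (norm_ne_zero_iff.mpr (Xi_ne _ _))
      (norm_ne_zero_iff.mpr hne)]
  have e2 : y ^ (-σ) = Real.exp (-(σ * Real.log y)) := by
    rw [Real.rpow_def_of_pos hy0]
    congr 1
    ring
  rw [e1, e2, ← Real.exp_add]
  apply Real.exp_le_exp.mpr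
  have e3 : lc Unit ((1 : ℕ) : ℝ) y = Real.log y - Real.log (2 * Real.pi) := by
    unfold lc
    rw [Real.log_div hy0.ne' (by positivity)]
    simp
  rw [hX]
  rw [e3] at k2
  have k3 : |σ * Real.log (2 * Real.pi)| ≤ 2 * |Real.log (2 * Real.pi)| := by
    rw [abs_mul]
    gcongr
  have k4 := neg_abs_le (σ * Real.log (2 * Real.pi))
  have k5 := le_abs_self (σ * Real.log (2 * Real.pi))
  have k6 : C1 * |σ| ≤ 2 * C1 := by nlinarith
  nlinarith

end Pool.Agent.T9h53.AH
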